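import Mathlib

namespace Pool.Agent.H27C

open Filter Topology

variable {A : Type*} [CStarAlgebra A]

/-- A faithful tracial state. -/
structure Tr (τ : A →ₗ[ℂ] ℂ) : Prop where
  one : τ 1 = 1
  pos : ∀ x, 0 ≤ (τ (star x * x)).re ∧ (τ (star x * x)).im = 0
  comm : ∀ x y, τ (x * y) = τ (y * x)

section basic
variable {τ : A →ₗ[ℂ] ℂ} (hτ : Tr τ)
include hτ

theorem Tr.map_star (x : A) : τ (star x) = star (τ x) := by
  have h1 := (hτ.pos (x + 1)).2
  have h2 := (hτ.pos (x + Complex.I • 1)).2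
  have h3 := (hτ.pos x).2
  have e1 : star (x + 1) * (x + 1) = star x * x + star x + x + 1 := by
    rw [star_add, star_one]; noncomm_ring
  have e2 : star (x + Complex.I • (1 : A)) * (x + Complex.I • (1 : A)) =
      star x * x + Complex.I • star x - Complex.I • x + 1 := by
    rw [star_add, star_smul, star_one, Complex.star_def, Complex.conj_I]
    have h4 : (-Complex.I • (1 : A)) * (Complex.I • (1 : A)) = 1 := by
      rw [smul_mul_smul_comm, mul_one, neg_mul, Complex.I_mul_I, neg_neg, one_smul]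
    have h5 : star x * (Complex.I • (1 : A)) = Complex.I • star x := by
      rw [mul_smul_comm, mul_one]
    have h6 : (-Complex.I • (1 : A)) * x = - (Complex.I • x) := by
      rw [smul_mul_assoc, one_mul, neg_smul]
    rw [add_mul, mul_add, mul_add, h4, h5, h6]
    abel
  rw [e1] at h1
  rw [e2] at h2
  simp only [map_add, map_sub, map_smul, hτ.one, Complex.add_im, Complex.sub_im, Complex.one_im,
    smul_eq_mul, Complex.mul_im, Complex.I_re, Complex.I_im] at h1 h2
  apply Complex.ext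
  · simp only [Complex.star_def, Complex.conj_re]
    rw [h3] at h2
    linarith
  · simp only [Complex.star_def, Complex.conj_im]
    rw [h3] at h1
    linarith

theorem Tr.norm_sq_le (x : A) : ‖τ x‖ ^ 2 ≤ (τ (star x * x)).re := by
  have h1 := (hτ.pos (x - (τ x) • 1)).1
  have e1 : star (x - (τ x) • (1 : A)) * (x - (τ x) • (1 : A)) =
      star x * x - (τ x) • star x - (star (τ x)) • x + (star (τ x) * τ x) • 1 := by
    rw [star_sub, star_smul, star_one]
    simp only [sub_mul, mul_sub, smul_mul_assoc, mul_smul_comm, one_mul, mul_one, smul_sub,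
      smul_smul]
    rw [mul_comm (star (τ x)) (τ x)]
    abel
  rw [e1] at h1
  simp only [map_add, map_sub, map_smul, hτ.one, hτ.map_star, smul_eq_mul, mul_one] at h1
  have e2 : (τ (star x * x) - τ x * star (τ x) - star (τ x) * τ x + star (τ x) * τ x).re =
      (τ (star x * x)).re - ‖τ x‖ ^ 2 := by
    have : τ x * star (τ x) = ((‖τ x‖ ^ 2 : ℝ) : ℂ) := by
      rw [Complex.star_def, Complex.mul_conj, Complex.normSq_eq_norm_sq]
    simp only [sub_add_cancel, Complex.sub_re]
    rw [this, Complex.ofReal_re]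
  rw [e2] at h1
  linarith

end basic

section order
variable [PartialOrder A] [StarOrderedRing A] {τ : A →ₗ[ℂ] ℂ} (hτ : Tr τ)
include hτ

theorem Tr.nonneg_re {x : A} (hx : 0 ≤ x) : 0 ≤ (τ x).re := by
  obtain ⟨b, rfl⟩ := CStarAlgebra.nonneg_iff_eq_star_mul_self.1 hx
  exact (hτ.pos b).1

theorem Tr.im_eq_zero {x : A} (hx : IsSelfAdjoint x) : (τ x).im = 0 := by
  have h := hτ.map_star x
  rw [hx.star_eq] at h
  have := congrArg Complex.im h
  simp only [Complex.star_def, Complex.conj_im] at this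
  linarith

theorem Tr.mono_re {x y : A} (hxy : x ≤ y) : (τ x).re ≤ (τ y).re := by
  have := hτ.nonneg_re (sub_nonneg.2 hxy)
  rw [map_sub, Complex.sub_re] at this
  linarith

theorem Tr.norm_le (x : A) : ‖τ x‖ ≤ ‖x‖ := by
  have h1 := hτ.norm_sq_le x
  have h2 : star x * x ≤ algebraMap ℝ A (‖x‖ ^ 2) := CStarAlgebra.star_mul_le_algebraMap_norm_sq
  have h3 := hτ.mono_re h2
  have h4 : (τ (algebraMap ℝ A (‖x‖ ^ 2))).re = ‖x‖ ^ 2 := by
    rw [IsScalarTower.algebraMap_apply ℝ ℂ A, Algebra.algebraMap_eq_smul_one, map_smul, hτ.one]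
    simp [← Complex.ofReal_pow]
  rw [h4] at h3
  exact abs_le_of_sq_le_sq' (by linarith) (norm_nonneg _) |>.2

theorem Tr.continuous : Continuous τ :=
  AddMonoidHomClass.continuous_of_bound τ 1 (fun x => by rw [one_mul]; exact hτ.norm_le x)

/-- If `‖y^N‖ ≤ 1` for some `N ≥ 1` then all `τ (y^k)` have modulus at most one. -/
theorem Tr.pow_le_of_norm_pow_le (y : A) (N : ℕ) (hN : 1 ≤ N) (hy : ‖y ^ N‖ ≤ 1) (k : ℕ) :
    ‖τ (y ^ k)‖ ≤ 1 := by
  set h : A := ∑ n ∈ Finset.range N, star (y ^ n) * y ^ n with hh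
  have h1 : 1 ≤ h := by
    obtain ⟨m, rfl⟩ : ∃ m, N = m + 1 := ⟨N - 1, by omega⟩
    rw [hh, Finset.sum_range_succ']
    simp only [pow_zero, star_one, mul_one]
    have : 0 ≤ ∑ n ∈ Finset.range m, star (y ^ (n + 1)) * y ^ (n + 1) :=
      Finset.sum_nonneg (fun n _ => star_mul_self_nonneg _)
    exact le_add_of_nonneg_left this
  have h2 : star y * h * y ≤ h := by
    have e1 : star y * h * y + 1 = h + star (y ^ N) * y ^ N := by
      have e2 : star y * h * y = ∑ n ∈ Finset.range N, star (y ^ (n + 1)) * y ^ (n + 1) := by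
        rw [hh, Finset.mul_sum, Finset.sum_mul]
        refine Finset.sum_congr rfl (fun n _ => ?_)
        rw [pow_succ, star_mul]
        simp only [mul_assoc]
      rw [e2, hh, ← Finset.sum_range_succ (fun n => star (y ^ n) * y ^ n), Finset.sum_range_succ']
      simp
    have h3 : star (y ^ N) * y ^ N ≤ 1 := by
      have := CStarAlgebra.star_mul_le_algebraMap_norm_sq (a := y ^ N)
      refine this.trans ?_
      rw [← (algebraMap ℝ A).map_one]
      exact algebraMap_mono A (by nlinarith [norm_nonneg (y ^ N)])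
    have h4 : star y * h * y + 1 ≤ h + 1 := by
      rw [e1]
      exact add_le_add_right h3 h
    exact le_of_add_le_add_right h4
  have h0 : 0 ≤ h := zero_le_one.trans h1
  have hu : IsUnit h := CStarAlgebra.isUnit_of_le 1 h1
  have hsu : IsUnit (CFC.sqrt h) := (CFC.isUnit_sqrt_iff h h0).2 hu
  obtain ⟨s, hs⟩ := hsu
  have hs0 : (0 : A) ≤ s := by rw [hs]; exact CFC.sqrt_nonneg h
  have hss : star (s : A) = s := (IsSelfAdjoint.of_nonneg hs0).star_eq
  have hs2 : (s : A) * s = h := by rw [hs]; exact CFC.sqrt_mul_sqrt_self h h0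
  have hsi : star ((s⁻¹ : Aˣ) : A) = ((s⁻¹ : Aˣ) : A) := by
    have e : star ((s⁻¹ : Aˣ) : A) * s = 1 := by
      calc star ((s⁻¹ : Aˣ) : A) * s = star ((s⁻¹ : Aˣ) : A) * star (s : A) := by rw [hss]
        _ = 1 := by rw [← star_mul, Units.mul_inv, star_one]
    calc star ((s⁻¹ : Aˣ) : A) = star ((s⁻¹ : Aˣ) : A) * (s * ((s⁻¹ : Aˣ) : A)) := by
          rw [Units.mul_inv, mul_one]
      _ = ((s⁻¹ : Aˣ) : A) := by rw [← mul_assoc, e, one_mul]
  set z : A := s * y * ((s⁻¹ : Aˣ) : A) with hz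
  have hzz : star z * z ≤ 1 := by
    have e1 : star z * z = star ((s⁻¹ : Aˣ) : A) * (star y * h * y) * ((s⁻¹ : Aˣ) : A) := by
      rw [hz, star_mul, star_mul, hss, ← hs2]
      simp only [mul_assoc]
    rw [e1]
    refine (star_left_conjugate_le_conjugate h2 _).trans ?_
    rw [hsi, ← hs2]
    apply le_of_eq
    rw [← mul_assoc, Units.inv_mul, one_mul, Units.mul_inv]
  have hz1 : ‖z‖ ≤ 1 := by
    have h5 : ‖star z * z‖ ≤ 1 := (CStarAlgebra.norm_le_one_iff_of_nonneg _
      (star_mul_self_nonneg z)).2 hzz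
    rw [CStarRing.norm_star_mul_self] at h5
    nlinarith [norm_nonneg z]
  have hzk : z ^ k = s * y ^ k * ((s⁻¹ : Aˣ) : A) := by
    rw [hz]
    exact Units.conj_pow s y k
  have h6 : τ (y ^ k) = τ (z ^ k) := by
    rw [hzk, mul_assoc, hτ.comm, mul_assoc, Units.inv_mul, mul_one]
  rw [h6]
  refine (hτ.norm_le _).trans ?_
  rcases subsingleton_or_nontrivial A with hA | hA
  · rw [Subsingleton.elim (z ^ k) 0, norm_zero]; exact zero_le_one
  · exact (norm_pow_le z k).trans (pow_le_one₀ (norm_nonneg z) hz1)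

theorem Tr.pow_le (y : A) (ρ : ℝ) (hρ : 0 ≤ ρ) (hy : spectralRadius ℂ y ≤ ENNReal.ofReal ρ)
    (k : ℕ) : ‖τ (y ^ k)‖ ≤ ρ ^ k := by
  have key : ∀ r : ℝ, ρ < r → ‖τ (y ^ k)‖ ≤ r ^ k := by
    intro r hr
    have hr0 : 0 < r := lt_of_le_of_lt hρ hr
    have hlt : spectralRadius ℂ y < ENNReal.ofReal r :=
      lt_of_le_of_lt hy ((ENNReal.ofReal_lt_ofReal_iff hr0).2 hr)
    have ht := spectrum.pow_norm_pow_one_div_tendsto_nhds_spectralRadius y
    have hev := (ht.eventually_lt_const hlt).and (eventually_ge_atTop 1)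
    obtain ⟨N, hN, hN1⟩ := hev.exists
    have hN0 : (0 : ℝ) < N := by exact_mod_cast hN1
    have h1 : ‖y ^ N‖ ^ (1 / N : ℝ) < r := (ENNReal.ofReal_lt_ofReal_iff hr0).1 hN
    have h2 : ‖y ^ N‖ ≤ r ^ N := by
      have h3 : (‖y ^ N‖ ^ (1 / N : ℝ)) ^ N ≤ r ^ N :=
        pow_le_pow_left₀ (by positivity) h1.le N
      rwa [← Real.rpow_natCast, ← Real.rpow_mul (norm_nonneg _), one_div,
        inv_mul_cancel₀ hN0.ne', Real.rpow_one] at h3
    set c : ℂ := ((r⁻¹ : ℝ) : ℂ) with hc
    have hcn : ‖c‖ = r⁻¹ := by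
      rw [hc, Complex.norm_real, Real.norm_eq_abs, abs_of_pos (inv_pos.2 hr0)]
    have h4 : ‖(c • y) ^ N‖ ≤ 1 := by
      rw [smul_pow, norm_smul, norm_pow, hcn, inv_pow]
      rw [inv_mul_le_iff₀ (by positivity), mul_one]
      exact h2
    have h5 := hτ.pow_le_of_norm_pow_le (c • y) N hN1 h4 k
    rw [smul_pow, map_smul, smul_eq_mul, norm_mul, norm_pow, hcn, inv_pow,
      inv_mul_le_iff₀ (by positivity), mul_one] at h5
    exact h5
  have hcont : Tendsto (fun r : ℝ => r ^ k) (𝓝[>] ρ) (𝓝 (ρ ^ k)) :=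
    (continuous_pow k).continuousAt.tendsto.mono_left nhdsWithin_le_nhds
  refine ge_of_tendsto hcont ?_
  filter_upwards [self_mem_nhdsWithin] with r hr
  exact key r hr

end order

end Pool.Agent.H27C
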