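import Mathlib
import Pool.Agent.H27C.Tr

namespace Pool.Agent.H27C

open Filter Topology

theorem coef2 (a0 a1 a2 : ℂ) (K : ℝ) (h : ∀ l : ℂ, ‖a0 + l * a1 + l ^ 2 * a2‖ ≤ K * ‖l‖ ^ 2) :
    a0 = 0 ∧ a1 = 0 := by
  have h0 : a0 = 0 := by
    have := h 0
    simp only [zero_mul, add_zero, norm_zero, ne_eq, OfNat.ofNat_ne_zero, not_false_eq_true,
      zero_pow, mul_zero] at this
    exact norm_le_zero_iff.1 this
  refine ⟨h0, ?_⟩
  subst h0
  have key : ∀ e : ℝ, 0 < e → ‖a1‖ ≤ (K + ‖a2‖) * e := by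
    intro e he
    have h1 := h e
    have h2 : (0 : ℂ) + (e : ℂ) * a1 + (e : ℂ) ^ 2 * a2 = (e : ℂ) * (a1 + e * a2) := by ring
    rw [h2, norm_mul, Complex.norm_real, Real.norm_eq_abs, abs_of_pos he] at h1
    have h3 : ‖a1 + e * a2‖ ≤ K * e := by
      have : e * ‖a1 + e * a2‖ ≤ e * (K * e) := by linarith [h1]
      exact le_of_mul_le_mul_left this he
    have h4 : ‖a1‖ ≤ ‖a1 + e * a2‖ + ‖(e : ℂ) * a2‖ := by
      have := norm_sub_le (a1 + e * a2) ((e : ℂ) * a2)
      simpa using this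
    rw [norm_mul, Complex.norm_real, Real.norm_eq_abs, abs_of_pos he] at h4
    linarith
  have hlim : Tendsto (fun e : ℝ => (K + ‖a2‖) * e) (𝓝[>] 0) (𝓝 ((K + ‖a2‖) * 0)) :=
    ((continuous_const.mul continuous_id).continuousAt.tendsto).mono_left nhdsWithin_le_nhds
  rw [mul_zero] at hlim
  have h5 : ‖a1‖ ≤ 0 := by
    refine ge_of_tendsto hlim ?_
    filter_upwards [self_mem_nhdsWithin] with e he
    exact key e he
  exact norm_le_zero_iff.1 h5

theorem coef3 (a0 a1 a2 a3 : ℂ) (K : ℝ)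
    (h : ∀ l : ℂ, ‖a0 + l * a1 + l ^ 2 * a2 + l ^ 3 * a3‖ ≤ K * ‖l‖ ^ 3) :
    a0 = 0 ∧ a1 = 0 ∧ a2 = 0 := by
  have hK : 0 ≤ K := by
    have := (norm_nonneg _).trans (h 1)
    simpa using this
  have h0 : a0 = 0 := by
    have := h 0
    simp only [zero_mul, add_zero, norm_zero, ne_eq, OfNat.ofNat_ne_zero, not_false_eq_true,
      zero_pow, mul_zero] at this
    exact norm_le_zero_iff.1 this
  subst h0
  have hdiv : ∀ l : ℂ, l ≠ 0 → ‖a1 + l * a2 + l ^ 2 * a3‖ ≤ K * ‖l‖ ^ 2 := by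
    intro l hl
    have hl' : 0 < ‖l‖ := norm_pos_iff.2 hl
    have h1 := h l
    have h2 : (0 : ℂ) + l * a1 + l ^ 2 * a2 + l ^ 3 * a3 = l * (a1 + l * a2 + l ^ 2 * a3) := by
      ring
    rw [h2, norm_mul] at h1
    have : ‖l‖ * ‖a1 + l * a2 + l ^ 2 * a3‖ ≤ ‖l‖ * (K * ‖l‖ ^ 2) := by
      refine h1.trans (le_of_eq (by ring))
    exact le_of_mul_le_mul_left this hl'
  have h1 : a1 = 0 := by
    have hlim : Tendsto (fun l : ℂ => ‖a1 + l * a2 + l ^ 2 * a3‖) (𝓝[≠] 0)
        (𝓝 ‖a1 + 0 * a2 + 0 ^ 2 * a3‖) :=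
      (by fun_prop : Continuous (fun l : ℂ => ‖a1 + l * a2 + l ^ 2 * a3‖)).continuousAt.tendsto.mono_left
        nhdsWithin_le_nhds
    have hlim2 : Tendsto (fun l : ℂ => K * ‖l‖ ^ 2) (𝓝[≠] 0) (𝓝 (K * ‖(0 : ℂ)‖ ^ 2)) :=
      (by fun_prop : Continuous (fun l : ℂ => K * ‖l‖ ^ 2)).continuousAt.tendsto.mono_left
        nhdsWithin_le_nhds
    have := le_of_tendsto_of_tendsto hlim hlim2 (by
      filter_upwards [self_mem_nhdsWithin] with l hl
      exact hdiv l hl)
    simp only [zero_mul, add_zero, norm_zero, ne_eq, OfNat.ofNat_ne_zero, not_false_eq_true,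
      zero_pow, mul_zero] at this
    exact norm_le_zero_iff.1 this
  refine ⟨rfl, h1, ?_⟩
  subst h1
  refine (coef2 0 a2 a3 K (fun l => ?_)).2
  by_cases hl : l = 0
  · subst hl; simp
  · exact hdiv l hl

variable {A : Type*} [CStarAlgebra A]

theorem specrad_le (y : A) (l : ℂ)
    (h : (y * (y - l • 1)) * (y * (y - l • 1)) = 0) :
    spectralRadius ℂ y ≤ ENNReal.ofReal ‖l‖ := by
  rcases subsingleton_or_nontrivial A with hA | hA
  · rw [Subsingleton.elim y 0]; simp
  unfold spectralRadius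
  refine iSup₂_le (fun k hk => ?_)
  have h1 := spectrum.subset_polynomial_aeval (𝕜 := ℂ) y
    ((Polynomial.X * (Polynomial.X - Polynomial.C l)) ^ 2)
  have h2 : Polynomial.aeval y ((Polynomial.X * (Polynomial.X - Polynomial.C l)) ^ 2 :
      Polynomial ℂ) = 0 := by
    simp only [map_pow, map_mul, map_sub, Polynomial.aeval_X, Polynomial.aeval_C]
    rw [Algebra.algebraMap_eq_smul_one, pow_two]
    exact h
  rw [h2, spectrum.zero_eq] at h1
  have h3 := h1 ⟨k, hk, rfl⟩
  simp only [Polynomial.eval_pow, Polynomial.eval_mul, Polynomial.eval_X, Polynomial.eval_sub,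
    Polynomial.eval_C, Set.mem_singleton_iff, ne_eq, OfNat.ofNat_ne_zero, not_false_eq_true,
    pow_eq_zero_iff, mul_eq_zero] at h3
  rw [← enorm_eq_nnnorm, ← ofReal_norm]
  rcases h3 with h3 | h3
  · rw [h3, norm_zero]
    exact ENNReal.ofReal_le_ofReal (norm_nonneg _)
  · rw [sub_eq_zero.1 h3]

/-- The abstract properties of a `II_1` factor that are used. -/
structure Fac (τ : A →ₗ[ℂ] ℂ) : Prop extends Tr τ where
  faith : ∀ x, τ (star x * x) = 0 → x = 0
  corner : ∀ p : A, IsStarProjection p → ∀ x, p * x * p = x → τ x = 0 →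
    x ∈ closure (Submodule.span ℂ {a : A | p * a * p = a ∧ a * a = 0} : Set A)
  spec : ∀ h : A, IsSelfAdjoint h → h ∈ closure (Submodule.span ℝ
    {e : A | IsStarProjection e ∧ ∀ z, Commute z h → Commute z e} : Set A)
  small : ∀ p q : A, IsStarProjection p → IsStarProjection q → (τ p).re + (τ q).re < 1 →
    ∀ ε > 0, ∃ r, IsStarProjection r ∧ r ≠ 0 ∧ r * p = 0 ∧ r * q = 0 ∧ (τ r).re < ε

/-- A continuous functional vanishing on a set vanishes on the closure of its span. -/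
theorem vanish_closure {ω : A →ₗ[ℂ] ℂ} (hω : Continuous ω) (s : Set A)
    (hs : ∀ a ∈ s, ω a = 0) (x : A) (hx : x ∈ closure (Submodule.span ℂ s : Set A)) : ω x = 0 := by
  have h1 : (Submodule.span ℂ s : Set A) ⊆ {y | ω y = 0} := by
    intro y hy
    have : Submodule.span ℂ s ≤ LinearMap.ker ω := Submodule.span_le.2 (fun a ha => hs a ha)
    exact this hy
  exact closure_minimal h1 (isClosed_eq hω continuous_const) hx

/-- Spectrally bounded unital surjections. -/
structure SB (T : A →ₗ[ℂ] A) (C : NNReal) : Prop where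
  one : T 1 = 1
  surj : ∀ y, ∃ x, T x = y
  bdd : ∀ x, spectralRadius ℂ (T x) ≤ (C : ENNReal) * spectralRadius ℂ x

section
variable [PartialOrder A] [StarOrderedRing A] {τ : A →ₗ[ℂ] ℂ} (hτ : Fac τ)
  {T : A →ₗ[ℂ] A} {C : NNReal} (hT : SB T C)
include hτ hT

theorem growth (x : A) (ρ : ℝ) (hρ : 0 ≤ ρ) (hx : spectralRadius ℂ x ≤ ENNReal.ofReal ρ) (k : ℕ) :
    ‖τ ((T x) ^ k)‖ ≤ (C * ρ) ^ k := by
  apply hτ.toTr.pow_le _ _ (by positivity)
  refine (hT.bdd x).trans ?_
  rw [ENNReal.ofReal_mul (by positivity), ENNReal.ofReal_coe_nnreal]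
  gcongr

theorem T_continuous : Continuous T := by
  rcases subsingleton_or_nontrivial A with hA | hA
  · exact continuous_of_const (fun x y => by rw [Subsingleton.elim (T x) (T y)])
  apply LinearMap.continuous_of_seq_closed_graph
  intro u x y hu hTu
  have hw : ∀ v : A, τ ((y - T x) * T v) = 0 := by
    intro v
    have hbound : ∀ l : ℂ, ‖τ (((y - T x) + l • T v) ^ 2)‖ ≤ (C * ‖l • v‖) ^ 2 := by
      intro l
      have h1 : ∀ n, ‖τ ((T (u n) - T x + l • T v) ^ 2)‖ ≤ (C * ‖u n - x + l • v‖) ^ 2 := by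
        intro n
        have h2 := growth hτ hT (u n - x + l • v) ‖u n - x + l • v‖ (norm_nonneg _) (by
          rw [ofReal_norm]
          exact spectrum.spectralRadius_le_nnnorm _) 2
        simpa only [map_add, map_sub, map_smul] using h2
      have h3 : Tendsto (fun n => ‖τ ((T (u n) - T x + l • T v) ^ 2)‖) atTop
          (𝓝 ‖τ ((y - T x + l • T v) ^ 2)‖) := by
        apply Tendsto.norm
        apply (hτ.toTr.continuous.tendsto _).comp
        exact ((hTu.sub_const _).add_const _).pow 2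
      have h4 : Tendsto (fun n => (C * ‖u n - x + l • v‖) ^ 2) atTop
          (𝓝 ((C * ‖x - x + l • v‖) ^ 2)) := by
        exact (((hu.sub_const _).add_const _).norm.const_mul _).pow 2
      rw [sub_self, zero_add] at h4
      exact le_of_tendsto_of_tendsto' h3 h4 h1
    have h5 := coef2 (τ ((y - T x) * (y - T x))) (2 * τ ((y - T x) * T v)) (τ (T v * T v))
      ((C * ‖v‖) ^ 2) (fun l => by
        have h6 := hbound l
        have h7 : τ ((y - T x + l • T v) ^ 2) = τ ((y - T x) * (y - T x)) +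
            l * (2 * τ ((y - T x) * T v)) + l ^ 2 * τ (T v * T v) := by
          rw [pow_two, add_mul, mul_add, mul_add, map_add, map_add, map_add]
          simp only [smul_mul_assoc, mul_smul_comm, map_smul, smul_eq_mul]
          rw [hτ.comm (T v) (y - T x)]
          ring
        rw [h7, norm_smul] at h6
        refine h6.trans (le_of_eq (by ring)))
    have h8 := h5.2
    simpa using h8
  obtain ⟨v, hv⟩ := hT.surj (star (y - T x))
  have h9 := hw v
  rw [hv, hτ.comm] at h9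
  exact sub_eq_zero.1 (hτ.faith _ h9)

theorem tau_T_nil (a : A) (ha : a * a = 0) : τ (T a) = 0 := by
  have h1 : spectralRadius ℂ a ≤ ENNReal.ofReal ‖(0 : ℂ)‖ := by
    apply specrad_le
    simp only [zero_smul, sub_zero, ha, mul_zero]
  rw [norm_zero] at h1
  have h2 := growth hτ hT a 0 le_rfl h1 1
  simp only [pow_one, mul_zero] at h2
  exact norm_le_zero_iff.1 h2

end

end Pool.Agent.H27C
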