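import Mathlib
import Pool.Agent.H27C.Core1

namespace Pool.Agent.H27C

open Filter Topology

variable {A : Type*} [CStarAlgebra A]

/-- The trace-zero part. -/
noncomputable def dev (τ : A →ₗ[ℂ] ℂ) : A →ₗ[ℂ] A :=
  LinearMap.id - (LinearMap.toSpanSingleton ℂ A 1) ∘ₗ τ

theorem dev_apply (τ : A →ₗ[ℂ] ℂ) (x : A) : dev τ x = x - τ x • 1 := by
  simp [dev]

section
variable [PartialOrder A] [StarOrderedRing A] {τ : A →ₗ[ℂ] ℂ} (hτ : Fac τ)
include hτ

theorem tau_dev (x : A) : τ (dev τ x) = 0 := by
  rw [dev_apply, map_sub, map_smul, hτ.one, smul_eq_mul, mul_one, sub_self]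

theorem dev_of_zero {x : A} (hx : τ x = 0) : dev τ x = x := by
  rw [dev_apply, hx, zero_smul, sub_zero]

theorem dev_one : dev τ 1 = 0 := by
  rw [dev_apply, hτ.one, one_smul, sub_self]

theorem dev_continuous : Continuous (dev τ) := by
  have h : (fun x => dev τ x) = fun x => x - τ x • (1 : A) := by
    ext x; exact dev_apply τ x
  change Continuous (fun x => dev τ x)
  rw [h]
  exact continuous_id.sub (hτ.toTr.continuous.smul continuous_const)

theorem proj_re {p : A} (hp : IsStarProjection p) : τ p = ((τ p).re : ℂ) := by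
  apply Complex.ext
  · simp
  · simp only [Complex.ofReal_im]
    exact hτ.toTr.im_eq_zero hp.isSelfAdjoint

theorem proj_nonneg {p : A} (hp : IsStarProjection p) : 0 ≤ (τ p).re := by
  have h := (hτ.pos p).1
  rwa [hp.isSelfAdjoint.star_eq, hp.isIdempotentElem.eq] at h

theorem proj_eq_zero {p : A} (hp : IsStarProjection p) (h : (τ p).re = 0) : p = 0 := by
  apply hτ.faith
  rw [hp.isSelfAdjoint.star_eq, hp.isIdempotentElem.eq, proj_re hτ hp, h, Complex.ofReal_zero]

theorem proj_pos {p : A} (hp : IsStarProjection p) (h : p ≠ 0) : 0 < (τ p).re :=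
  lt_of_le_of_ne (proj_nonneg hτ hp) (fun h' => h (proj_eq_zero hτ hp h'.symm))

theorem proj_le_one {p : A} (hp : IsStarProjection p) : (τ p).re ≤ 1 := by
  have h := proj_nonneg hτ hp.one_sub
  rw [map_sub, hτ.one, Complex.sub_re, Complex.one_re] at h
  linarith

/-- A functional that kills all `x` with `x² = 0`, `xp + px ∈ ℂ x` has the form
`c τ(p ·)` on the kernel of the trace. -/
theorem functional_form {p : A} (hp : IsStarProjection p) {ω : A →ₗ[ℂ] ℂ} (hω : Continuous ω)
    (h : ∀ x, x * x = 0 → (∃ c : ℂ, x * p + p * x = c • x) → ω x = 0) :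
    ∃ c : ℂ, ∀ x, τ x = 0 → ω x = c * τ (p * x) := by
  have hpp : p * p = p := hp.isIdempotentElem.eq
  -- corner claim
  have corner : ∀ q : A, IsStarProjection q → (∀ a, q * a * q = a → ∃ c : ℂ, a * p + p * a = c • a) →
      ∀ y, q * y * q = y → ω y = (ω q / τ q) * τ y := by
    intro q hq hqc y hy
    have hqq : q * q = q := hq.isIdempotentElem.eq
    by_cases h0 : τ q = 0
    · have hq0 : q = 0 := proj_eq_zero hτ hq (by rw [h0]; rfl)
      rw [hq0] at hy
      rw [← hy]
      simp
    · have h1 : ω (y - (τ y / τ q) • q) = 0 := by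
        apply vanish_closure hω {a : A | q * a * q = a ∧ a * a = 0}
        · rintro a ⟨ha1, ha2⟩
          exact h a ha2 (hqc a ha1)
        · apply hτ.corner q hq
          · rw [mul_sub, sub_mul, hy]
            simp only [mul_smul_comm, smul_mul_assoc, hqq]
          · rw [map_sub, map_smul, smul_eq_mul, div_mul_cancel₀ _ h0, sub_self]
      rw [map_sub, map_smul, smul_eq_mul, sub_eq_zero] at h1
      rw [h1]
      field_simp
  set q := 1 - p with hq
  have hqp : IsStarProjection q := hp.one_sub
  have hqq : q * q = q := hqp.isIdempotentElem.eq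
  have hpq : p * q = 0 := by rw [hq, mul_sub, mul_one, hpp, sub_self]
  have hqp0 : q * p = 0 := by rw [hq, sub_mul, one_mul, hpp, sub_self]
  have c1 := corner p hp (fun a ha => ⟨2, by
    have e1 : a * p = a := by rw [← ha]; simp only [mul_assoc, hpp]
    have e2 : p * a = a := by rw [← ha]; simp only [← mul_assoc, hpp]
    rw [e1, e2, two_smul]⟩)
  have c2 := corner q hqp (fun a ha => ⟨0, by
    have e1 : a * p = 0 := by rw [← ha]; simp only [mul_assoc, hqp0, mul_zero]
    have e2 : p * a = 0 := by rw [← ha]; simp only [← mul_assoc, hpq, zero_mul]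
    rw [e1, e2, zero_smul, add_zero]⟩)
  refine ⟨ω p / τ p - ω q / τ q, fun x hx => ?_⟩
  have hdec : x = p * x * p + p * x * q + q * x * p + q * x * q := by
    have : (1 : A) = p + q := by rw [hq]; abel
    calc x = (p + q) * x * (p + q) := by rw [← this, one_mul, mul_one]
      _ = _ := by noncomm_ring
  have o1 : ω (p * x * q) = 0 := by
    apply h
    · simp only [← mul_assoc]
      rw [mul_assoc (p * x) q p, hqp0, mul_zero, zero_mul, zero_mul]
    · refine ⟨1, ?_⟩
      rw [mul_assoc (p * x) q p, hqp0, mul_zero, zero_add, one_smul]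
      simp only [← mul_assoc, hpp]
  have o2 : ω (q * x * p) = 0 := by
    apply h
    · simp only [← mul_assoc]
      rw [mul_assoc (q * x) p q, hpq, mul_zero, zero_mul, zero_mul]
    · refine ⟨1, ?_⟩
      rw [mul_assoc (q * x) p p, hpp, one_smul]
      simp only [← mul_assoc, hpq, zero_mul, add_zero]
  have o3 := c1 (p * x * p) (by simp only [← mul_assoc, hpp]; rw [mul_assoc (p * x) p p, hpp])
  have o4 := c2 (q * x * q) (by simp only [← mul_assoc, hqq]; rw [mul_assoc (q * x) q q, hqq])
  have t1 : τ (p * x * p) = τ (p * x) := by rw [hτ.comm, ← mul_assoc, hpp]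
  have t2 : τ (q * x * q) = - τ (p * x) := by
    rw [hτ.comm, ← mul_assoc, hqq, hq, sub_mul, one_mul, map_sub, hx, zero_sub]
  have : ω x = ω (p * x * p) + ω (p * x * q) + ω (q * x * p) + ω (q * x * q) := by
    conv_lhs => rw [hdec]
    rw [map_add, map_add, map_add]
  rw [this, o1, o2, o3, o4, t1, t2]
  ring

end

section
variable [PartialOrder A] [StarOrderedRing A] {τ : A →ₗ[ℂ] ℂ} (hτ : Fac τ)
  {T : A →ₗ[ℂ] A} {C : NNReal} (hT : SB T C)
include hτ hT

theorem tau_T (x : A) : τ (T x) = τ x := by
  have h1 : τ (T (dev τ x)) = 0 := by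
    have hc : Continuous (τ ∘ₗ T) := hτ.toTr.continuous.comp (T_continuous hτ hT)
    have := vanish_closure (ω := τ ∘ₗ T) hc {a : A | (1 : A) * a * 1 = a ∧ a * a = 0}
      (fun a ha => tau_T_nil hτ hT a ha.2) (dev τ x)
      (hτ.corner 1 (IsStarProjection.one A) _ (by simp) (tau_dev hτ x))
    exact this
  rw [dev_apply, map_sub, map_smul, hT.one, map_sub, map_smul, hτ.one, smul_eq_mul, mul_one,
    sub_eq_zero] at h1
  exact h1

theorem growth_pert (p x : A) (hp : p * p = p) (hx : x * x = 0) (c : ℂ)
    (hc : x * p + p * x = c • x) (l : ℂ) (k : ℕ) :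
    ‖τ ((T x + l • T p) ^ k)‖ ≤ (C * ‖l‖) ^ k := by
  have h1 : spectralRadius ℂ (x + l • p) ≤ ENNReal.ofReal ‖l‖ := by
    apply specrad_le
    have e : (x + l • p) * (x + l • p - l • 1) = (l * (c - 1)) • x := by
      have : (x + l • p) * (x + l • p - l • 1) =
          x * x + l • (x * p + p * x) - l • x + (l * l) • (p * p) - (l * l) • p := by
        simp only [mul_sub, mul_add, add_mul, smul_mul_assoc, mul_smul_comm, mul_one, smul_smul,
          smul_add]
        abel
      rw [this, hx, hc, hp, smul_smul]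
      module
    rw [e, smul_mul_smul_comm, hx, smul_zero]
  have h2 := growth hτ hT (x + l • p) ‖l‖ (norm_nonneg _) h1 k
  simpa only [map_add, map_smul] using h2

theorem S2 (p x : A) (hp : p * p = p) (hx : x * x = 0) (c : ℂ) (hc : x * p + p * x = c • x) :
    τ (T x * T p) = 0 ∧ τ (T x * (T p * T p)) = 0 := by
  constructor
  · have h := coef2 (τ (T x * T x)) (2 * τ (T x * T p)) (τ (T p * T p)) (C ^ 2) (fun l => by
      have h1 := growth_pert hτ hT p x hp hx c hc l 2
      have h2 : τ ((T x + l • T p) ^ 2) = τ (T x * T x) +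
            l * (2 * τ (T x * T p)) + l ^ 2 * τ (T p * T p) := by
        rw [pow_two, add_mul, mul_add, mul_add, map_add, map_add, map_add]
        simp only [smul_mul_assoc, mul_smul_comm, map_smul, smul_eq_mul]
        rw [hτ.comm (T p) (T x)]
        ring
      rw [h2] at h1
      refine h1.trans (le_of_eq (by ring)))
    simpa using h.2
  · have h := coef3 (τ (T x * T x * T x)) (3 * τ (T x * T x * T p)) (3 * τ (T x * (T p * T p)))
      (τ (T p * T p * T p)) (C ^ 3) (fun l => by
      have h1 := growth_pert hτ hT p x hp hx c hc l 3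
      have h2 : τ ((T x + l • T p) ^ 3) = τ (T x * T x * T x) +
            l * (3 * τ (T x * T x * T p)) + l ^ 2 * (3 * τ (T x * (T p * T p))) +
            l ^ 3 * τ (T p * T p * T p) := by
        have e : (T x + l • T p) ^ 3 = T x * T x * T x + l • (T x * T x * T p) +
            l • (T x * T p * T x) + l • (T p * T x * T x) + (l * l) • (T x * T p * T p) +
            (l * l) • (T p * T x * T p) + (l * l) • (T p * T p * T x) +
            (l * (l * l)) • (T p * T p * T p) := by
          rw [pow_succ, pow_two]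
          simp only [mul_add, add_mul, smul_mul_assoc, mul_smul_comm, smul_smul, smul_add]
          abel
        have c1 : τ (T x * T p * T x) = τ (T x * T x * T p) := by
          rw [hτ.comm, ← mul_assoc]
        have c2 : τ (T p * T x * T x) = τ (T x * T x * T p) := by
          rw [mul_assoc, hτ.comm]
        have c3 : τ (T x * T p * T p) = τ (T x * (T p * T p)) := by rw [mul_assoc]
        have c4 : τ (T p * T x * T p) = τ (T x * (T p * T p)) := by
          rw [mul_assoc, hτ.comm, mul_assoc]
        have c5 : τ (T p * T p * T x) = τ (T x * (T p * T p)) := by rw [hτ.comm]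
        rw [e]
        simp only [map_add, map_smul, smul_eq_mul]
        rw [c1, c2, c3, c4, c5]
        ring
      rw [h2] at h1
      refine h1.trans (le_of_eq (by ring)))
    simpa using h.2.2

theorem E1 {p : A} (hp : IsStarProjection p) :
    ∃ c : ℂ, ∀ x, τ x = 0 → τ (T x * T p) = c * τ (p * x) := by
  have hTc := T_continuous hτ hT
  have hpp : p * p = p := hp.isIdempotentElem.eq
  exact functional_form hτ hp (ω := τ ∘ₗ (LinearMap.mulRight ℂ (T p)) ∘ₗ T)
    (hτ.toTr.continuous.comp (hTc.mul continuous_const))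
    (fun x hx ⟨c, hc⟩ => (S2 hτ hT p x hpp hx c hc).1)

theorem E2 {p : A} (hp : IsStarProjection p) :
    ∃ c : ℂ, ∀ x, τ x = 0 → τ (T x * (T (dev τ p) * T (dev τ p))) = c * τ (p * x) := by
  have hTc := T_continuous hτ hT
  have hpp : p * p = p := hp.isIdempotentElem.eq
  obtain ⟨c, hc⟩ := E1 hτ hT hp
  obtain ⟨d, hd⟩ := functional_form hτ hp (ω := τ ∘ₗ (LinearMap.mulRight ℂ (T p * T p)) ∘ₗ T)
    (hτ.toTr.continuous.comp (hTc.mul continuous_const))
    (fun x hx ⟨c, hc⟩ => (S2 hτ hT p x hpp hx c hc).2)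
  refine ⟨d - 2 * τ p * c, fun x hx => ?_⟩
  have hd' : τ (T x * (T p * T p)) = d * τ (p * x) := hd x hx
  have e : T x * (T (dev τ p) * T (dev τ p)) = T x * (T p * T p) - (2 * τ p) • (T x * T p) +
      (τ p * τ p) • T x := by
    rw [dev_apply, map_sub, map_smul, hT.one]
    simp only [mul_sub, sub_mul, smul_mul_assoc, mul_smul_comm, mul_one, one_mul, smul_sub,
      smul_smul]
    module
  rw [e, map_add, map_sub, map_smul, map_smul, hd', hc x hx, tau_T hτ hT, hx]
  simp only [smul_eq_mul, mul_zero, add_zero]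
  ring

end

end Pool.Agent.H27C
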