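import Mathlib
import Pool.Agent.H27C.Core2

namespace Pool.Agent.H27C

open Filter Topology

variable {A : Type*} [CStarAlgebra A]

theorem add_proj {p r : A} (hp : IsStarProjection p) (hr : IsStarProjection r) (h : r * p = 0) :
    IsStarProjection (p + r) := by
  have h' : p * r = 0 := by
    have := congrArg star h
    rw [star_mul, hp.isSelfAdjoint.star_eq, hr.isSelfAdjoint.star_eq, star_zero] at this
    exact this
  refine ⟨?_, hp.isSelfAdjoint.add hr.isSelfAdjoint⟩
  change (p + r) * (p + r) = p + r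
  rw [add_mul, mul_add, mul_add, h, h', hp.isIdempotentElem.eq, hr.isIdempotentElem.eq]
  abel

section
variable [PartialOrder A] [StarOrderedRing A] {τ : A →ₗ[ℂ] ℂ} (hτ : Fac τ)
include hτ

theorem tau_ne_zero {p : A} (hp : IsStarProjection p) (h : p ≠ 0) : τ p ≠ 0 := by
  intro h0
  exact h (proj_eq_zero hτ hp (by rw [h0]; rfl))

theorem tau_sum_ne_one {p r : A} (hp : IsStarProjection p) (hr : IsStarProjection r)
    (h : r * p = 0) (h1 : p + r ≠ 1) : 1 - τ p - τ r ≠ 0 := by
  intro h0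
  apply h1
  have h2 := (add_proj hp hr h).one_sub
  have h3 : 1 - (p + r) = 0 := by
    apply proj_eq_zero hτ h2
    rw [map_sub, map_add, hτ.one, ← sub_sub, h0]
    rfl
  exact (sub_eq_zero.1 h3).symm

/-- values of the trace on products with `dev`. -/
theorem tau_mul_dev (x y : A) : τ (x * dev τ y) = τ (x * y) - τ x * τ y := by
  rw [dev_apply, mul_sub, mul_smul_comm, mul_one, map_sub, map_smul, smul_eq_mul]
  ring

theorem two_tau {p : A} (hp : IsStarProjection p) (h : (τ p).re < 1 / 2) : 1 - 2 * τ p ≠ 0 := by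
  rw [proj_re hτ hp]
  intro h0
  have := congrArg Complex.re h0
  simp at this
  linarith

/-- A small projection orthogonal to two given ones. -/
theorem exists_small {p r0 : A} (hp : IsStarProjection p) (hr0 : IsStarProjection r0)
    (h1 : (τ p).re ≤ 1 / 2) (h2 : (τ r0).re < 1 / 4) :
    ∃ r, IsStarProjection r ∧ r ≠ 0 ∧ r * p = 0 ∧ r * r0 = 0 ∧ (τ r).re < 1 / 4 ∧
      p + r ≠ 1 ∧ r0 + r ≠ 1 := by
  obtain ⟨r, hr, hr1, hr2, hr3, hr4⟩ := hτ.small p r0 hp hr0 (by linarith) (1 / 4) (by norm_num)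
  refine ⟨r, hr, hr1, hr2, hr3, hr4, ?_, ?_⟩
  · intro h
    have := congrArg (fun x => (τ x).re) h
    simp only [map_add, hτ.one, Complex.add_re, Complex.one_re] at this
    linarith
  · intro h
    have := congrArg (fun x => (τ x).re) h
    simp only [map_add, hτ.one, Complex.add_re, Complex.one_re] at this
    linarith

end

section
variable [PartialOrder A] [StarOrderedRing A] {τ : A →ₗ[ℂ] ℂ} (hτ : Fac τ)
  {T : A →ₗ[ℂ] A} {C : NNReal} (hT : SB T C)
include hτ hT

theorem T_dev (x : A) : T (dev τ x) = T x - τ x • 1 := by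
  rw [dev_apply, map_sub, map_smul, hT.one]

theorem S4 {p r : A} (hp : IsStarProjection p) (hr : IsStarProjection r) (h : r * p = 0)
    (hp0 : p ≠ 0) (hr0 : r ≠ 0) (h1 : p + r ≠ 1) {c c' : ℂ}
    (hc : ∀ x, τ x = 0 → τ (T x * T p) = c * τ (p * x))
    (hc' : ∀ x, τ x = 0 → τ (T x * T r) = c' * τ (r * x)) : c = c' := by
  obtain ⟨d, hd⟩ := E1 hτ hT (add_proj hp hr h)
  have hpp := hp.isIdempotentElem.eq
  have hrr := hr.isIdempotentElem.eq
  have hpr : τ (p * r) = 0 := by rw [hτ.comm, h, map_zero]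
  have hrp : τ (r * p) = 0 := by rw [h, map_zero]
  have key : ∀ x, τ x = 0 → d * (τ (p * x) + τ (r * x)) = c * τ (p * x) + c' * τ (r * x) := by
    intro x hx
    have := hd x hx
    rw [map_add, mul_add, map_add, hc x hx, hc' x hx, add_mul, map_add] at this
    exact this.symm
  have k1 := key (dev τ p) (tau_dev hτ p)
  have k2 := key (dev τ r) (tau_dev hτ r)
  simp only [tau_mul_dev hτ, hpp, hrr, hpr, hrp] at k1 k2
  set s := τ p with hs
  set t := τ r with ht
  have hs0 : s ≠ 0 := tau_ne_zero hτ hp hp0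
  have ht0 : t ≠ 0 := tau_ne_zero hτ hr hr0
  have hst : 1 - s - t ≠ 0 := tau_sum_ne_one hτ hp hr h h1
  have e1 : s * (1 - s - t) * (d - c) = 0 := by linear_combination (1 - t) * k1 + s * k2
  have e2 : t * (1 - s - t) * (d - c') = 0 := by linear_combination (1 - s) * k2 + t * k1
  have f1 : d - c = 0 := by
    rcases mul_eq_zero.1 e1 with h' | h'
    · exact absurd h' (mul_ne_zero hs0 hst)
    · exact h'
  have f2 : d - c' = 0 := by
    rcases mul_eq_zero.1 e2 with h' | h'
    · exact absurd h' (mul_ne_zero ht0 hst)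
    · exact h'
  rw [← sub_eq_zero.1 f1, ← sub_eq_zero.1 f2]

theorem S4_univ : ∃ α : ℂ, ∀ p, IsStarProjection p → ∀ x, τ x = 0 →
    τ (T x * T p) = α * τ (p * x) := by
  obtain ⟨r0, hr0, hr1, -, -, hr4⟩ := hτ.small 0 0 (IsStarProjection.zero A)
    (IsStarProjection.zero A) (by simp) (1 / 4) (by norm_num)
  obtain ⟨α, hα⟩ := E1 hτ hT hr0
  have main : ∀ p, IsStarProjection p → (τ p).re ≤ 1 / 2 → ∀ x, τ x = 0 →
      τ (T x * T p) = α * τ (p * x) := by
    intro p hp hp2
    by_cases hp0 : p = 0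
    · intro x _
      rw [hp0]
      simp
    obtain ⟨r, hr, hrne, hrp, hrr0, -, hs1, hs2⟩ := exists_small hτ hp hr0 hp2 hr4
    obtain ⟨c, hc⟩ := E1 hτ hT hp
    obtain ⟨c', hc'⟩ := E1 hτ hT hr
    have h1 := S4 hτ hT hp hr hrp hp0 hrne hs1 hc hc'
    have h2 := S4 hτ hT hr0 hr hrr0 hr1 hrne hs2 hα hc'
    rw [h2, ← h1]
    exact hc
  refine ⟨α, fun p hp x hx => ?_⟩
  by_cases h : (τ p).re ≤ 1 / 2
  · exact main p hp h x hx
  · have h1 : (τ (1 - p)).re ≤ 1 / 2 := by
      rw [map_sub, hτ.one, Complex.sub_re, Complex.one_re]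
      linarith
    have h2 := main (1 - p) hp.one_sub h1 x hx
    rw [map_sub, hT.one, mul_sub, mul_one, map_sub, tau_T hτ hT, hx, sub_mul, one_mul, map_sub,
      hx] at h2
    linear_combination -h2

theorem S5 {p r : A} (hp : IsStarProjection p) (hr : IsStarProjection r) (h : r * p = 0)
    (hp0 : p ≠ 0) (hr0 : r ≠ 0) (h1 : p + r ≠ 1) {c c' : ℂ}
    (hc : ∀ x, τ x = 0 → τ (T x * (T (dev τ p) * T (dev τ p))) = c * τ (p * x))
    (hc' : ∀ x, τ x = 0 → τ (T x * (T (dev τ r) * T (dev τ r))) = c' * τ (r * x)) :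
    c * (1 - 2 * τ r) = c' * (1 - 2 * τ p) := by
  obtain ⟨d, hd⟩ := E2 hτ hT (add_proj hp hr h)
  have hpp := hp.isIdempotentElem.eq
  have hrr := hr.isIdempotentElem.eq
  have hpr : τ (p * r) = 0 := by rw [hτ.comm, h, map_zero]
  have hrp : τ (r * p) = 0 := by rw [h, map_zero]
  set X := T (dev τ p) with hX
  set Y := T (dev τ r) with hY
  have key : ∀ x, τ x = 0 → τ (T x * (X * Y + Y * X)) =
      d * (τ (p * x) + τ (r * x)) - c * τ (p * x) - c' * τ (r * x) := by
    intro x hx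
    have h1 := hd x hx
    have h2 := hc x hx
    have h3 := hc' x hx
    rw [map_add, map_add, ← hX, ← hY, add_mul p r, map_add] at h1
    have e : T x * ((X + Y) * (X + Y)) = T x * (X * X) + T x * (Y * Y) +
        T x * (X * Y + Y * X) := by noncomm_ring
    rw [e, map_add, map_add, h2, h3] at h1
    linear_combination h1
  have k1 := key (dev τ p) (tau_dev hτ p)
  have k2 := key (dev τ r) (tau_dev hτ r)
  rw [← hX] at k1
  rw [← hY] at k2
  have m1 : τ (X * (X * Y + Y * X)) = 2 * (c * τ (p * dev τ r)) := by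
    have h2 := hc (dev τ r) (tau_dev hτ r)
    rw [← hY] at h2
    rw [← h2, mul_add, map_add]
    have a1 : τ (X * (X * Y)) = τ (Y * (X * X)) := by rw [← mul_assoc, hτ.comm]
    have a2 : τ (X * (Y * X)) = τ (Y * (X * X)) := by rw [hτ.comm, mul_assoc]
    rw [a1, a2]; ring
  have m2 : τ (Y * (X * Y + Y * X)) = 2 * (c' * τ (r * dev τ p)) := by
    have h2 := hc' (dev τ p) (tau_dev hτ p)
    rw [← hX] at h2
    rw [← h2, mul_add, map_add]
    have a1 : τ (Y * (X * Y)) = τ (X * (Y * Y)) := by rw [hτ.comm, mul_assoc]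
    have a2 : τ (Y * (Y * X)) = τ (X * (Y * Y)) := by rw [← mul_assoc, hτ.comm]
    rw [a1, a2]; ring
  rw [m1] at k1
  rw [m2] at k2
  simp only [tau_mul_dev hτ, hpp, hrr, hpr, hrp] at k1 k2
  set s := τ p with hs
  set t := τ r with ht
  have hs0 : s ≠ 0 := tau_ne_zero hτ hp hp0
  have ht0 : t ≠ 0 := tau_ne_zero hτ hr hr0
  have e1 : s * (-2 * c * t - (d * (1 - s - t) - c * (1 - s) + c' * t)) = 0 := by
    linear_combination k1
  have e2 : t * (-2 * c' * s - (d * (1 - s - t) + c * s - c' * (1 - t))) = 0 := by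
    linear_combination k2
  have f1 := (mul_eq_zero.1 e1).resolve_left hs0
  have f2 := (mul_eq_zero.1 e2).resolve_left ht0
  linear_combination f1 - f2

theorem S5_univ : ∃ κ : ℂ, ∀ p, IsStarProjection p → ∀ x, τ x = 0 →
    τ (T x * (T (dev τ p) * T (dev τ p))) = κ * τ (x * (dev τ p * dev τ p)) := by
  obtain ⟨r0, hr0, hr1, -, -, hr4⟩ := hτ.small 0 0 (IsStarProjection.zero A)
    (IsStarProjection.zero A) (by simp) (1 / 4) (by norm_num)
  obtain ⟨c0, hc0⟩ := E2 hτ hT hr0
  have hr2 : 1 - 2 * τ r0 ≠ 0 := two_tau hτ hr0 (by linarith)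
  set κ := c0 / (1 - 2 * τ r0) with hκ
  have sq : ∀ p, IsStarProjection p → ∀ x, τ x = 0 →
      τ (x * (dev τ p * dev τ p)) = (1 - 2 * τ p) * τ (p * x) := by
    intro p hp x hx
    have e : x * (dev τ p * dev τ p) = x * p - (2 * τ p) • (x * p) + (τ p * τ p) • x := by
      rw [dev_apply]
      simp only [mul_sub, sub_mul, smul_mul_assoc, mul_smul_comm, mul_one, one_mul, smul_sub,
        smul_smul, hp.isIdempotentElem.eq]
      module
    rw [e, map_add, map_sub, map_smul, map_smul, hx, hτ.comm x p]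
    simp only [smul_eq_mul, mul_zero, add_zero]
    ring
  have main : ∀ p, IsStarProjection p → (τ p).re ≤ 1 / 2 → ∀ x, τ x = 0 →
      τ (T x * (T (dev τ p) * T (dev τ p))) = κ * τ (x * (dev τ p * dev τ p)) := by
    intro p hp hp2
    by_cases hp0 : p = 0
    · intro x _
      rw [hp0]
      simp
    obtain ⟨r, hr, hrne, hrp, hrr0, hr14, hs1, hs2⟩ := exists_small hτ hp hr0 hp2 hr4
    obtain ⟨c, hc⟩ := E2 hτ hT hp
    obtain ⟨c', hc'⟩ := E2 hτ hT hr
    have h1 := S5 hτ hT hp hr hrp hp0 hrne hs1 hc hc'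
    have h2 := S5 hτ hT hr0 hr hrr0 hr1 hrne hs2 hc0 hc'
    have hr3 : 1 - 2 * τ r ≠ 0 := two_tau hτ hr (by linarith)
    have h3 : c' = κ * (1 - 2 * τ r) := by
      have : c' * (1 - 2 * τ r0) = κ * (1 - 2 * τ r) * (1 - 2 * τ r0) := by
        rw [← h2, hκ]
        field_simp
      exact mul_right_cancel₀ hr2 this
    have h4 : c = κ * (1 - 2 * τ p) := by
      have : c * (1 - 2 * τ r) = κ * (1 - 2 * τ p) * (1 - 2 * τ r) := by
        rw [h1, h3]; ring
      exact mul_right_cancel₀ hr3 this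
    intro x hx
    rw [hc x hx, h4, sq p hp x hx]
    ring
  refine ⟨κ, fun p hp x hx => ?_⟩
  by_cases h : (τ p).re ≤ 1 / 2
  · exact main p hp h x hx
  · have h1 : (τ (1 - p)).re ≤ 1 / 2 := by
      rw [map_sub, hτ.one, Complex.sub_re, Complex.one_re]
      linarith
    have h2 := main (1 - p) hp.one_sub h1 x hx
    have h3 : dev τ (1 - p) = - dev τ p := by
      rw [map_sub, dev_one hτ, zero_sub]
    rw [h3, map_neg, neg_mul_neg, neg_mul_neg] at h2
    exact h2

end

end Pool.Agent.H27C
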