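import Mathlib
import Pool.Agent.H27C.Core3

namespace Pool.Agent.H27C

open Filter Topology

variable {A : Type*} [CStarAlgebra A]

section
variable [PartialOrder A] [StarOrderedRing A] {τ : A →ₗ[ℂ] ℂ} (hτ : Fac τ)
  {T : A →ₗ[ℂ] A} {C : NNReal} (hT : SB T C)
include hτ

/-- A continuous complex linear functional vanishing on all projections vanishes. -/
theorem vanish_of_proj {ω : A →ₗ[ℂ] ℂ} (hω : Continuous ω)
    (h : ∀ p, IsStarProjection p → ω p = 0) (x : A) : ω x = 0 := by
  have hsa : ∀ h, IsSelfAdjoint h → ω h = 0 := by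
    intro y hy
    have h1 : (Submodule.span ℝ {e : A | IsStarProjection e ∧ ∀ z, Commute z y → Commute z e} :
        Set A) ⊆ {y | ω y = 0} := by
      intro z hz
      have : Submodule.span ℝ {e : A | IsStarProjection e ∧ ∀ z, Commute z y → Commute z e} ≤
          (LinearMap.ker ω).restrictScalars ℝ := Submodule.span_le.2 (fun a ha => h a ha.1)
      exact this hz
    exact closure_minimal h1 (isClosed_eq hω continuous_const) (hτ.spec y hy)
  have h1 := realPart_add_I_smul_imaginaryPart x
  rw [← h1, map_add, map_smul, hsa _ (realPart x).2, hsa _ (imaginaryPart x).2]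
  simp

include hT

theorem S4_full {α : ℂ} (hα : ∀ p, IsStarProjection p → ∀ x, τ x = 0 →
    τ (T x * T p) = α * τ (p * x)) (x y : A) (hx : τ x = 0) : τ (T x * T y) = α * τ (x * y) := by
  have hTc := T_continuous hτ hT
  have := vanish_of_proj hτ (ω := τ ∘ₗ (LinearMap.mulLeft ℂ (T x)) ∘ₗ T -
    α • (τ ∘ₗ (LinearMap.mulLeft ℂ x)))
    ((hτ.toTr.continuous.comp (continuous_const.mul hTc)).sub
      ((hτ.toTr.continuous.comp (continuous_const.mul continuous_id)).const_smul α))
    (fun p hp => by
      have h1 := hα p hp x hx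
      simp only [LinearMap.sub_apply, LinearMap.comp_apply, LinearMap.mulLeft_apply,
        LinearMap.smul_apply, smul_eq_mul]
      rw [h1, hτ.comm x p, sub_self]) y
  simp only [LinearMap.sub_apply, LinearMap.comp_apply, LinearMap.mulLeft_apply,
        LinearMap.smul_apply, smul_eq_mul] at this
  exact sub_eq_zero.1 this

/-- The defect form. -/
theorem S6 {κ : ℂ} (hκ : ∀ p, IsStarProjection p → ∀ x, τ x = 0 →
    τ (T x * (T (dev τ p) * T (dev τ p))) = κ * τ (x * (dev τ p * dev τ p)))
    (x y : A) (hx : τ x = 0) :
    τ (T x * (T (dev τ y) * T (dev τ y))) = κ * τ (x * (dev τ y * dev τ y)) := by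
  have hTc := T_continuous hτ hT
  have hdc := dev_continuous hτ
  let B : A →ₗ[ℂ] A →ₗ[ℂ] ℂ := LinearMap.mk₂ ℂ
    (fun y z => τ (T x * (T (dev τ y) * T (dev τ z) + T (dev τ z) * T (dev τ y))) -
      κ * τ (x * (dev τ y * dev τ z + dev τ z * dev τ y)))
    (fun a b c => by
      simp only [map_add, mul_add, add_mul]; ring)
    (fun r a b => by
      simp only [map_smul, smul_mul_assoc, mul_smul_comm, mul_add, map_add, smul_eq_mul]; ring)
    (fun a b c => by
      simp only [map_add, mul_add, add_mul]; ring)
    (fun r a b => by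
      simp only [map_smul, smul_mul_assoc, mul_smul_comm, mul_add, map_add, smul_eq_mul]; ring)
  have hB : ∀ y z, B y z = τ (T x * (T (dev τ y) * T (dev τ z) + T (dev τ z) * T (dev τ y))) -
      κ * τ (x * (dev τ y * dev τ z + dev τ z * dev τ y)) := fun y z => rfl
  have hBcl : ∀ z, Continuous (fun y => B y z) := by
    intro z
    have := hτ.toTr.continuous
    have h1 : Continuous (fun y => T (dev τ y)) := hTc.comp hdc
    have h2 : Continuous (fun y => dev τ y) := hdc
    simp only [hB]
    exact (this.comp (continuous_const.mul ((h1.mul continuous_const).add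
      (continuous_const.mul h1)))).sub (continuous_const.mul (this.comp (continuous_const.mul
      ((h2.mul continuous_const).add (continuous_const.mul h2)))))
  have hsymm : ∀ y z, B y z = B z y := by
    intro y z
    rw [hB, hB, add_comm (T (dev τ y) * T (dev τ z)), add_comm (dev τ y * dev τ z)]
  have hexp : ∀ a b c d, B (a + b) (c + d) = B a c + B a d + (B b c + B b d) := by
    intro a b c d
    rw [map_add B a b, LinearMap.add_apply, map_add, map_add]
  have hBp : ∀ p, IsStarProjection p → B p p = 0 := by
    intro p hp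
    rw [hB]
    have := hκ p hp x hx
    simp only [mul_add, map_add]
    rw [this]; ring
  have horth : ∀ p r, IsStarProjection p → IsStarProjection r → r * p = 0 → B p r = 0 := by
    intro p r hp hr h
    have h1 := hBp _ (add_proj hp hr h)
    rw [hexp, hBp p hp, hBp r hr, hsymm r p] at h1
    have h2 : (2 : ℂ) * B p r = 0 := by linear_combination h1
    exact (mul_eq_zero.1 h2).resolve_left two_ne_zero
  have hcomm : ∀ e f, IsStarProjection e → IsStarProjection f → e * f = f * e → B e f = 0 := by
    intro e f he hf hef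
    have hee := he.isIdempotentElem.eq
    have hff := hf.isIdempotentElem.eq
    have ha : IsStarProjection (e * f) := by
      refine ⟨?_, ?_⟩
      · change e * f * (e * f) = e * f
        rw [hef, mul_assoc, ← mul_assoc e f e, hef, mul_assoc, hee, ← mul_assoc, hff]
      · change star (e * f) = e * f
        rw [star_mul, he.isSelfAdjoint.star_eq, hf.isSelfAdjoint.star_eq, hef]
    have h1 : e * f * e = e * f := by rw [mul_assoc, ← hef, ← mul_assoc, hee]
    have h2 : f * (e * f) = e * f := by rw [← mul_assoc, ← hef, mul_assoc, hff]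
    have hb : IsStarProjection (e - e * f) := by
      refine ⟨?_, he.isSelfAdjoint.sub ha.isSelfAdjoint⟩
      change (e - e * f) * (e - e * f) = e - e * f
      have h3 : e * f * (e * f) = e * f := ha.isIdempotentElem.eq
      have h4 : e * (e * f) = e * f := by rw [← mul_assoc, hee]
      rw [sub_mul, mul_sub, mul_sub, hee, h1, h3, h4]; abel
    have hc : IsStarProjection (f - e * f) := by
      refine ⟨?_, hf.isSelfAdjoint.sub ha.isSelfAdjoint⟩
      change (f - e * f) * (f - e * f) = f - e * f
      have h3 : e * f * (e * f) = e * f := ha.isIdempotentElem.eq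
      have h4 : e * f * f = e * f := by rw [mul_assoc, hff]
      rw [sub_mul, mul_sub, mul_sub, hff, h2, h3, h4]; abel
    have hee' : e = e * f + (e - e * f) := by abel
    have hff' : f = e * f + (f - e * f) := by abel
    have o1 : (f - e * f) * (e * f) = 0 := by
      rw [sub_mul, h2, ha.isIdempotentElem.eq, sub_self]
    have o2 : (e * f) * (e - e * f) = 0 := by
      rw [mul_sub, h1, ha.isIdempotentElem.eq, sub_self]
    have o3 : (f - e * f) * (e - e * f) = 0 := by
      have h5 : f * e = e * f := hef.symm
      rw [sub_mul, mul_sub, mul_sub, h5, h2, h1, ha.isIdempotentElem.eq]; abel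
    have hsum : B e f = B (e * f) (e * f) + B (e * f) (f - e * f) + (B (e - e * f) (e * f) +
        B (e - e * f) (f - e * f)) := by
      have h7 := hexp (e * f) (e - e * f) (e * f) (f - e * f)
      rwa [← hee', ← hff'] at h7
    rw [hsum, hBp _ ha, horth _ _ ha hc o1, horth _ _ hb ha o2, horth _ _ hb hc o3]
    simp
  have hsa : ∀ h, IsSelfAdjoint h → B h h = 0 := by
    intro h hh
    set S : Set A := {e : A | IsStarProjection e ∧ ∀ z, Commute z h → Commute z e} with hS
    have hSS : ∀ e ∈ S, ∀ f ∈ S, B e f = 0 := by
      intro e he f hf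
      apply hcomm e f he.1 hf.1
      have h1 : Commute h e := he.2 h (Commute.refl h)
      exact (hf.2 e h1.symm).eq
    have h1 : ∀ e ∈ S, ∀ z ∈ Submodule.span ℝ S, B e z = 0 := by
      intro e he z hz
      have : Submodule.span ℝ S ≤ (LinearMap.ker (B e)).restrictScalars ℝ :=
        Submodule.span_le.2 (fun f hf => hSS e he f hf)
      exact this hz
    have h2 : ∀ z ∈ Submodule.span ℝ S, ∀ y ∈ Submodule.span ℝ S, B y z = 0 := by
      intro z hz y hy
      have : Submodule.span ℝ S ≤ (LinearMap.ker (B.flip z)).restrictScalars ℝ :=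
        Submodule.span_le.2 (fun f hf => h1 f hf z hz)
      exact this hy
    have h3 : ∀ z ∈ Submodule.span ℝ S, B h z = 0 := by
      intro z hz
      exact closure_minimal (fun y hy => h2 z hz y hy) (isClosed_eq (hBcl z) continuous_const)
        (hτ.spec h hh)
    have h4 : ∀ z ∈ Submodule.span ℝ S, B z h = 0 := fun z hz => by rw [hsymm]; exact h3 z hz
    exact closure_minimal (fun y hy => h4 y hy) (isClosed_eq (hBcl h) continuous_const)
        (hτ.spec h hh)
  have hsa2 : ∀ a b, IsSelfAdjoint a → IsSelfAdjoint b → B a b = 0 := by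
    intro a b ha hb
    have h1 := hsa _ (ha.add hb)
    rw [hexp, hsa a ha, hsa b hb, hsymm b a] at h1
    have h2 : (2 : ℂ) * B a b = 0 := by linear_combination h1
    exact (mul_eq_zero.1 h2).resolve_left two_ne_zero
  have hall : B y y = 0 := by
    have h1 := realPart_add_I_smul_imaginaryPart y
    have ha : IsSelfAdjoint ((realPart y : selfAdjoint A) : A) := (realPart y).2
    have hb : IsSelfAdjoint ((imaginaryPart y : selfAdjoint A) : A) := (imaginaryPart y).2
    rw [← h1]
    simp only [map_add, LinearMap.add_apply, map_smul, LinearMap.smul_apply, hsa2 _ _ ha ha,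
      hsa2 _ _ ha hb, hsa2 _ _ hb ha, hsa2 _ _ hb hb, smul_zero, add_zero]
  rw [hB] at hall
  simp only [mul_add, map_add] at hall
  linear_combination (1 / 2 : ℂ) * hall

end

end Pool.Agent.H27C
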