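import Mathlib
import Pool.Agent.H27C.Core4

namespace Pool.Agent.H27C

open Filter Topology

variable {A : Type*} [CStarAlgebra A]

section
variable [PartialOrder A] [StarOrderedRing A] {τ : A →ₗ[ℂ] ℂ} (hτ : Fac τ)
  {T : A →ₗ[ℂ] A} {C : NNReal} (hT : SB T C)
include hτ hT

theorem exists_preimage_zero (w : A) (hw : τ w = 0) : ∃ x, τ x = 0 ∧ T x = w := by
  obtain ⟨x, hx⟩ := hT.surj w
  exact ⟨x, by rw [← tau_T hτ hT, hx, hw], hx⟩

/-- A faithful trace detects elements orthogonal to the range. -/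
theorem eq_scalar_of_orth (z : A) (h : ∀ y, τ y = 0 → τ (T y * z) = 0) : z = τ z • 1 := by
  obtain ⟨y, hy, hTy⟩ := exists_preimage_zero hτ hT (star (dev τ z)) (by
    rw [hτ.toTr.map_star, tau_dev hτ, star_zero])
  have h1 := h y hy
  rw [hTy] at h1
  have h2 : τ (star (dev τ z) * dev τ z) = 0 := by
    have e : star (dev τ z) * dev τ z = star (dev τ z) * z - τ z • star (dev τ z) := by
      conv_lhs => rw [dev_apply τ z]
      rw [mul_sub, mul_smul_comm, mul_one, ← dev_apply]
    rw [e, map_sub, map_smul, h1, hτ.toTr.map_star, tau_dev hτ, star_zero, smul_zero, sub_zero]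
  have h3 := hτ.faith _ h2
  rw [dev_apply] at h3
  exact sub_eq_zero.1 h3

variable {α κ0 : ℂ} (hα : ∀ x y, τ x = 0 → τ (T x * T y) = α * τ (x * y))
  (hκ : ∀ x y, τ x = 0 → τ (T x * (T (dev τ y) * T (dev τ y))) = κ0 * τ (x * (dev τ y * dev τ y)))
include hα

theorem T_inj (x : A) (hx : τ x = 0) (hTx : T x = 0) (hα0 : α ≠ 0) : x = 0 := by
  have h1 := hα x (star x) hx
  rw [hTx, zero_mul, map_zero, hτ.comm] at h1
  have h2 := (mul_eq_zero.1 h1.symm).resolve_left hα0
  exact hτ.faith x h2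

theorem alpha_ne (hne : ∃ x : A, τ x = 0 ∧ x ≠ 0) : α ≠ 0 := by
  intro h0
  obtain ⟨w, hw, hw0⟩ := hne
  obtain ⟨x, hx, hTx⟩ := exists_preimage_zero hτ hT w hw
  obtain ⟨y, hy⟩ := hT.surj (star w)
  have h1 := hα x y hx
  rw [hTx, hy, h0, zero_mul, hτ.comm] at h1
  exact hw0 (hτ.faith w h1)

include hκ

theorem square_formula (hα0 : α ≠ 0) (x : A) (hx : τ x = 0) :
    T x * T x = (κ0 / α) • T (dev τ (x * x)) + (α * τ (x * x)) • 1 := by
  have h1 : ∀ y, τ y = 0 → τ (T y * (T x * T x - (κ0 / α) • T (dev τ (x * x)))) = 0 := by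
    intro y hy
    have h2 := hκ y x hy
    rw [dev_of_zero hτ hx] at h2
    have h3 := hα y (dev τ (x * x)) hy
    have h4 : τ (y * dev τ (x * x)) = τ (y * (x * x)) := by
      rw [tau_mul_dev hτ, hy, zero_mul, sub_zero]
    rw [mul_sub, mul_smul_comm, map_sub, map_smul, h2, h3, h4, smul_eq_mul]
    field_simp
    ring
  have h5 := eq_scalar_of_orth hτ hT _ h1
  have h6 : τ (T x * T x - (κ0 / α) • T (dev τ (x * x))) = α * τ (x * x) := by
    rw [map_sub, map_smul, tau_T hτ hT, tau_dev hτ, smul_zero, sub_zero, hα x x hx]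
  rw [h6] at h5
  rw [← h5]
  abel

theorem jordan_formula (hα0 : α ≠ 0) (x y : A) (hx : τ x = 0) (hy : τ y = 0) :
    T x * T y + T y * T x = (κ0 / α) • T (dev τ (x * y + y * x)) + (α * τ (x * y + y * x)) • 1 := by
  have h1 := square_formula hτ hT hα hκ hα0 x hx
  have h2 := square_formula hτ hT hα hκ hα0 y hy
  have h3 := square_formula hτ hT hα hκ hα0 (x + y) (by rw [map_add, hx, hy, add_zero])
  have e1 : T (x + y) * T (x + y) = T x * T x + T y * T y + (T x * T y + T y * T x) := by
    rw [map_add]; noncomm_ring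
  have e2 : (x + y) * (x + y) = x * x + y * y + (x * y + y * x) := by noncomm_ring
  rw [e1, e2, h1, h2] at h3
  simp only [map_add, smul_add, mul_add, add_smul] at h3 ⊢
  linear_combination (norm := module) h3

theorem key_identity (hα0 : α ≠ 0) (x : A) (hx : τ x = 0) (κ : ℂ) (hκd : κ = κ0 / α) :
    (κ * (α - κ ^ 2)) • (τ (x * x * x) • T x - τ (x * x) • T (dev τ (x * x))) = 0 := by
  have sq := square_formula hτ hT hα hκ hα0
  have jo := jordan_formula hτ hT hα hκ hα0
  rw [← hκd] at sq jo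
  set X := T x with hX
  set x2 := x * x with hx2
  set x3 := x2 * x with hx3
  have hx3' : x * x2 = x3 := by rw [hx3, hx2, mul_assoc]
  set x4 := x2 * x2 with hx4
  have hx4' : x * x3 = x4 := by rw [hx3, ← mul_assoc, hx3', hx3, hx4, hx2]; simp only [mul_assoc]
  have hx4'' : x3 * x = x4 := by rw [hx3, hx4, hx2]; simp only [mul_assoc]
  set t2 := τ x2 with ht2
  set t3 := τ x3 with ht3
  set t4 := τ x4 with ht4
  set U := T (dev τ x2) with hU
  set V := T (dev τ x3) with hV
  set W := T (dev τ x4) with hW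
  have q1 : X * X = κ • U + (α * t2) • 1 := sq x hx
  have hdx : dev τ x = x := dev_of_zero hτ hx
  have q2 : X * U + U * X = (2 * κ) • V - (2 * κ * t2) • X + (2 * α * t3) • 1 := by
    have h1 := jo x (dev τ x2) hx (tau_dev hτ x2)
    have e1 : x * dev τ x2 + dev τ x2 * x = (2 : ℂ) • x3 - (2 * t2) • x := by
      rw [dev_apply, mul_sub, sub_mul, mul_smul_comm, smul_mul_assoc, mul_one, one_mul, hx3',
        ← hx3]
      module
    rw [e1, map_sub, map_smul, map_smul, hdx, map_sub, map_smul, map_smul, map_sub, map_smul,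
      map_smul, hx] at h1
    rw [h1]
    simp only [smul_eq_mul, mul_zero, sub_zero]
    module
  have q4 : X * V + V * X = (2 * κ) • W - (2 * κ * t3) • X + (2 * α * t4) • 1 := by
    have h1 := jo x (dev τ x3) hx (tau_dev hτ x3)
    have e1 : x * dev τ x3 + dev τ x3 * x = (2 : ℂ) • x4 - (2 * t3) • x := by
      rw [dev_apply, mul_sub, sub_mul, mul_smul_comm, smul_mul_assoc, mul_one, one_mul, hx4',
        hx4'']
      module
    rw [e1, map_sub, map_smul, map_smul, hdx, map_sub, map_smul, map_smul, map_sub, map_smul,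
      map_smul, hx] at h1
    rw [h1]
    simp only [smul_eq_mul, mul_zero, sub_zero]
    module
  have q6 : U * U = κ • (W - (2 * t2) • U) + (α * (t4 - t2 * t2)) • 1 := by
    have h1 := sq (dev τ x2) (tau_dev hτ x2)
    have e1 : dev τ x2 * dev τ x2 = x4 - (2 * t2) • x2 + (t2 * t2) • 1 := by
      rw [dev_apply]
      simp only [mul_sub, sub_mul, smul_mul_assoc, mul_smul_comm, mul_one, one_mul, smul_sub,
        smul_smul, ← hx4]
      module
    rw [e1] at h1
    rw [← hU] at h1
    rw [h1]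
    simp only [map_add, map_sub, map_smul, dev_one hτ, hτ.one, smul_zero, add_zero, smul_eq_mul,
      mul_one, ← hU, ← hW, ← ht2, ← ht4, map_zero]
    congr 2
    ring
  -- third power
  have q3 : (2 : ℂ) • (X * (X * X)) = (2 * κ * κ) • V + (2 * (α - κ * κ) * t2) • X +
      (2 * κ * α * t3) • 1 := by
    have e1 : (2 : ℂ) • (X * (X * X)) = X * (X * X) + (X * X) * X := by
      rw [mul_assoc X X X]; module
    rw [e1, q1, mul_add, add_mul, mul_smul_comm, smul_mul_assoc, mul_smul_comm, smul_mul_assoc,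
      mul_one, one_mul]
    have e2 : κ • (X * U) + (α * t2) • X + (κ • (U * X) + (α * t2) • X) =
        κ • (X * U + U * X) + (2 * α * t2) • X := by module
    rw [e2, q2]
    module
  have q5 : (4 : ℂ) • ((X * X) * (X * X)) = (2 * κ * κ) • (X * V + V * X) +
      (2 * (2 * (α - κ * κ) * t2)) • (X * X) + (2 * (2 * κ * α * t3)) • X := by
    have e1 : (4 : ℂ) • ((X * X) * (X * X)) = X * ((2 : ℂ) • (X * (X * X))) +
        ((2 : ℂ) • (X * (X * X))) * X := by
      rw [mul_smul_comm, smul_mul_assoc]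
      simp only [mul_assoc]
      module
    rw [e1, q3]
    simp only [mul_add, add_mul, mul_smul_comm, smul_mul_assoc, mul_one, one_mul]
    module
  have q7 : (X * X) * (X * X) = (κ * κ) • (U * U) + (2 * κ * α * t2) • U +
      (α * α * t2 * t2) • 1 := by
    rw [q1]
    simp only [mul_add, add_mul, mul_smul_comm, smul_mul_assoc, mul_one, one_mul, smul_smul]
    module
  rw [q7, q6, q4, q1] at q5
  have q8 : (4 : ℂ) • ((κ * (α - κ ^ 2)) • (t3 • X - t2 • U)) = 0 := by
    linear_combination (norm := module) (-1 : ℂ) • q5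
  rcases smul_eq_zero.1 q8 with h | h
  · norm_num at h
  · exact h

end

end Pool.Agent.H27C
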