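import Mathlib
import Pool.Agent.H27C.Core5

namespace Pool.Agent.H27C

open Filter Topology

variable {A : Type*} [CStarAlgebra A]

section
variable [PartialOrder A] [StarOrderedRing A] {τ : A →ₗ[ℂ] ℂ} (hτ : Fac τ)
  {T : A →ₗ[ℂ] A} {C : NNReal} (hT : SB T C)
include hτ

theorem small_not_scalar {r : A} (hr : IsStarProjection r) (hr0 : r ≠ 0) (h1 : (τ r).re < 1)
    (d : ℂ) : r ≠ d • 1 := by
  intro h
  have h2 : τ r = d := by rw [h, map_smul, hτ.one, smul_eq_mul, mul_one]
  have h3 : dev τ r = 0 := by rw [dev_apply, h2, ← h, sub_self]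
  have h4 := tau_mul_dev hτ r r
  rw [h3, mul_zero, map_zero, hr.isIdempotentElem.eq] at h4
  have h5 : τ r * (1 - τ r) = 0 := by linear_combination -h4
  rcases mul_eq_zero.1 h5 with h6 | h6
  · exact tau_ne_zero hτ hr hr0 h6
  · have := congrArg Complex.re h6
    simp at this
    linarith

include hT

theorem main_abstract : ∃ S : A →ₗ[ℂ] A, Function.Bijective S ∧ (∀ x, S (x * x) = S x * S x) ∧
    ∃ γ : ℂ, γ ≠ 0 ∧ ∀ x, T x = γ • S x + (1 - γ) • (τ x • (1 : A)) := by
  obtain ⟨α, hα'⟩ := S4_univ hτ hT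
  have hα := fun x y hx => S4_full hτ hT hα' x y hx
  obtain ⟨κ0, hκ'⟩ := S5_univ hτ hT
  have hκ := fun x y hx => S6 hτ hT hκ' x y hx
  obtain ⟨r0, hr0, hr1, -, -, hr4⟩ := hτ.small 0 0 (IsStarProjection.zero A)
    (IsStarProjection.zero A) (by simp) (1 / 4) (by norm_num)
  obtain ⟨r, hr, hrne, hrr0, -, hr14, hsum, -⟩ := exists_small hτ hr0 hr0 (by linarith) hr4
  have hr0r : r0 * r = 0 := by
    have := congrArg star hrr0
    rwa [star_mul, hr0.isSelfAdjoint.star_eq, hr.isSelfAdjoint.star_eq, star_zero] at this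
  have hdev0 : dev τ r0 ≠ 0 := by
    intro h
    rw [dev_apply, sub_eq_zero] at h
    exact small_not_scalar hτ hr0 hr1 (by linarith) _ h
  have hα0 : α ≠ 0 := alpha_ne hτ hT hα ⟨dev τ r0, tau_dev hτ r0, hdev0⟩
  set κ := κ0 / α with hκd
  have sq := square_formula hτ hT hα hκ hα0
  rw [← hκd] at sq
  have hκ0 : κ ≠ 0 := by
    intro h0
    obtain ⟨x, hx, hTx⟩ := exists_preimage_zero hτ hT (dev τ r0) (tau_dev hτ r0)
    have h1 := sq x hx
    rw [hTx, h0, zero_smul, zero_add] at h1
    have e1 : dev τ r0 * dev τ r0 = (1 - 2 * τ r0) • r0 + (τ r0 * τ r0) • 1 := by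
      rw [dev_apply]
      simp only [mul_sub, sub_mul, smul_mul_assoc, mul_smul_comm, mul_one, one_mul, smul_sub,
        smul_smul, hr0.isIdempotentElem.eq]
      module
    rw [e1] at h1
    have hne : 1 - 2 * τ r0 ≠ 0 := two_tau hτ hr0 (by linarith)
    have h2 : r0 = ((α * τ (x * x) - τ r0 * τ r0) / (1 - 2 * τ r0)) • (1 : A) := by
      have h3 : (1 - 2 * τ r0) • r0 = (α * τ (x * x) - τ r0 * τ r0) • (1 : A) := by
        linear_combination (norm := module) h1
      rw [div_eq_inv_mul, ← smul_smul, ← h3, smul_smul, inv_mul_cancel₀ hne, one_smul]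
    exact small_not_scalar hτ hr0 hr1 (by linarith) _ h2
  have hακ : α = κ ^ 2 := by
    by_contra hne
    set y := r0 - r with hy
    set x := dev τ y with hxd
    have hx : τ x = 0 := tau_dev hτ y
    have hk := key_identity hτ hT hα hκ hα0 x hx κ hκd
    have h1 : κ * (α - κ ^ 2) ≠ 0 := mul_ne_zero hκ0 (sub_ne_zero.2 hne)
    have h2 := (smul_eq_zero.1 hk).resolve_left h1
    have h3 : T (τ (x * x * x) • x - τ (x * x) • dev τ (x * x)) = 0 := by
      rw [map_sub, map_smul, map_smul]; exact h2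
    have h4 := T_inj hτ hT hα _ (by
      rw [map_sub, map_smul, map_smul, hx, tau_dev hτ, smul_zero, smul_zero, sub_zero]) h3 hα0
    have hysa : star y = y := by
      rw [hy, star_sub, hr0.isSelfAdjoint.star_eq, hr.isSelfAdjoint.star_eq]
    have hyim : star (τ y) = τ y := by rw [← hτ.toTr.map_star, hysa]
    have hxsa : star x = x := by
      rw [hxd, dev_apply, star_sub, star_smul, star_one, hysa, hyim]
    have hyy : y * y = r0 + r := by
      rw [hy, sub_mul, mul_sub, mul_sub, hrr0, hr0r, hr0.isIdempotentElem.eq,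
        hr.isIdempotentElem.eq]; abel
    have hry : r * y = - r := by rw [hy, mul_sub, hrr0, hr.isIdempotentElem.eq]; abel
    have hr0y : r0 * y = r0 := by rw [hy, mul_sub, hr0r, hr0.isIdempotentElem.eq]; abel
    -- y is not scalar, its square is not affine in y
    have haff : ∀ a b : ℂ, y * y ≠ a • y + b • 1 := by
      intro a b hab
      rw [hyy] at hab
      have g1 := congrArg (fun z => r0 * z) hab
      have g2 := congrArg (fun z => r * z) hab
      simp only [mul_add, mul_smul_comm, mul_one, hr0y, hry, hr0r, hrr0,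
        hr0.isIdempotentElem.eq, hr.isIdempotentElem.eq] at g1 g2
      have g3 : (a + b - 1) • r0 = 0 := by
        linear_combination (norm := module) (-1 : ℂ) • g1
      have g4 : (-a + b - 1) • r = 0 := by
        linear_combination (norm := module) (-1 : ℂ) • g2
      have g5 := (smul_eq_zero.1 g3).resolve_right hr1
      have g6 := (smul_eq_zero.1 g4).resolve_right hrne
      have ha : a = 0 := by linear_combination (1 / 2 : ℂ) * g5 - (1 / 2 : ℂ) * g6
      have hb : b = 1 := by linear_combination (1 / 2 : ℂ) * g5 + (1 / 2 : ℂ) * g6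
      rw [ha, hb, zero_smul, zero_add, one_smul] at hab
      exact hsum hab
    have hxne : x ≠ 0 := by
      intro h0
      rw [hxd, dev_apply, sub_eq_zero] at h0
      apply haff (τ y) 0
      rw [zero_smul, add_zero]
      conv_lhs => rw [h0]
      rw [smul_mul_assoc, one_mul, ← h0]
    have ht2 : τ (x * x) ≠ 0 := by
      intro h0
      apply hxne
      apply hτ.faith
      rw [hxsa]; exact h0
    set t2 := τ (x * x) with ht2d
    set t3 := τ (x * x * x) with ht3d
    have h5 : x * x = (t3 / t2) • x + t2 • 1 := by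
      have h6 : dev τ (x * x) = (t3 / t2) • x := by
        have h7 : t2 • dev τ (x * x) = t3 • x := (sub_eq_zero.1 h4).symm
        rw [div_eq_inv_mul, ← smul_smul, ← h7, smul_smul, inv_mul_cancel₀ ht2, one_smul]
      rw [← h6, dev_apply, ← ht2d]; abel
    apply haff (t3 / t2 + 2 * τ y) (t2 - (t3 / t2) * τ y - τ y * τ y)
    have h8 : x = y - τ y • 1 := by rw [hxd, dev_apply]
    rw [h8] at h5
    have h9 : (y - τ y • 1) * (y - τ y • 1) = y * y - (2 * τ y) • y + (τ y * τ y) • (1 : A) := by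
      simp only [mul_sub, sub_mul, smul_mul_assoc, mul_smul_comm, mul_one, one_mul, smul_sub,
        smul_smul]
      module
    rw [h9] at h5
    linear_combination (norm := module) h5
  let S : A →ₗ[ℂ] A := κ⁻¹ • (T ∘ₗ dev τ) + (LinearMap.toSpanSingleton ℂ A 1) ∘ₗ τ
  have hS : ∀ x, S x = κ⁻¹ • T (dev τ x) + τ x • 1 := by
    intro x
    simp [S]
  refine ⟨S, ⟨?_, ?_⟩, ?_, κ, hκ0, ?_⟩
  · rw [injective_iff_map_eq_zero]
    intro x hx
    rw [hS] at hx
    have h1 := congrArg τ hx
    rw [map_add, map_smul, map_smul, tau_T hτ hT, tau_dev hτ, hτ.one, map_zero, smul_zero,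
      zero_add, smul_eq_mul, mul_one] at h1
    rw [h1, zero_smul, add_zero] at hx
    have h2 := (smul_eq_zero.1 hx).resolve_left (inv_ne_zero hκ0)
    have h3 := T_inj hτ hT hα _ (tau_dev hτ x) h2 hα0
    rwa [dev_of_zero hτ h1] at h3
  · intro y
    obtain ⟨x0, hx0, hTx0⟩ := exists_preimage_zero hτ hT (κ • dev τ y) (by
      rw [map_smul, tau_dev hτ, smul_zero])
    refine ⟨x0 + τ y • 1, ?_⟩
    have h1 : dev τ (x0 + τ y • 1) = x0 := by
      rw [map_add, map_smul, dev_one hτ, smul_zero, add_zero, dev_of_zero hτ hx0]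
    have h2 : τ (x0 + τ y • 1) = τ y := by
      rw [map_add, map_smul, hτ.one, hx0, zero_add, smul_eq_mul, mul_one]
    rw [hS, h1, h2, hTx0, smul_smul, inv_mul_cancel₀ hκ0, one_smul, dev_apply]
    abel
  · intro x
    set x0 := dev τ x with hx0
    have hx0z : τ x0 = 0 := tau_dev hτ x
    have hxx : x = x0 + τ x • 1 := by rw [hx0, dev_apply]; abel
    have e1 : x * x = x0 * x0 + (2 * τ x) • x0 + (τ x * τ x) • 1 := by
      conv_lhs => rw [hxx]
      simp only [mul_add, add_mul, smul_mul_assoc, mul_smul_comm, mul_one, one_mul, smul_add,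
        smul_smul]
      module
    have e2 : dev τ (x * x) = dev τ (x0 * x0) + (2 * τ x) • x0 := by
      rw [e1, map_add, map_add, map_smul, map_smul, dev_one hτ, smul_zero, add_zero,
        dev_of_zero hτ hx0z]
    have e3 : τ (x * x) = τ (x0 * x0) + τ x * τ x := by
      conv_lhs => rw [e1]
      rw [map_add, map_add, map_smul, map_smul, hx0z, hτ.one, smul_zero, add_zero, smul_eq_mul,
        mul_one]
    rw [hS, hS, e2, e3, ← hx0]
    have e4 : (κ⁻¹ • T x0 + τ x • 1) * (κ⁻¹ • T x0 + τ x • 1) =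
        (κ⁻¹ * κ⁻¹) • (T x0 * T x0) + (2 * τ x * κ⁻¹) • T x0 + (τ x * τ x) • (1 : A) := by
      simp only [mul_add, add_mul, smul_mul_assoc, mul_smul_comm, mul_one, one_mul, smul_add,
        smul_smul]
      module
    rw [e4, sq x0 hx0z, hακ, map_add, map_smul]
    simp only [smul_add, smul_smul, add_smul]
    have e5 : κ⁻¹ * κ⁻¹ * κ = κ⁻¹ := by field_simp
    have e6 : κ⁻¹ * κ⁻¹ * (κ ^ 2 * τ (x0 * x0)) = τ (x0 * x0) := by field_simp
    rw [e5, e6]
    module
  · intro x
    rw [hS, dev_apply, map_sub, map_smul, hT.one, smul_add, smul_smul, mul_inv_cancel₀ hκ0,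
      one_smul]
    module

end

end Pool.Agent.H27C
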