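import Mathlib
import Pool.Agent.H27C.Core1

namespace Pool.Agent.H27C

open Filter Topology

/-- Contraction principle for density. -/
theorem contr {E : Type*} [NormedAddCommGroup E] [NormedSpace ℝ E] {V : Set E} {W : Submodule ℝ E}
    {c : ℝ} (hc0 : 0 ≤ c) (hc1 : c < 1) (hV : ∀ k ∈ V, ∀ w ∈ W, k - w ∈ V)
    (h : ∀ k ∈ V, ∃ w ∈ W, ‖k - w‖ ≤ c * ‖k‖) : ∀ k ∈ V, k ∈ closure (W : Set E) := by
  intro k hk
  have key : ∀ n : ℕ, ∃ w ∈ W, ‖k - w‖ ≤ c ^ n * ‖k‖ := by
    intro n
    induction n with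
    | zero => exact ⟨0, W.zero_mem, by simp⟩
    | succ n ih =>
      obtain ⟨w, hw, hwn⟩ := ih
      obtain ⟨w', hw', hwn'⟩ := h (k - w) (hV k hk w hw)
      refine ⟨w + w', W.add_mem hw hw', ?_⟩
      have : k - (w + w') = k - w - w' := by abel
      rw [this]
      calc ‖k - w - w'‖ ≤ c * ‖k - w‖ := hwn'
        _ ≤ c * (c ^ n * ‖k‖) := mul_le_mul_of_nonneg_left hwn hc0
        _ = c ^ (n + 1) * ‖k‖ := by ring
  rw [Metric.mem_closure_iff]
  intro ε hε
  have hlim : Tendsto (fun n : ℕ => c ^ n * ‖k‖) atTop (𝓝 (0 * ‖k‖)) :=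
    (tendsto_pow_atTop_nhds_zero_of_lt_one hc0 hc1).mul_const _
  rw [zero_mul] at hlim
  obtain ⟨n, hn⟩ := (hlim.eventually_lt_const hε).exists
  obtain ⟨w, hw, hwn⟩ := key n
  exact ⟨w, hw, by rw [dist_eq_norm]; exact lt_of_le_of_lt hwn hn⟩

variable {A : Type*} [CStarAlgebra A] [PartialOrder A] [StarOrderedRing A]

theorem norm_le_of_le {a : A} (ha : IsSelfAdjoint a) {r : ℝ} (hr : 0 ≤ r)
    (h1 : a ≤ algebraMap ℝ A r) (h2 : -algebraMap ℝ A r ≤ a) : ‖a‖ ≤ r := by
  rcases subsingleton_or_nontrivial A with hA | hA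
  · rw [Subsingleton.elim a 0, norm_zero]; exact hr
  rcases CStarAlgebra.norm_or_neg_norm_mem_spectrum (a := a) ha with h | h
  · exact (le_algebraMap_iff_spectrum_le ha).1 h1 _ h
  · have h3 : algebraMap ℝ A (-r) ≤ a := by rw [map_neg]; exact h2
    have := (algebraMap_le_iff_le_spectrum ha).1 h3 _ h
    linarith

/-- Von Neumann algebra properties that are used. -/
structure VL (A : Type*) [CStarAlgebra A] [PartialOrder A] [StarOrderedRing A] : Prop where
  sp : ∀ k : A, IsSelfAdjoint k → ∃ e, IsStarProjection e ∧ 0 ≤ k * e ∧ k * (1 - e) ≤ 0 ∧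
    ∀ z, Commute z k → Commute z e
  ct : ∀ p q : A, IsStarProjection p → IsStarProjection q →
    ∃ v, (star v * v = p ∧ q * v = v) ∨ (v * star v = q ∧ v * p = v)

theorem selfAdj_mul_commute {k e : A} (hk : IsSelfAdjoint k) (he : IsSelfAdjoint e)
    (h : k * e = e * k) : IsSelfAdjoint (k * e) := by
  rw [IsSelfAdjoint, star_mul, hk.star_eq, he.star_eq, h]

theorem proj_nonneg' {e : A} (he : IsStarProjection e) : 0 ≤ e := by
  have := star_mul_self_nonneg e
  rwa [he.isSelfAdjoint.star_eq, he.isIdempotentElem.eq] at this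

theorem mul_proj_le {k e : A} (he : IsStarProjection e) (h : Commute e k) {N : ℝ}
    (hN : k ≤ algebraMap ℝ A N) : k * e ≤ N • e := by
  have h1 := star_left_conjugate_le_conjugate hN e
  rw [he.isSelfAdjoint.star_eq, h.eq, mul_assoc, he.isIdempotentElem.eq,
    Algebra.algebraMap_eq_smul_one, mul_smul_comm, mul_one, smul_mul_assoc,
    he.isIdempotentElem.eq] at h1
  exact h1

theorem spec_of_VL (hA : VL A) (h : A) (hh : IsSelfAdjoint h) : h ∈ closure (Submodule.span ℝ
    {e : A | IsStarProjection e ∧ ∀ z, Commute z h → Commute z e} : Set A) := by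
  set S : Set A := {e : A | IsStarProjection e ∧ ∀ z, Commute z h → Commute z e} with hS
  set V : Set A := {k | IsSelfAdjoint k ∧ ∀ z, Commute z h → Commute z k} with hV
  have hWV : ∀ w ∈ Submodule.span ℝ S, IsSelfAdjoint w ∧ ∀ z, Commute z h → Commute z w := by
    intro w hw
    induction hw using Submodule.span_induction with
    | mem x hx => exact ⟨hx.1.isSelfAdjoint, hx.2⟩
    | zero => exact ⟨IsSelfAdjoint.zero A, fun z _ => Commute.zero_right z⟩
    | add x y _ _ hx hy => exact ⟨hx.1.add hy.1, fun z hz => (hx.2 z hz).add_right (hy.2 z hz)⟩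
    | smul a x _ hx =>
      refine ⟨?_, fun z hz => (hx.2 z hz).smul_right a⟩
      rw [IsSelfAdjoint, star_smul, hx.1.star_eq, star_trivial]
  refine contr (V := V) (c := 1 / 2) (by norm_num) (by norm_num) ?_ ?_ h
    ⟨hh, fun z hz => hz⟩
  · rintro k ⟨hk1, hk2⟩ w hw
    have := hWV w hw
    exact ⟨hk1.sub this.1, fun z hz => (hk2 z hz).sub_right (this.2 z hz)⟩
  · rintro k ⟨hk1, hk2⟩
    obtain ⟨e, he, he1, he2, he3⟩ := hA.sp k hk1
    have heS : e ∈ S := ⟨he, fun z hz => he3 z (hk2 z hz)⟩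
    have h1S : (1 : A) ∈ S := ⟨IsStarProjection.one A, fun z _ => Commute.one_right z⟩
    set N := ‖k‖ with hN
    refine ⟨N • e - (N / 2) • 1, Submodule.sub_mem _ (Submodule.smul_mem _ _
      (Submodule.subset_span heS)) (Submodule.smul_mem _ _ (Submodule.subset_span h1S)), ?_⟩
    have hek : Commute e k := (he3 k (Commute.refl k)).symm
    have hqk : Commute (1 - e) k := (Commute.one_left k).sub_left hek
    have hq := he.one_sub
    have hN0 : 0 ≤ N := norm_nonneg k
    have u1 : k * e ≤ N • e := mul_proj_le he hek hk1.le_algebraMap_norm_self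
    have u2 : -(k * (1 - e)) ≤ N • (1 - e) := by
      have h1 : -k ≤ algebraMap ℝ A N := by
        have := hk1.neg_algebraMap_norm_le_self
        exact neg_le.1 this
      have h2 := mul_proj_le hq (hqk.neg_right) h1
      rwa [neg_mul] at h2
    have hsplit : k = k * e + k * (1 - e) := by rw [mul_sub, mul_one]; abel
    have hsa : IsSelfAdjoint (k - (N • e - (N / 2) • (1 : A))) := by
      apply hk1.sub
      apply IsSelfAdjoint.sub
      · rw [IsSelfAdjoint, star_smul, he.isSelfAdjoint.star_eq, star_trivial]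
      · rw [IsSelfAdjoint, star_smul, star_one, star_trivial]
    have goal := norm_le_of_le hsa (r := N / 2) (by positivity) (by
      rw [Algebra.algebraMap_eq_smul_one]
      have : k - (N • e - (N / 2) • (1 : A)) = (k * e - N • e) + k * (1 - e) + (N / 2) • 1 := by
        conv_lhs => rw [hsplit]
        abel
      rw [this]
      have h3 : (k * e - N • e) + k * (1 - e) ≤ 0 := add_nonpos (sub_nonpos.2 u1) he2
      calc (k * e - N • e) + k * (1 - e) + (N / 2) • (1 : A) ≤ 0 + (N / 2) • (1 : A) :=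
            add_le_add_left h3 _
        _ = (N / 2) • 1 := zero_add _) (by
      rw [Algebra.algebraMap_eq_smul_one, ← sub_nonneg]
      have : k - (N • e - (N / 2) • (1 : A)) - -((N / 2) • (1 : A)) =
          k * e + (N • (1 - e) - (-(k * (1 - e)))) := by
        conv_lhs => rw [hsplit]
        rw [smul_sub]
        have : (N / 2) • (1 : A) + (N / 2) • (1 : A) = N • 1 := by rw [← add_smul]; congr 1; ring
        rw [← this]
        abel
      rw [this]
      exact add_nonneg he1 (sub_nonneg.2 u2))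
    calc _ ≤ N / 2 := goal
      _ = 1 / 2 * N := by ring

end Pool.Agent.H27C
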