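import Mathlib
import Pool.Agent.H27C.Contr

namespace Pool.Agent.H27C

open Filter Topology

variable {A : Type*} [CStarAlgebra A] [PartialOrder A] [StarOrderedRing A]

/-- Span of the square-zero elements of a corner. -/
noncomputable def N0 (p : A) : Submodule ℂ A := Submodule.span ℂ {a : A | p * a * p = a ∧ a * a = 0}

omit [PartialOrder A] [StarOrderedRing A] in
theorem N0_corner {p w : A} (hw : w ∈ N0 p) : p * w * p = w := by
  induction hw using Submodule.span_induction with
  | mem x hx => exact hx.1
  | zero => simp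
  | add x y _ _ hx hy => rw [mul_add, add_mul, hx, hy]
  | smul a x _ hx => rw [mul_smul_comm, smul_mul_assoc, hx]

/-- The real space used for the contraction argument. -/
noncomputable def W0 (p : A) : Submodule ℝ A :=
  ((N0 p).restrictScalars ℝ ⊓ selfAdjoint.submodule ℝ A) ⊔ Submodule.span ℝ {p}

theorem conj_symm_le {u a b : A} (hu : IsSelfAdjoint u) (h : a ≤ b) : u * a * u ≤ u * b * u := by
  have := star_left_conjugate_le_conjugate h u
  rwa [hu.star_eq] at this

/-- One averaging step. -/
theorem avg_step {p e k v : A} (hp : IsStarProjection p) (he : IsStarProjection e)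
    (hpe : p * e = e) (hk : IsSelfAdjoint k) (hpk : p * k * p = k) {N : ℝ} (hN0 : 0 ≤ N)
    (h1 : k ≤ N • e) (h2 : -(N • p) ≤ k) (hv1 : star v * v = e) (hv2 : (p - e) * v = v) :
    ∃ w ∈ W0 p, ‖k - w‖ ≤ 3 / 4 * N := by
  have hpp : p * p = p := hp.isIdempotentElem.eq
  have hps : star p = p := hp.isSelfAdjoint.star_eq
  have hee : e * e = e := he.isIdempotentElem.eq
  have hes : star e = e := he.isSelfAdjoint.star_eq
  have hep : e * p = e := by
    have := congrArg star hpe
    rwa [star_mul, hes, hps] at this
  -- v e = v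
  have hve : v * e = v := by
    have h3 : star (v - v * e) * (v - v * e) = 0 := by
      rw [star_sub, star_mul, hes, sub_mul, mul_sub, mul_sub]
      have a1 : star v * (v * e) = e := by rw [← mul_assoc, hv1, hee]
      have a2 : e * star v * v = e := by rw [mul_assoc, hv1, hee]
      have a3 : e * star v * (v * e) = e := by rw [mul_assoc, a1, hee]
      rw [hv1, a1, a2, a3]; abel
    have h4 := CStarRing.star_mul_self_eq_zero_iff (v - v * e)
    exact (sub_eq_zero.1 (h4.1 h3)).symm
  have hev : e * v = 0 := by
    rw [← hv2, ← mul_assoc, mul_sub, hep, hee, sub_self, zero_mul]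
  have hpv : p * v = v := by
    have : p * ((p - e) * v) = (p - e) * v := by rw [← mul_assoc, mul_sub, hpp, hpe]
    rwa [hv2] at this
  have hvv : v * v = 0 := by
    calc v * v = (v * e) * v := by rw [hve]
      _ = 0 := by rw [mul_assoc, hev, mul_zero]
  have hsv_e : star v * e = 0 := by
    have := congrArg star hev
    rwa [star_mul, hes, star_zero] at this
  have hsv_p : star v * p = star v := by
    have := congrArg star hpv
    rwa [star_mul, hps] at this
  have he_sv : e * star v = star v := by
    have := congrArg star hve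
    rwa [star_mul, hes] at this
  have hvp : v * p = v := by
    calc v * p = v * e * p := by rw [hve]
      _ = v := by rw [mul_assoc, hep, hve]
  have hpsv : p * star v = star v := by
    have := congrArg star hvp
    rwa [star_mul, hps] at this
  have hsvsv : star v * star v = 0 := by
    have := congrArg star hvv
    rwa [star_mul, star_zero] at this
  set f := v * star v with hf
  have hfs : star f = f := by rw [hf, star_mul, star_star]
  have hff : f * f = f := by
    rw [hf, mul_assoc, ← mul_assoc (star v) v, hv1, he_sv]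
  have hfv : f * v = v := by rw [hf, mul_assoc, hv1, hve]
  have hsvf : star v * f = star v := by rw [hf, ← mul_assoc, hv1, he_sv]
  have hvf : v * f = 0 := by rw [hf, ← mul_assoc, hvv, zero_mul]
  have hfsv : f * star v = 0 := by rw [hf, mul_assoc, hsvsv, mul_zero]
  have hef : e * f = 0 := by rw [hf, ← mul_assoc, hev, zero_mul]
  have hfe : f * e = 0 := by rw [hf, mul_assoc, hsv_e, mul_zero]
  have hpf : p * f = f := by rw [hf, ← mul_assoc, hpv]
  have hfp : f * p = f := by rw [hf, mul_assoc, hsv_p]
  set u := v + star v + (p - e - f) with hu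
  have hus : IsSelfAdjoint u := by
    rw [IsSelfAdjoint, hu, star_add, star_add, star_star, star_sub, star_sub, hps, hes, hfs]
    abel
  have huu : u * u = p := by
    rw [hu]
    simp only [add_mul, mul_add, sub_mul, mul_sub, hvv, hvp, hve, hvf, hv1, hsvsv, hsv_p, hsv_e,
      hsvf, hpv, hpsv, hpp, hpe, hpf, hev, he_sv, hep, hee, hef, hfv, hfsv, hfp, hfe, hff, ← hf]
    abel
  have hpu : p * u = u := by
    rw [hu]
    simp only [mul_add, mul_sub, hpv, hpsv, hpp, hpe, hpf]
  have hup : u * p = u := by
    rw [hu]
    simp only [add_mul, sub_mul, hvp, hsv_p, hpp, hep, hfp]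
  have hueu : u * e * u = f := by
    have h3 : u * e = v := by
      rw [hu]
      simp only [add_mul, sub_mul, hve, hsv_e, hpe, hee, hfe]
      abel
    rw [h3, hu]
    simp only [mul_add, mul_sub, hvv, hvp, hve, hvf, ← hf]
    abel
  -- the average
  set k' := (1 / 2 : ℝ) • (k + u * k * u) with hk'
  have huku1 : u * k * u ≤ N • f := by
    have := conj_symm_le hus h1
    rwa [mul_smul_comm, smul_mul_assoc, hueu] at this
  have huku2 : -(N • p) ≤ u * k * u := by
    have := conj_symm_le hus h2
    rwa [mul_neg, neg_mul, mul_smul_comm, smul_mul_assoc, hup, huu] at this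
  have hefp : e + f ≤ p := by
    have h3 : IsStarProjection (p - e - f) := by
      refine ⟨?_, ?_⟩
      · change (p - e - f) * (p - e - f) = p - e - f
        simp only [sub_mul, mul_sub, hpp, hpe, hpf, hep, hee, hef, hfp, hfe, hff]
        abel
      · rw [IsSelfAdjoint, star_sub, star_sub, hps, hes, hfs]
    have h4 := proj_nonneg' h3
    have h5 : p - (e + f) = p - e - f := by abel
    exact sub_nonneg.1 (h5 ▸ h4)
  have hp0 : 0 ≤ p := proj_nonneg' hp
  have hp1 : p ≤ 1 := by
    have := proj_nonneg' hp.one_sub
    exact sub_nonneg.1 this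
  have hk'1 : k' ≤ (N / 2) • p := by
    have h3 : k + u * k * u ≤ N • p := by
      calc k + u * k * u ≤ N • e + N • f := add_le_add h1 huku1
        _ = N • (e + f) := by rw [smul_add]
        _ ≤ N • p := smul_le_smul_of_nonneg_left hefp hN0
    calc k' ≤ (1 / 2 : ℝ) • (N • p) := smul_le_smul_of_nonneg_left h3 (by norm_num)
      _ = (N / 2) • p := by rw [smul_smul]; congr 1; ring
  have hk'2 : -(N • p) ≤ k' := by
    have h3 : -(N • p) + -(N • p) ≤ k + u * k * u := add_le_add h2 huku2
    calc -(N • p) = (1 / 2 : ℝ) • (-(N • p) + -(N • p)) := by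
          rw [← two_smul ℝ (-(N • p)), smul_smul]; norm_num
      _ ≤ k' := smul_le_smul_of_nonneg_left h3 (by norm_num)
  have hkd : k - k' = (1 / 2 : ℝ) • (k - u * k * u) := by
    rw [hk']; module
  -- decomposition
  set a := (1 / 2 : ℝ) • (p + u) with ha
  set b := (1 / 2 : ℝ) • (p - u) with hb
  have hab : a * b = 0 := by
    rw [ha, hb, smul_mul_smul_comm, add_mul, mul_sub, mul_sub, hpp, hpu, hup, huu]
    simp
  have hba : b * a = 0 := by
    rw [ha, hb, smul_mul_smul_comm, sub_mul, mul_add p p u, mul_add u p u, hpp, hpu, hup, huu]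
    have : p + u - (u + p) = 0 := by abel
    rw [this, smul_zero]
  have hpa : p * a = a := by rw [ha, mul_smul_comm, mul_add, hpp, hpu]
  have hpb : p * b = b := by rw [hb, mul_smul_comm, mul_sub, hpp, hpu]
  have hap : a * p = a := by rw [ha, smul_mul_assoc, add_mul, hpp, hup]
  have hbp : b * p = b := by rw [hb, smul_mul_assoc, sub_mul, hpp, hup]
  have has : star a = a := by rw [ha, star_smul, star_add, hps, hus.star_eq, star_trivial]
  have hbs : star b = b := by rw [hb, star_smul, star_sub, hps, hus.star_eq, star_trivial]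
  have hpkp1 : p * k = k := by
    rw [← hpk]; simp only [← mul_assoc, hpp]
  have hpkp2 : k * p = k := by
    rw [← hpk]; simp only [mul_assoc, hpp]
  have hdec : (1 / 2 : ℝ) • (k - u * k * u) = a * k * b + b * k * a := by
    rw [ha, hb]
    simp only [smul_mul_assoc, mul_smul_comm, add_mul, sub_mul, mul_add, mul_sub, hpkp1, hpkp2,
      smul_smul]
    module
  have hmem : k - k' ∈ W0 p := by
    rw [hkd, hdec]
    apply Submodule.mem_sup_left
    refine ⟨?_, ?_⟩
    · change a * k * b + b * k * a ∈ N0 p
      apply Submodule.add_mem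
      · apply Submodule.subset_span
        refine ⟨?_, ?_⟩
        · rw [← mul_assoc, ← mul_assoc, hpa, mul_assoc (a * k) b p, hbp]
        · calc a * k * b * (a * k * b) = a * k * (b * a) * (k * b) := by simp only [mul_assoc]
            _ = 0 := by rw [hba, mul_zero, zero_mul]
      · apply Submodule.subset_span
        refine ⟨?_, ?_⟩
        · rw [← mul_assoc, ← mul_assoc, hpb, mul_assoc (b * k) a p, hap]
        · calc b * k * a * (b * k * a) = b * k * (a * b) * (k * a) := by simp only [mul_assoc]
            _ = 0 := by rw [hab, mul_zero, zero_mul]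
    · change IsSelfAdjoint (a * k * b + b * k * a)
      rw [IsSelfAdjoint, star_add, star_mul, star_mul, star_mul, star_mul, has, hbs, hk.star_eq,
        ← mul_assoc, ← mul_assoc]
      abel
  have hpW : p ∈ W0 p := Submodule.mem_sup_right (Submodule.mem_span_singleton_self p)
  refine ⟨(k - k') - (N / 4) • p, Submodule.sub_mem _ hmem (Submodule.smul_mem _ _ hpW), ?_⟩
  have e1 : k - ((k - k') - (N / 4) • p) = k' + (N / 4) • p := by abel
  rw [e1]
  have hk's : IsSelfAdjoint k' := by
    rw [hk', IsSelfAdjoint, star_smul, star_add, star_mul, star_mul, hus.star_eq, hk.star_eq,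
      star_trivial, mul_assoc]
  apply norm_le_of_le
  · apply hk's.add
    rw [IsSelfAdjoint, star_smul, hps, star_trivial]
  · positivity
  · rw [Algebra.algebraMap_eq_smul_one]
    calc k' + (N / 4) • p ≤ (N / 2) • p + (N / 4) • p := add_le_add_left hk'1 _
      _ = (3 / 4 * N) • p := by rw [← add_smul]; congr 1; ring
      _ ≤ (3 / 4 * N) • 1 := smul_le_smul_of_nonneg_left hp1 (by positivity)
  · rw [Algebra.algebraMap_eq_smul_one]
    calc -((3 / 4 * N) • (1 : A)) ≤ -((3 / 4 * N) • p) :=
          neg_le_neg (smul_le_smul_of_nonneg_left hp1 (by positivity))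
      _ = -(N • p) + (N / 4) • p := by module
      _ ≤ k' + (N / 4) • p := add_le_add_left hk'2 _

theorem avg_exists (hA : VL A) {p k : A} (hp : IsStarProjection p)
    (hk : IsSelfAdjoint k) (hpk : p * k * p = k) :
    ∃ w ∈ W0 p, ‖k - w‖ ≤ 3 / 4 * ‖k‖ := by
  have hpp : p * p = p := hp.isIdempotentElem.eq
  have hps : star p = p := hp.isSelfAdjoint.star_eq
  have hpkp1 : p * k = k := by
    rw [← hpk]; simp only [← mul_assoc, hpp]
  have hpkp2 : k * p = k := by
    rw [← hpk]; simp only [mul_assoc, hpp]
  obtain ⟨e0, he0, he1, he2, he3⟩ := hA.sp k hk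
  have hc0 : Commute e0 k := (he3 k (Commute.refl k)).symm
  have hcp : Commute p e0 := he3 p (by rw [commute_iff_eq, hpkp1, hpkp2])
  set e := e0 * p with he
  have hes : star e = e := by rw [he, star_mul, hps, he0.isSelfAdjoint.star_eq, hcp.eq]
  have hee : e * e = e := by
    rw [he, mul_assoc, ← mul_assoc p e0 p, hcp.eq, mul_assoc, hpp, ← mul_assoc,
      he0.isIdempotentElem.eq]
  have hep : IsStarProjection e := ⟨hee, hes⟩
  have hpe : p * e = e := by rw [he, ← mul_assoc, hcp.eq, mul_assoc, hpp]
  have hep' : e * p = e := by rw [he, mul_assoc, hpp]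
  have hke : k * e = k * e0 := by rw [he, ← hcp.eq, ← mul_assoc, hpkp2]
  have hkq : k * (p - e) = k * (1 - e0) := by rw [mul_sub, hpkp2, hke, mul_sub, mul_one]
  have hcomm_e : Commute e k := by
    rw [commute_iff_eq, hke, he, mul_assoc, hpkp1, hc0.eq]
  set q := p - e with hq
  have hqp : IsStarProjection q := by
    refine ⟨?_, hp.isSelfAdjoint.sub hep.isSelfAdjoint⟩
    change (p - e) * (p - e) = p - e
    rw [sub_mul, mul_sub, mul_sub, hpp, hpe, hep', hee]; abel
  have hcomm_q : Commute q k := by
    have : Commute p k := by rw [commute_iff_eq, hpkp1, hpkp2]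
    exact this.sub_left hcomm_e
  set N := ‖k‖ with hN
  have hN0 : 0 ≤ N := norm_nonneg k
  have hup : k ≤ algebraMap ℝ A N := hk.le_algebraMap_norm_self
  have hlo : -k ≤ algebraMap ℝ A N := neg_le.1 hk.neg_algebraMap_norm_le_self
  have hpc : Commute p k := by rw [commute_iff_eq, hpkp1, hpkp2]
  have b1 : k ≤ N • p := by
    have := mul_proj_le hp hpc hup
    rwa [hpkp2] at this
  have b2 : -(N • p) ≤ k := by
    have := mul_proj_le hp hpc.neg_right hlo
    rw [neg_mul, hpkp2] at this
    exact neg_le.1 this
  have c1 : k * e ≤ N • e := mul_proj_le hep hcomm_e hup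
  have c2 : -(k * q) ≤ N • q := by
    have := mul_proj_le hqp hcomm_q.neg_right hlo
    rwa [neg_mul] at this
  have d1 : 0 ≤ k * e := by rw [hke]; exact he1
  have d2 : k * q ≤ 0 := by rw [hkq]; exact he2
  have hsplit : k = k * e + k * q := by rw [hq, mul_sub, hpkp2]; abel
  have g1 : k ≤ N • e := by
    calc k = k * e + k * q := hsplit
      _ ≤ N • e + 0 := add_le_add c1 d2
      _ = N • e := add_zero _
  have g2 : -k ≤ N • q := by
    calc -k = -(k * q) - k * e := by conv_lhs => rw [hsplit]
                                     abel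
      _ ≤ N • q - 0 := sub_le_sub c2 d1
      _ = N • q := sub_zero _
  obtain ⟨v, hv | hv⟩ := hA.ct e q hep hqp
  · exact avg_step hp hep hpe hk hpk hN0 g1 b2 hv.1 hv.2
  · have hpq : p * q = q := by rw [hq, mul_sub, hpp, hpe]
    have hpq' : p - q = e := by rw [hq]; abel
    have h3 : -(N • p) ≤ -k := neg_le_neg b1
    have hev : e * star v = star v := by
      have := congrArg star hv.2
      rwa [star_mul, hes] at this
    obtain ⟨w, hw, hwn⟩ := avg_step (v := star v) hp hqp hpq hk.neg
      (by rw [mul_neg, neg_mul, hpk]) hN0 g2 h3 (by rw [star_star]; exact hv.1)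
      (by rw [hpq']; exact hev)
    refine ⟨-w, Submodule.neg_mem _ hw, ?_⟩
    have : k - -w = -(-k - w) := by abel
    rw [this, norm_neg]
    exact hwn

theorem W0_corner {p w : A} (hp : IsStarProjection p) (hw : w ∈ W0 p) :
    IsSelfAdjoint w ∧ p * w * p = w := by
  have hpp : p * p = p := hp.isIdempotentElem.eq
  obtain ⟨a, ha, b, hb, rfl⟩ := Submodule.mem_sup.1 hw
  obtain ⟨c, rfl⟩ := Submodule.mem_span_singleton.1 hb
  refine ⟨?_, ?_⟩
  · have h1 : IsSelfAdjoint a := ha.2
    apply h1.add
    rw [IsSelfAdjoint, star_smul, hp.isSelfAdjoint.star_eq, star_trivial]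
  · rw [mul_add, add_mul, N0_corner (show a ∈ N0 p from ha.1), mul_smul_comm, smul_mul_assoc, hpp,
      hpp]

/-- Trace-zero elements of a corner are limits of sums of square-zero elements. -/
theorem corner_of_VL (hA : VL A) {τ : A →ₗ[ℂ] ℂ} (hτ : Tr τ)
    (hfaith : ∀ x, τ (star x * x) = 0 → x = 0) (p : A)
    (hp : IsStarProjection p) (x : A) (hx : p * x * p = x) (hx0 : τ x = 0) :
    x ∈ closure (Submodule.span ℂ {a : A | p * a * p = a ∧ a * a = 0} : Set A) := by
  have hpp : p * p = p := hp.isIdempotentElem.eq
  have hps : star p = p := hp.isSelfAdjoint.star_eq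
  by_cases hp0 : τ p = 0
  · have : p = 0 := hfaith p (by rw [hps, hpp, hp0])
    rw [this] at hx
    rw [← hx]
    simp only [zero_mul]
    exact subset_closure (Submodule.zero_mem _)
  have hnil : ∀ a ∈ N0 p, τ a = 0 := by
    intro a ha
    induction ha using Submodule.span_induction with
    | mem x hx =>
      have h1 : spectralRadius ℂ x ≤ ENNReal.ofReal ‖(0 : ℂ)‖ := by
        apply specrad_le
        simp only [zero_smul, sub_zero, hx.2, mul_zero]
      rw [norm_zero] at h1
      have h2 := hτ.pow_le x 0 le_rfl h1 1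
      simp only [pow_one] at h2
      exact norm_le_zero_iff.1 h2
    | zero => simp
    | add x y _ _ hx hy => rw [map_add, hx, hy, add_zero]
    | smul a x _ hx => rw [map_smul, hx, smul_zero]
  -- selfadjoint case
  have hsa : ∀ k, IsSelfAdjoint k → p * k * p = k → τ k = 0 → k ∈ closure (N0 p : Set A) := by
    intro k hk hpk hk0
    have h1 : k ∈ closure (W0 p : Set A) := by
      refine contr (V := {k | IsSelfAdjoint k ∧ p * k * p = k}) (c := 3 / 4) (by norm_num)
        (by norm_num) ?_ ?_ k ⟨hk, hpk⟩
      · rintro k ⟨hk1, hk2⟩ w hw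
        have := W0_corner hp hw
        exact ⟨hk1.sub this.1, by rw [mul_sub, sub_mul, hk2, this.2]⟩
      · rintro k ⟨hk1, hk2⟩
        exact avg_exists hA hp hk1 hk2
    let φ : A → A := fun y => y - (τ y / τ p) • p
    have hφ : Continuous φ := by
      have := hτ.continuous
      exact continuous_id.sub ((this.div_const _).smul continuous_const)
    have hφk : φ k = k := by simp [φ, hk0]
    have hφW : Set.MapsTo φ (W0 p : Set A) (N0 p : Set A) := by
      intro w hw
      obtain ⟨a, ha, b, hb, rfl⟩ := Submodule.mem_sup.1 hw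
      obtain ⟨c, rfl⟩ := Submodule.mem_span_singleton.1 hb
      have ha' : a ∈ N0 p := ha.1
      have h2 : τ (a + c • p) = (c : ℂ) * τ p := by
        rw [map_add, hnil a ha', zero_add]
        have : c • p = (c : ℂ) • p := (Complex.coe_smul c p).symm
        rw [this, map_smul, smul_eq_mul]
      have h3 : φ (a + c • p) = a := by
        simp only [φ]
        rw [h2, mul_div_cancel_right₀ _ hp0]
        have : c • p = (c : ℂ) • p := (Complex.coe_smul c p).symm
        rw [this]; abel
      rw [h3]
      exact ha'
    have h4 := map_mem_closure hφ h1 hφW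
    rwa [hφk] at h4
  have hre : p * (star x) * p = star x := by
    have := congrArg star hx
    rwa [star_mul, star_mul, hps, ← mul_assoc] at this
  have h1 := realPart_add_I_smul_imaginaryPart x
  have ha : IsSelfAdjoint ((realPart x : selfAdjoint A) : A) := (realPart x).2
  have hb : IsSelfAdjoint ((imaginaryPart x : selfAdjoint A) : A) := (imaginaryPart x).2
  have hra : ((realPart x : selfAdjoint A) : A) = (1 / 2 : ℝ) • (x + star x) := by
    rw [realPart_apply_coe]; norm_num
  have hstar0 : τ (star x) = 0 := by rw [hτ.map_star, hx0, star_zero]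
  have pa : p * ((realPart x : selfAdjoint A) : A) * p = ((realPart x : selfAdjoint A) : A) := by
    rw [hra, mul_smul_comm, smul_mul_assoc, mul_add, add_mul, hx, hre]
  have ta : τ ((realPart x : selfAdjoint A) : A) = 0 := by
    rw [hra, ← Complex.coe_smul, map_smul, map_add, hx0, hstar0, add_zero, smul_zero]
  have hib : Complex.I • ((imaginaryPart x : selfAdjoint A) : A) =
      x - ((realPart x : selfAdjoint A) : A) := by
    rw [eq_sub_iff_add_eq, add_comm]; exact h1
  have hib' : ((imaginaryPart x : selfAdjoint A) : A) =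
      (-Complex.I) • (x - ((realPart x : selfAdjoint A) : A)) := by
    rw [← hib, smul_smul, neg_mul, Complex.I_mul_I, neg_neg, one_smul]
  have pb : p * ((imaginaryPart x : selfAdjoint A) : A) * p =
      ((imaginaryPart x : selfAdjoint A) : A) := by
    rw [hib', mul_smul_comm, smul_mul_assoc, mul_sub, sub_mul, hx, pa]
  have tb : τ ((imaginaryPart x : selfAdjoint A) : A) = 0 := by
    rw [hib', map_smul, map_sub, hx0, ta, sub_zero, smul_zero]
  have c1 := hsa _ ha pa ta
  have c2 := hsa _ hb pb tb
  have hcl : (N0 p).topologicalClosure = (N0 p).topologicalClosure := rfl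
  have m1 : ((realPart x : selfAdjoint A) : A) ∈ (N0 p).topologicalClosure := c1
  have m2 : ((imaginaryPart x : selfAdjoint A) : A) ∈ (N0 p).topologicalClosure := c2
  have m3 : x ∈ (N0 p).topologicalClosure := by
    rw [← h1]
    exact Submodule.add_mem _ m1 (Submodule.smul_mem _ _ m2)
  exact m3

end Pool.Agent.H27C
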