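import Mathlib

namespace Pool.Agent.H27C

open Filter Topology

variable {H : Type*} [NormedAddCommGroup H] [InnerProductSpace ℂ H] [CompleteSpace H]

theorem mem_of_comm (M : VonNeumannAlgebra H) (x : H →L[ℂ] H)
    (h : ∀ y ∈ M.commutant, y * x = x * y) : x ∈ M := by
  rw [← VonNeumannAlgebra.commutant_commutant M]
  exact VonNeumannAlgebra.mem_commutant_iff.2 h

theorem comm_of_mem (M : VonNeumannAlgebra H) {x y : H →L[ℂ] H} (hx : x ∈ M)
    (hy : y ∈ M.commutant) : x * y = y * x :=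
  VonNeumannAlgebra.mem_commutant_iff.1 hy x hx

theorem proj_mem (M : VonNeumannAlgebra H) (K : Submodule ℂ H) [K.HasOrthogonalProjection]
    (h : ∀ y ∈ M.commutant, ∀ ξ ∈ K, y ξ ∈ K) : K.starProjection ∈ M := by
  rw [VonNeumannAlgebra.IsStarProjection.mem_iff (isStarProjection_starProjection)]
  intro y hy
  rw [Submodule.range_starProjection]
  intro ξ hξ
  exact h y hy ξ hξ

theorem apply_mul (x y : H →L[ℂ] H) (ξ : H) : (x * y) ξ = x (y ξ) := rfl

/-- In a factor, `q x p` does not vanish identically for nonzero `p`, `q`. -/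
theorem keyA (M : VonNeumannAlgebra H)
    (hfac : ∀ z ∈ M, (∀ x ∈ M, z * x = x * z) → ∃ c : ℂ, z = algebraMap ℂ (H →L[ℂ] H) c)
    (p q : H →L[ℂ] H) (hpM : p ∈ M) (hp : p ≠ 0) (hq : q ≠ 0) :
    ∃ x ∈ M, q * x * p ≠ 0 := by
  by_contra hcon
  push Not at hcon
  set S : Set H := {ζ | ∃ x ∈ M, ∃ ξ, ζ = x (p ξ)} with hS
  set K : Submodule ℂ H := (Submodule.span ℂ S).topologicalClosure with hK
  have hKcl : IsClosed (K : Set H) := Submodule.isClosed_topologicalClosure _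
  haveI : CompleteSpace K := hKcl.completeSpace_coe
  have hinv : ∀ y : H →L[ℂ] H, (∀ ζ ∈ S, y ζ ∈ S) → ∀ ξ ∈ K, y ξ ∈ K := by
    intro y hy ξ hξ
    have h1 : Submodule.span ℂ S ≤ (K.comap (y : H →ₗ[ℂ] H)) := by
      apply Submodule.span_le.2
      intro ζ hζ
      exact Submodule.le_topologicalClosure _ (Submodule.subset_span (hy ζ hζ))
    have h2 : IsClosed ((K.comap (y : H →ₗ[ℂ] H) : Submodule ℂ H) : Set H) :=
      hKcl.preimage y.continuous
    exact Submodule.topologicalClosure_minimal _ h1 h2 hξ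
  have hM : K.starProjection ∈ M := by
    apply proj_mem
    intro y hy
    apply hinv
    rintro ζ ⟨x, hx, ξ, rfl⟩
    refine ⟨x, hx, y ξ, ?_⟩
    have h1 : y * x = x * y := (comm_of_mem M hx hy).symm
    have h2 : y * p = p * y := (comm_of_mem M hpM hy).symm
    calc y (x (p ξ)) = (y * x) (p ξ) := rfl
      _ = x ((y * p) ξ) := by rw [h1]; rfl
      _ = x (p (y ξ)) := by rw [h2]; rfl
  have hM' : K.starProjection ∈ M.commutant := by
    apply proj_mem
    intro y hy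
    rw [VonNeumannAlgebra.commutant_commutant] at hy
    apply hinv
    rintro ζ ⟨x, hx, ξ, rfl⟩
    exact ⟨y * x, mul_mem hy hx, ξ, rfl⟩
  obtain ⟨c, hc⟩ := hfac _ hM (fun x hx => (comm_of_mem M hx hM').symm)
  have hp' : ∃ ξ, p ξ ≠ 0 := by
    by_contra h
    push Not at h
    exact hp (ContinuousLinearMap.ext h)
  obtain ⟨ξ, hξ⟩ := hp'
  have hpξ : p ξ ∈ K := Submodule.le_topologicalClosure _ (Submodule.subset_span
    ⟨1, one_mem M, ξ, rfl⟩)
  have h1 : K.starProjection (p ξ) = p ξ := K.starProjection_eq_self_iff.2 hpξ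
  have hc1 : c = 1 := by
    rw [hc] at h1
    have h2 : c • p ξ = p ξ := by
      rw [Algebra.algebraMap_eq_smul_one] at h1
      simpa using h1
    have h3 : (c - 1) • p ξ = 0 := by rw [sub_smul, h2, one_smul, sub_self]
    exact sub_eq_zero.1 ((smul_eq_zero.1 h3).resolve_right hξ)
  have hKtop : ∀ ζ : H, ζ ∈ K := by
    intro ζ
    have : K.starProjection ζ = ζ := by
      rw [hc, hc1, map_one]; rfl
    exact K.starProjection_eq_self_iff.1 this
  apply hq
  ext ζ
  have h4 : Submodule.span ℂ S ≤ LinearMap.ker (q : H →ₗ[ℂ] H) := by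
    apply Submodule.span_le.2
    rintro ζ ⟨x, hx, ξ, rfl⟩
    have := hcon x hx
    change q (x (p ξ)) = 0
    calc q (x (p ξ)) = (q * x * p) ξ := rfl
      _ = 0 := by rw [this]; rfl
  have h5 : IsClosed ((LinearMap.ker (q : H →ₗ[ℂ] H) : Submodule ℂ H) : Set H) :=
    q.isClosed_ker
  exact Submodule.topologicalClosure_minimal _ h4 h5 (hKtop ζ)

section sum

variable {S : Set (H →L[ℂ] H)}

/-- pairwise orthogonal family of partial isometries -/
structure OrthFam (M : VonNeumannAlgebra H) (S : Set (H →L[ℂ] H)) : Prop where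
  mem : ∀ v ∈ S, v ∈ M
  iso : ∀ v ∈ S, v * star v * v = v
  orth : ∀ v ∈ S, ∀ w ∈ S, v ≠ w → star v * w = 0 ∧ v * star w = 0

theorem star_mul_self_proj {v : H →L[ℂ] H} (h : v * star v * v = v) :
    IsStarProjection (star v * v) := by
  refine ⟨?_, IsSelfAdjoint.star_mul_self v⟩
  change star v * v * (star v * v) = star v * v
  rw [mul_assoc, ← mul_assoc v, h]

theorem norm_le_one_of_iso {v : H →L[ℂ] H} (h : v * star v * v = v) : ‖v‖ ≤ 1 := by
  have h1 := star_mul_self_proj h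
  have h2 : ‖star v * v‖ * ‖star v * v‖ = ‖star v * v‖ := by
    have := CStarRing.norm_star_mul_self (x := star v * v)
    rw [h1.isSelfAdjoint.star_eq, h1.isIdempotentElem.eq] at this
    exact this.symm
  have h3 : ‖star v * v‖ ≤ 1 := by
    by_contra hlt
    push Not at hlt
    nlinarith
  rw [CStarRing.norm_star_mul_self] at h3
  nlinarith [norm_nonneg v]

theorem OrthFam.finset_iso {M : VonNeumannAlgebra H} (hS : OrthFam M S) (t : Finset S) :
    (∑ v ∈ t, (v : H →L[ℂ] H)) * star (∑ v ∈ t, (v : H →L[ℂ] H)) * (∑ v ∈ t, (v : H →L[ℂ] H)) =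
      ∑ v ∈ t, (v : H →L[ℂ] H) := by
  classical
  have h1 : star (∑ v ∈ t, (v : H →L[ℂ] H)) * (∑ v ∈ t, (v : H →L[ℂ] H)) =
      ∑ v ∈ t, star (v : H →L[ℂ] H) * (v : H →L[ℂ] H) := by
    rw [star_sum, Finset.sum_mul]
    refine Finset.sum_congr rfl (fun v hv => ?_)
    rw [Finset.mul_sum, Finset.sum_eq_single v]
    · intro w _ hwv
      exact (hS.orth v v.2 w w.2 (fun h => hwv (Subtype.ext h.symm))).1
    · intro h; exact absurd hv h
  rw [mul_assoc, h1, Finset.sum_mul]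
  refine Finset.sum_congr rfl (fun v hv => ?_)
  rw [Finset.mul_sum, Finset.sum_eq_single v]
  · rw [← mul_assoc]; exact hS.iso v v.2
  · intro w _ hwv
    rw [← mul_assoc, (hS.orth v v.2 w w.2 (fun h => hwv (Subtype.ext h.symm))).2, zero_mul]
  · intro h; exact absurd hv h

theorem OrthFam.finset_norm_le {M : VonNeumannAlgebra H} (hS : OrthFam M S) (t : Finset S)
    (ξ : H) : ‖∑ v ∈ t, (v : H →L[ℂ] H) ξ‖ ≤ ‖ξ‖ := by
  have h1 := norm_le_one_of_iso (hS.finset_iso t)
  have h2 : ∑ v ∈ t, (v : H →L[ℂ] H) ξ = (∑ v ∈ t, (v : H →L[ℂ] H)) ξ := by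
    simp [ContinuousLinearMap.sum_apply]
  rw [h2]
  calc _ ≤ ‖∑ v ∈ t, (v : H →L[ℂ] H)‖ * ‖ξ‖ := ContinuousLinearMap.le_opNorm _ _
    _ ≤ 1 * ‖ξ‖ := mul_le_mul_of_nonneg_right h1 (norm_nonneg _)
    _ = ‖ξ‖ := one_mul _

theorem OrthFam.inner_eq_zero {M : VonNeumannAlgebra H} (hS : OrthFam M S) {v w : H →L[ℂ] H}
    (hv : v ∈ S) (hw : w ∈ S) (h : v ≠ w) (ξ η : H) : inner ℂ (v ξ) (w η) = 0 := by
  have h1 := (hS.orth v hv w hw h).1
  have h2 : inner ℂ (v ξ) (w η) = inner ℂ ξ ((star v * w) η) := by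
    rw [apply_mul, ContinuousLinearMap.star_eq_adjoint, ContinuousLinearMap.adjoint_inner_right]
  rw [h2, h1]
  simp

theorem OrthFam.summable {M : VonNeumannAlgebra H} (hS : OrthFam M S) (ξ : H) :
    Summable (fun v : S => (v : H →L[ℂ] H) ξ) := by
  have hV : OrthogonalFamily ℂ (fun v : S => (LinearMap.range ((v : H →L[ℂ] H) : H →ₗ[ℂ] H)))
      (fun v => (LinearMap.range ((v : H →L[ℂ] H) : H →ₗ[ℂ] H)).subtypeₗᵢ) := by
    intro v w hvw
    rintro ⟨_, a, rfl⟩ ⟨_, b, rfl⟩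
    exact hS.inner_eq_zero v.2 w.2 (fun h => hvw (Subtype.ext h)) a b
  have h1 := hV.summable_iff_norm_sq_summable (fun v => ⟨(v : H →L[ℂ] H) ξ, ⟨ξ, rfl⟩⟩)
  apply h1.2
  apply summable_of_sum_le (c := ‖ξ‖ ^ 2)
  · intro v; positivity
  · intro t
    have h2 := hV.norm_sum (fun v => ⟨(v : H →L[ℂ] H) ξ, ⟨ξ, rfl⟩⟩) t
    rw [← h2]
    have h3 := hS.finset_norm_le t ξ
    have h4 : ‖∑ i ∈ t, (LinearMap.range (((i : S) : H →L[ℂ] H) : H →ₗ[ℂ] H)).subtypeₗᵢ
        ⟨(i : H →L[ℂ] H) ξ, ⟨ξ, rfl⟩⟩‖ = ‖∑ v ∈ t, (v : H →L[ℂ] H) ξ‖ := rfl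
    rw [h4]
    exact pow_le_pow_left₀ (norm_nonneg _) h3 2

/-- The strong sum of an orthogonal family. -/
noncomputable def OrthFam.sum {M : VonNeumannAlgebra H} (hS : OrthFam M S) : H →L[ℂ] H :=
  LinearMap.mkContinuous
    { toFun := fun ξ => ∑' v : S, (v : H →L[ℂ] H) ξ
      map_add' := fun ξ η => by
        simp only [map_add]
        exact (hS.summable ξ).tsum_add (hS.summable η)
      map_smul' := fun c ξ => by
        simp only [map_smul, RingHom.id_apply]
        exact (hS.summable ξ).tsum_const_smul c } 1 (by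
    intro ξ
    rw [one_mul]
    exact le_of_tendsto ((hS.summable ξ).hasSum.norm) (Filter.Eventually.of_forall
      (fun t => hS.finset_norm_le t ξ)))

theorem OrthFam.sum_apply {M : VonNeumannAlgebra H} (hS : OrthFam M S) (ξ : H) :
    hS.sum ξ = ∑' v : S, (v : H →L[ℂ] H) ξ := rfl

theorem OrthFam.mul_sum_apply {M : VonNeumannAlgebra H} (hS : OrthFam M S) (a : H →L[ℂ] H)
    (ξ : H) : (a * hS.sum) ξ = ∑' v : S, a ((v : H →L[ℂ] H) ξ) := by
  rw [apply_mul, hS.sum_apply, a.map_tsum (hS.summable ξ)]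

theorem OrthFam.sum_mem {M : VonNeumannAlgebra H} (hS : OrthFam M S) : hS.sum ∈ M := by
  apply mem_of_comm
  intro y hy
  ext ξ
  rw [hS.mul_sum_apply, apply_mul, hS.sum_apply]
  congr 1
  ext v
  have := comm_of_mem M (hS.mem v v.2) hy
  calc y ((v : H →L[ℂ] H) ξ) = (y * (v : H →L[ℂ] H)) ξ := rfl
    _ = _ := by rw [← this]; rfl

theorem OrthFam.mul_sum_eq_zero {M : VonNeumannAlgebra H} (hS : OrthFam M S) (a : H →L[ℂ] H)
    (h : ∀ v ∈ S, a * v = 0) : a * hS.sum = 0 := by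
  ext ξ
  rw [hS.mul_sum_apply]
  have : ∀ v : S, a ((v : H →L[ℂ] H) ξ) = 0 := by
    intro v
    calc a ((v : H →L[ℂ] H) ξ) = (a * (v : H →L[ℂ] H)) ξ := rfl
      _ = 0 := by rw [h v v.2]; rfl
  simp [this]

theorem OrthFam.sum_mul_eq_zero {M : VonNeumannAlgebra H} (hS : OrthFam M S) (a : H →L[ℂ] H)
    (h : ∀ v ∈ S, v * a = 0) : hS.sum * a = 0 := by
  ext ξ
  rw [apply_mul, hS.sum_apply]
  have : ∀ v : S, (v : H →L[ℂ] H) (a ξ) = 0 := by
    intro v
    calc (v : H →L[ℂ] H) (a ξ) = ((v : H →L[ℂ] H) * a) ξ := rfl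
      _ = 0 := by rw [h v v.2]; rfl
  simp [this]

theorem OrthFam.sum_mul_init {M : VonNeumannAlgebra H} (hS : OrthFam M S) {v : H →L[ℂ] H}
    (hv : v ∈ S) : hS.sum * (star v * v) = v := by
  ext ξ
  rw [apply_mul, hS.sum_apply, tsum_eq_single (⟨v, hv⟩ : S)]
  · change v ((star v * v) ξ) = v ξ
    calc v ((star v * v) ξ) = (v * star v * v) ξ := rfl
      _ = v ξ := by rw [hS.iso v hv]
  · intro w hw
    have h1 : (w : H →L[ℂ] H) * star v = 0 :=
      (hS.orth w w.2 v hv (fun h => hw (Subtype.ext h))).2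
    calc (w : H →L[ℂ] H) ((star v * v) ξ) = ((w : H →L[ℂ] H) * star v) (v ξ) := rfl
      _ = 0 := by rw [h1]; rfl

theorem OrthFam.final_mul_sum {M : VonNeumannAlgebra H} (hS : OrthFam M S) {v : H →L[ℂ] H}
    (hv : v ∈ S) : v * star v * hS.sum = v := by
  ext ξ
  rw [hS.mul_sum_apply, tsum_eq_single (⟨v, hv⟩ : S)]
  · calc (v * star v) (v ξ) = (v * star v * v) ξ := rfl
      _ = v ξ := by rw [hS.iso v hv]
  · intro w hw
    have h1 : star v * (w : H →L[ℂ] H) = 0 :=
      (hS.orth v hv w w.2 (fun h => hw (Subtype.ext h.symm))).1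
    calc (v * star v) ((w : H →L[ℂ] H) ξ) = v ((star v * (w : H →L[ℂ] H)) ξ) := rfl
      _ = 0 := by rw [h1]; simp

theorem OrthFam.star_sum_mul {M : VonNeumannAlgebra H} (hS : OrthFam M S) {v : H →L[ℂ] H}
    (hv : v ∈ S) : star hS.sum * v = star v * v := by
  have h1 := congrArg star (hS.final_mul_sum hv)
  rw [star_mul, star_mul, star_star] at h1
  calc star hS.sum * v = star hS.sum * (v * star v * v) := by rw [hS.iso v hv]
    _ = (star hS.sum * (v * star v)) * v := by simp only [mul_assoc]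
    _ = star v * v := by rw [h1]

theorem OrthFam.sum_mul_star {M : VonNeumannAlgebra H} (hS : OrthFam M S) {v : H →L[ℂ] H}
    (hv : v ∈ S) : hS.sum * star v = v * star v := by
  have h2 : star v * v * star v = star v := by
    have := congrArg star (hS.iso v hv)
    rwa [star_mul, star_mul, star_star, ← mul_assoc] at this
  calc hS.sum * star v = hS.sum * (star v * v * star v) := by rw [h2]
    _ = (hS.sum * (star v * v)) * star v := by simp only [mul_assoc]
    _ = v * star v := by rw [hS.sum_mul_init hv]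

theorem OrthFam.sum_iso {M : VonNeumannAlgebra H} (hS : OrthFam M S) :
    hS.sum * star hS.sum * hS.sum = hS.sum := by
  have h : (hS.sum * star hS.sum - 1) * hS.sum = 0 := by
    apply hS.mul_sum_eq_zero
    intro v hv
    rw [sub_mul, one_mul, mul_assoc, hS.star_sum_mul hv, hS.sum_mul_init hv, sub_self]
  rw [sub_mul, one_mul, sub_eq_zero] at h
  exact h

end sum

end Pool.Agent.H27C
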