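import Mathlib
import Pool.Agent.H27C.VN1

namespace Pool.Agent.H27C

open Filter Topology

variable {H : Type*} [NormedAddCommGroup H] [InnerProductSpace ℂ H] [CompleteSpace H]

theorem norm_sq_eq_inner (x : H →L[ℂ] H) (ξ : H) :
    ((‖x ξ‖ ^ 2 : ℝ) : ℂ) = inner ℂ ((star x * x) ξ) ξ := by
  rw [apply_mul, ContinuousLinearMap.star_eq_adjoint, ContinuousLinearMap.adjoint_inner_left,
    inner_self_eq_norm_sq_to_K]
  norm_cast

theorem norm_eq_of_star_mul_eq {x y : H →L[ℂ] H} (h : star x * x = star y * y) (ξ : H) :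
    ‖x ξ‖ = ‖y ξ‖ := by
  have h1 := norm_sq_eq_inner x ξ
  have h2 := norm_sq_eq_inner y ξ
  rw [h, ← h2] at h1
  have h3 : ‖x ξ‖ ^ 2 = ‖y ξ‖ ^ 2 := by exact_mod_cast h1
  exact (pow_left_inj₀ (norm_nonneg _) (norm_nonneg _) two_ne_zero).1 h3

/-- Polar decomposition inside a von Neumann algebra. -/
theorem polar (M : VonNeumannAlgebra H) (x : H →L[ℂ] H) (hx : x ∈ M) :
    ∃ v ∈ M, v * star v * v = v ∧ (∀ a, x * a = 0 → v * a = 0) ∧ (∀ a, v * a = 0 → x * a = 0) ∧
      (∀ a, a * x = 0 → a * v = 0) := by
  set h := CFC.abs x with hh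
  have hhh : h * h = star x * x := CFC.abs_mul_abs x
  have hhs : star h = h := (IsSelfAdjoint.of_nonneg (CFC.abs_nonneg x)).star_eq
  have hcomm : ∀ y ∈ M.commutant, y * h = h * y := by
    intro y hy
    have h1 : Commute x y := comm_of_mem M hx hy
    have h2 : Commute x (star y) := comm_of_mem M hx (star_mem hy)
    exact (Commute.cfcAbs_left h1 h2).symm.eq
  have hnorm : ∀ ξ, ‖h ξ‖ = ‖x ξ‖ := norm_eq_of_star_mul_eq (by rw [hhs, hhh])
  set K : Submodule ℂ H := (LinearMap.range (h : H →ₗ[ℂ] H)).topologicalClosure with hK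
  have hKcl : IsClosed (K : Set H) := Submodule.isClosed_topologicalClosure _
  haveI : CompleteSpace K := hKcl.completeSpace_coe
  have hmemK : ∀ ξ, h ξ ∈ K := fun ξ => Submodule.le_topologicalClosure _ ⟨ξ, rfl⟩
  let e : H →ₗ[ℂ] K := LinearMap.codRestrict K (h : H →ₗ[ℂ] H) hmemK
  have hdense : DenseRange e := by
    intro k
    rw [Metric.mem_closure_iff]
    intro ε hε
    have hk : (k : H) ∈ closure ((LinearMap.range (h : H →ₗ[ℂ] H) : Submodule ℂ H) : Set H) := k.2
    obtain ⟨b, hb, hbd⟩ := Metric.mem_closure_iff.1 hk ε hε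
    obtain ⟨ξ, rfl⟩ := hb
    exact ⟨e ξ, ⟨ξ, rfl⟩, hbd⟩
  have hbound : ∀ ξ, ‖(x : H →ₗ[ℂ] H) ξ‖ ≤ 1 * ‖e ξ‖ := by
    intro ξ
    rw [one_mul]
    exact (hnorm ξ).ge
  set v0 : K →L[ℂ] H := LinearMap.extendOfNorm (x : H →ₗ[ℂ] H) e with hv0
  have hv0e : ∀ ξ, v0 (e ξ) = x ξ := fun ξ =>
    LinearMap.extendOfNorm_eq hdense ⟨1, hbound⟩ ξ
  have hv0n : ∀ k, ‖v0 k‖ = ‖k‖ := by
    intro k
    refine hdense.induction_on (p := fun k => ‖v0 k‖ = ‖k‖) k (isClosed_eq
      (v0.continuous.norm) continuous_norm) ?_
    intro ξ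
    rw [hv0e]
    exact (hnorm ξ).symm
  set P := K.starProjection with hP
  have hPs : IsStarProjection P := isStarProjection_starProjection
  set v : H →L[ℂ] H := v0 ∘L K.orthogonalProjectionOnto with hv
  have hvP : v * P = v := by
    ext ξ
    rw [apply_mul, hv, ContinuousLinearMap.comp_apply, ContinuousLinearMap.comp_apply]
    congr 1
    apply Subtype.ext
    exact K.starProjection_eq_self_iff.2 (K.starProjection_apply_mem ξ)
  have hvn : ∀ ξ, ‖v ξ‖ = ‖P ξ‖ := by
    intro ξ
    rw [hv, ContinuousLinearMap.comp_apply, hv0n]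
    rfl
  have hPh : P * h = h := by
    ext ξ
    exact K.starProjection_eq_self_iff.2 (hmemK ξ)
  have hhP : h * P = h := by
    have := congrArg star hPh
    rwa [star_mul, hhs, hPs.isSelfAdjoint.star_eq] at this
  have hvh : v * h = x := by
    ext ξ
    rw [apply_mul, hv, ContinuousLinearMap.comp_apply, ← hv0e ξ]
    congr 1
    apply Subtype.ext
    exact K.starProjection_eq_self_iff.2 (hmemK ξ)
  have hvv : star v * v = P := by
    have h1 : star v * v - P = 0 := by
      have h2 : ((star v * v - P : H →L[ℂ] H) : H →ₗ[ℂ] H) = 0 := by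
        rw [← inner_map_self_eq_zero]
        intro ξ
        change inner ℂ ((star v * v - P) ξ) ξ = 0
        rw [ContinuousLinearMap.sub_apply, inner_sub_left, ← norm_sq_eq_inner v ξ, hvn]
        have h3 := norm_sq_eq_inner P ξ
        rw [hPs.isSelfAdjoint.star_eq, hPs.isIdempotentElem.eq] at h3
        rw [h3, sub_self]
      ext ξ
      exact congrArg (fun f => f ξ) h2
    exact sub_eq_zero.1 h1
  -- vanishing on K
  have hvanK : ∀ b : H →L[ℂ] H, b * h = 0 → b * P = 0 := by
    intro b hb
    ext ξ
    have h1 : LinearMap.range (h : H →ₗ[ℂ] H) ≤ LinearMap.ker (b : H →ₗ[ℂ] H) := by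
      rintro _ ⟨η, rfl⟩
      change (b * h) η = 0
      rw [hb]; rfl
    have h2 := Submodule.topologicalClosure_minimal _ h1 b.isClosed_ker
    exact h2 (K.starProjection_apply_mem ξ)
  have hPM : P ∈ M := by
    apply proj_mem
    intro y hy ξ hξ
    have h1 : LinearMap.range (h : H →ₗ[ℂ] H) ≤ K.comap (y : H →ₗ[ℂ] H) := by
      rintro _ ⟨η, rfl⟩
      change (y * h) η ∈ K
      rw [hcomm y hy]
      exact hmemK _
    have h2 : IsClosed ((K.comap (y : H →ₗ[ℂ] H) : Submodule ℂ H) : Set H) :=
      hKcl.preimage y.continuous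
    exact Submodule.topologicalClosure_minimal _ h1 h2 hξ
  have hvM : v ∈ M := by
    apply mem_of_comm
    intro y hy
    have h1 : (y * v - v * y) * h = 0 := by
      rw [sub_mul, mul_assoc, hvh, mul_assoc, hcomm y hy, ← mul_assoc, hvh,
        comm_of_mem M hx hy, sub_self]
    have h2 := hvanK _ h1
    rw [sub_mul, mul_assoc, hvP, mul_assoc, ← comm_of_mem M hPM hy, ← mul_assoc, hvP,
      sub_eq_zero] at h2
    exact h2
  refine ⟨v, hvM, by rw [mul_assoc, hvv, hvP], ?_, ?_, ?_⟩
  · intro a ha
    have h1 : star (h * a) * (h * a) = 0 := by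
      rw [star_mul, hhs, mul_assoc, ← mul_assoc h h a, hhh, mul_assoc, ha, mul_zero, mul_zero]
    have h2 : h * a = 0 := (CStarRing.star_mul_self_eq_zero_iff _).1 h1
    have h3 : star a * h = 0 := by
      have := congrArg star h2
      rwa [star_mul, hhs, star_zero] at this
    have h4 := hvanK _ h3
    have h5 : P * a = 0 := by
      have := congrArg star h4
      rwa [star_mul, star_star, hPs.isSelfAdjoint.star_eq, star_zero] at this
    rw [← hvP, mul_assoc, h5, mul_zero]
  · intro a ha
    have h5 : P * a = 0 := by rw [← hvv, mul_assoc, ha, mul_zero]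
    rw [← hvh, ← hhP, mul_assoc, mul_assoc, h5, mul_zero, mul_zero]
  · intro a ha
    have h1 : a * v * h = 0 := by rw [mul_assoc, hvh, ha]
    have h2 := hvanK _ h1
    rwa [mul_assoc, hvP] at h2

/-- Support projection. -/
theorem supp (M : VonNeumannAlgebra H) (x : H →L[ℂ] H) (hx : x ∈ M) :
    ∃ e ∈ M, IsStarProjection e ∧ x * e = x ∧ (∀ a, x * a = 0 → e * a = 0) := by
  obtain ⟨v, hv, hv1, hv2, hv3, -⟩ := polar M x hx
  refine ⟨star v * v, mul_mem (star_mem hv) hv, star_mul_self_proj hv1, ?_, ?_⟩
  · have h1 : v * (1 - star v * v) = 0 := by rw [mul_sub, mul_one, ← mul_assoc, hv1, sub_self]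
    have h2 := hv3 _ h1
    rw [mul_sub, mul_one, sub_eq_zero] at h2
    exact h2.symm
  · intro a ha
    rw [mul_assoc, hv2 a ha, mul_zero]

theorem max_pairwise {α : Type*} (X : Set α) (R : α → α → Prop) :
    ∃ S ⊆ X, S.Pairwise R ∧ ∀ v ∈ X, (∀ w ∈ S, R v w ∧ R w v) → v ∈ S := by
  obtain ⟨S, hS⟩ := zorn_subset {S : Set α | S ⊆ X ∧ S.Pairwise R} (by
    intro c hc hchain
    refine ⟨⋃₀ c, ⟨?_, ?_⟩, fun s hs => Set.subset_sUnion_of_mem hs⟩
    · exact Set.sUnion_subset (fun s hs => (hc hs).1)
    · exact (Set.pairwise_sUnion hchain.directedOn).2 (fun s hs => (hc hs).2))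
  refine ⟨S, hS.prop.1, hS.prop.2, ?_⟩
  intro v hv hvS
  have h1 : insert v S ∈ {S : Set α | S ⊆ X ∧ S.Pairwise R} := by
    refine ⟨Set.insert_subset hv hS.prop.1, ?_⟩
    apply hS.prop.2.insert
    intro b hb _
    exact hvS b hb
  have h2 := hS.le_of_ge h1 (Set.subset_insert v S)
  exact h2 (Set.mem_insert v S)

/-- Comparison of projections in a factor. -/
theorem comparison (M : VonNeumannAlgebra H)
    (hfac : ∀ z ∈ M, (∀ x ∈ M, z * x = x * z) → ∃ c : ℂ, z = algebraMap ℂ (H →L[ℂ] H) c)
    (p q : H →L[ℂ] H) (hpM : p ∈ M) (hqM : q ∈ M) (hp : IsStarProjection p)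
    (hq : IsStarProjection q) :
    ∃ v ∈ M, (star v * v = p ∧ q * v = v) ∨ (v * star v = q ∧ v * p = v) := by
  obtain ⟨S, hSX, hSR, hSmax⟩ := max_pairwise
    {v : H →L[ℂ] H | v ∈ M ∧ v * star v * v = v ∧ v * p = v ∧ q * v = v}
    (fun v w => star v * w = 0 ∧ v * star w = 0)
  have hS : OrthFam M S := ⟨fun v hv => (hSX hv).1, fun v hv => (hSX hv).2.1,
    fun v hv w hw hvw => hSR hv hw hvw⟩
  set W := hS.sum with hW
  have hWM : W ∈ M := hS.sum_mem
  have hWi := hS.sum_iso
  rw [← hW] at hWi
  have hWp : W * p = W := by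
    have : W * (1 - p) = 0 := by
      apply hS.sum_mul_eq_zero
      intro v hv
      rw [mul_sub, mul_one, (hSX hv).2.2.1, sub_self]
    rw [mul_sub, mul_one, sub_eq_zero] at this
    exact this.symm
  have hqW : q * W = W := by
    have : (q - 1) * W = 0 := by
      apply hS.mul_sum_eq_zero
      intro v hv
      rw [sub_mul, one_mul, (hSX hv).2.2.2, sub_self]
    rw [sub_mul, one_mul, sub_eq_zero] at this
    exact this
  have hpW : p * star W = star W := by
    have := congrArg star hWp
    rwa [star_mul, hp.isSelfAdjoint.star_eq] at this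
  by_cases h1 : p - star W * W = 0
  · exact ⟨W, hWM, Or.inl ⟨(sub_eq_zero.1 h1).symm, hqW⟩⟩
  by_cases h2 : q - W * star W = 0
  · exact ⟨W, hWM, Or.inr ⟨(sub_eq_zero.1 h2).symm, hWp⟩⟩
  exfalso
  have hp'M : p - star W * W ∈ M := sub_mem hpM (mul_mem (star_mem hWM) hWM)
  have hq'M : q - W * star W ∈ M := sub_mem hqM (mul_mem hWM (star_mem hWM))
  obtain ⟨x, hxM, hx⟩ := keyA M hfac (p - star W * W) (q - W * star W) hp'M h1 h2
  obtain ⟨v, hvM, hv1, hv2, hv3, hv4⟩ := polar M _ (mul_mem (mul_mem hq'M hxM) hp'M)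
  -- p' idempotent facts
  have hp'idem : (p - star W * W) * (p - star W * W) = p - star W * W := by
    have a1 : p * (star W * W) = star W * W := by rw [← mul_assoc, hpW]
    have a2 : star W * W * p = star W * W := by rw [mul_assoc, hWp]
    have a3 : star W * W * (star W * W) = star W * W := by
      rw [mul_assoc, ← mul_assoc W, hWi]
    rw [sub_mul, mul_sub, mul_sub, hp.isIdempotentElem.eq, a1, a2, a3]; abel
  have hWq : star W * q = star W := by
    have := congrArg star hqW
    rwa [star_mul, hq.isSelfAdjoint.star_eq] at this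
  have hWi' : star W * W * star W = star W := by
    have := congrArg star hWi
    rwa [star_mul, star_mul, star_star, ← mul_assoc] at this
  have hq'idem : (q - W * star W) * (q - W * star W) = q - W * star W := by
    have a1 : q * (W * star W) = W * star W := by rw [← mul_assoc, hqW]
    have a2 : W * star W * q = W * star W := by rw [mul_assoc, hWq]
    have a3 : W * star W * (W * star W) = W * star W := by
      rw [← mul_assoc, hWi]
    rw [sub_mul, mul_sub, mul_sub, hq.isIdempotentElem.eq, a1, a2, a3]; abel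
  have hvp' : v * (p - star W * W) = v := by
    have : v * (1 - (p - star W * W)) = 0 := by
      apply hv2
      rw [mul_assoc, mul_sub (p - star W * W), mul_one, hp'idem, sub_self, mul_zero]
    rw [mul_sub, mul_one, sub_eq_zero] at this
    exact this.symm
  have hq'v : (q - W * star W) * v = v := by
    have : ((q - W * star W) - 1) * v = 0 := by
      apply hv4
      rw [← mul_assoc, ← mul_assoc, sub_mul _ 1, one_mul, hq'idem, sub_self, zero_mul, zero_mul]
    rw [sub_mul, one_mul, sub_eq_zero] at this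
    exact this
  have hvp : v * p = v := by
    have h3 : (p - star W * W) * p = p - star W * W := by
      rw [sub_mul, hp.isIdempotentElem.eq, mul_assoc, hWp]
    calc v * p = v * (p - star W * W) * p := by rw [hvp']
      _ = v := by rw [mul_assoc, h3, hvp']
  have hqv : q * v = v := by
    have h3 : q * (q - W * star W) = q - W * star W := by
      rw [mul_sub, hq.isIdempotentElem.eq, ← mul_assoc, hqW]
    calc q * v = q * ((q - W * star W) * v) := by rw [hq'v]
      _ = v := by rw [← mul_assoc, h3, hq'v]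
  have o1 : ∀ w ∈ S, v * star w = 0 := by
    intro w hw
    have h3 : (p - star W * W) * star w = 0 := by
      have b1 : p * star w = star w := by
        have := congrArg star (hSX hw).2.2.1
        rwa [star_mul, hp.isSelfAdjoint.star_eq] at this
      have b2 : star W * W * star w = star w := by
        have b3 := hS.sum_mul_star hw
        rw [mul_assoc, b3, ← mul_assoc, hS.star_sum_mul hw]
        have := congrArg star (hS.iso w hw)
        rwa [star_mul, star_mul, star_star, ← mul_assoc] at this
      rw [sub_mul, b1, b2, sub_self]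
    rw [← hvp', mul_assoc, h3, mul_zero]
  have o2 : ∀ w ∈ S, star w * v = 0 := by
    intro w hw
    have h3 : star w * (q - W * star W) = 0 := by
      have b1 : star w * q = star w := by
        have := congrArg star (hSX hw).2.2.2
        rwa [star_mul, hq.isSelfAdjoint.star_eq] at this
      have b2 : star w * (W * star W) = star w := by
        have b3 : star w * W = star w * w := by
          have := congrArg star (hS.star_sum_mul hw)
          rwa [star_mul, star_mul, star_star, star_star] at this
        rw [← mul_assoc, b3, mul_assoc]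
        have b4 : w * star W = w * star w := by
          have := congrArg star (hS.sum_mul_star hw)
          rwa [star_mul, star_mul, star_star] at this
        rw [b4, ← mul_assoc]
        have := congrArg star (hS.iso w hw)
        rwa [star_mul, star_mul, star_star, ← mul_assoc] at this
      rw [mul_sub, b1, b2, sub_self]
    rw [← hq'v, ← mul_assoc, h3, zero_mul]
  have hvS : v ∈ S := by
    apply hSmax v ⟨hvM, hv1, hvp, hqv⟩
    intro w hw
    refine ⟨⟨?_, o1 w hw⟩, ⟨o2 w hw, ?_⟩⟩
    · have := congrArg star (o2 w hw)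
      rwa [star_mul, star_star, star_zero] at this
    · have := congrArg star (o1 w hw)
      rwa [star_mul, star_star, star_zero] at this
  have hv0 : v = 0 := by
    have := o1 v hvS
    rw [← hv1, this, zero_mul]
  have := hv3 1 (by rw [hv0, zero_mul])
  rw [mul_one] at this
  exact hx this

/-- Kernel intersection lemma. -/
theorem ker_lemma (M : VonNeumannAlgebra H) (p q : H →L[ℂ] H) (hpM : p ∈ M) (hqM : q ∈ M)
    (hp : IsStarProjection p) (hq : IsStarProjection q) :
    (∃ r ∈ M, IsStarProjection r ∧ r ≠ 0 ∧ r * p = 0 ∧ r * q = 0) ∨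
      (∃ v ∈ M, star v * v = 1 - q ∧ p * v = v) := by
  set K : Submodule ℂ H := LinearMap.ker (p : H →ₗ[ℂ] H) ⊓ LinearMap.ker (q : H →ₗ[ℂ] H) with hK
  have hKcl : IsClosed (K : Set H) := p.isClosed_ker.inter q.isClosed_ker
  haveI : CompleteSpace K := hKcl.completeSpace_coe
  by_cases hbot : K = ⊥
  · right
    obtain ⟨v, hvM, hv1, hv2, hv3, hv4⟩ := polar M (p * (1 - q)) (mul_mem hpM
      (sub_mem (one_mem M) hqM))
    refine ⟨v, hvM, ?_, ?_⟩
    · have e1 : v * q = 0 := by
        apply hv2
        rw [mul_assoc, sub_mul, one_mul, hq.isIdempotentElem.eq, sub_self, mul_zero]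
      have e2 : p * (1 - q) * (1 - star v * v) = 0 := by
        apply hv3
        rw [mul_sub, mul_one, ← mul_assoc, hv1, sub_self]
      have e3 : (1 - q) * (1 - star v * v) = 0 := by
        ext ξ
        have h1 : ((1 - q) * (1 - star v * v)) ξ ∈ K := by
          refine ⟨?_, ?_⟩
          · change p (((1 - q) * (1 - star v * v)) ξ) = 0
            calc p (((1 - q) * (1 - star v * v)) ξ) =
                (p * (1 - q) * (1 - star v * v)) ξ := rfl
              _ = 0 := by rw [e2]; rfl
          · change q (((1 - q) * (1 - star v * v)) ξ) = 0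
            calc q (((1 - q) * (1 - star v * v)) ξ) =
                (q * (1 - q) * (1 - star v * v)) ξ := rfl
              _ = 0 := by
                rw [mul_sub q, mul_one, hq.isIdempotentElem.eq, sub_self, zero_mul]; rfl
        rw [hbot] at h1
        exact h1
      have e4 : star v * v * q = 0 := by rw [mul_assoc, e1, mul_zero]
      have e5 : q * (star v * v) = 0 := by
        have := congrArg star e4
        rwa [star_mul, star_mul, star_star, hq.isSelfAdjoint.star_eq, star_zero] at this
      have e6 : (1 - q) * (1 - star v * v) = 1 - q - star v * v := by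
        rw [sub_mul, one_mul, mul_sub, mul_one, e5]; abel
      rw [e6, sub_eq_zero] at e3
      exact e3.symm
    · have : (p - 1) * v = 0 := by
        apply hv4
        rw [← mul_assoc, sub_mul, one_mul, hp.isIdempotentElem.eq, sub_self, zero_mul]
      rw [sub_mul, one_mul, sub_eq_zero] at this
      exact this
  · left
    have hP : IsStarProjection K.starProjection := isStarProjection_starProjection
    refine ⟨K.starProjection, ?_, hP, ?_, ?_, ?_⟩
    · apply proj_mem
      rintro y hy ξ ⟨h1, h2⟩
      refine ⟨?_, ?_⟩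
      · change (p * y) ξ = 0
        rw [comm_of_mem M hpM hy, apply_mul]
        have : p ξ = 0 := h1
        rw [this, map_zero]
      · change (q * y) ξ = 0
        rw [comm_of_mem M hqM hy, apply_mul]
        have : q ξ = 0 := h2
        rw [this, map_zero]
    · intro h0
      apply hbot
      rw [eq_bot_iff]
      intro ξ hξ
      have := K.starProjection_eq_self_iff.2 hξ
      rw [h0] at this
      exact this.symm
    · have : p * K.starProjection = 0 := by
        ext ξ
        exact (K.starProjection_apply_mem ξ).1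
      have := congrArg star this
      rwa [star_mul, hP.isSelfAdjoint.star_eq, hp.isSelfAdjoint.star_eq, star_zero] at this
    · have : q * K.starProjection = 0 := by
        ext ξ
        exact (K.starProjection_apply_mem ξ).2
      have := congrArg star this
      rwa [star_mul, hP.isSelfAdjoint.star_eq, hq.isSelfAdjoint.star_eq, star_zero] at this

/-- A maximal family of pairwise orthogonal copies of `r` in a finite factor is finite and exhausts
the identity up to a piece smaller than `r`. -/
theorem copies (M : VonNeumannAlgebra H)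
    (hfac : ∀ z ∈ M, (∀ x ∈ M, z * x = x * z) → ∃ c : ℂ, z = algebraMap ℂ (H →L[ℂ] H) c)
    (hfin : ∀ u ∈ M, star u * u = 1 → u * star u = 1)
    (r : H →L[ℂ] H) (hrM : r ∈ M) (hr : IsStarProjection r) (hr0 : r ≠ 0) :
    ∃ S : Finset (H →L[ℂ] H), (∀ v ∈ S, v ∈ M ∧ star v * v = r) ∧
      ∃ u ∈ M, star u * u = 1 - ∑ v ∈ S, v * star v ∧ r * u = u ∧
        ∀ v ∈ M, star v * v = r → v * star v ≠ 1 - ∑ v ∈ S, v * star v := by
  classical
  obtain ⟨S, hSX, hSR, hSmax⟩ := max_pairwise
    {v : H →L[ℂ] H | v ∈ M ∧ star v * v = r} (fun v w => star v * w = 0)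
  have hvr : ∀ v : H →L[ℂ] H, star v * v = r → v * r = v := by
    intro v hv
    have h3 : star (v - v * r) * (v - v * r) = 0 := by
      have a1 : star v * (v * r) = r := by rw [← mul_assoc, hv, hr.isIdempotentElem.eq]
      have a2 : r * star v * v = r := by rw [mul_assoc, hv, hr.isIdempotentElem.eq]
      have a3 : r * star v * (v * r) = r := by rw [mul_assoc, a1, hr.isIdempotentElem.eq]
      rw [star_sub, star_mul, hr.isSelfAdjoint.star_eq, sub_mul, mul_sub, mul_sub, hv, a1, a2, a3]
      abel
    exact (sub_eq_zero.1 ((CStarRing.star_mul_self_eq_zero_iff _).1 h3)).symm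
  have hne0 : ∀ v : H →L[ℂ] H, star v * v = r → v ≠ 0 := by
    intro v hv h0
    rw [h0, mul_zero] at hv
    exact hr0 hv.symm
  have hfinS : S.Finite := by
    by_contra hinf
    have hinf' : S.Infinite := hinf
    set f : ℕ ↪ S := hinf'.natEmbedding S with hf
    have hfM : ∀ n, (f n : H →L[ℂ] H) ∈ M := fun n => (hSX (f n).2).1
    have hfr : ∀ n, star (f n : H →L[ℂ] H) * (f n : H →L[ℂ] H) = r := fun n => (hSX (f n).2).2
    have hfr' : ∀ n, (f n : H →L[ℂ] H) * r = (f n : H →L[ℂ] H) := fun n => hvr _ (hfr n)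
    have hfr'' : ∀ n, r * star (f n : H →L[ℂ] H) = star (f n : H →L[ℂ] H) := by
      intro n
      have := congrArg star (hfr' n)
      rwa [star_mul, hr.isSelfAdjoint.star_eq] at this
    have hfo : ∀ m n, m ≠ n → star (f m : H →L[ℂ] H) * (f n : H →L[ℂ] H) = 0 := by
      intro m n hmn
      apply hSR (f m).2 (f n).2
      intro h
      exact hmn (f.injective (Subtype.ext h))
    set a : ℕ → (H →L[ℂ] H) := fun n => (f (n + 1) : H →L[ℂ] H) * star (f n : H →L[ℂ] H) with ha
    have haa : ∀ n, star (a n) * a n = (f n : H →L[ℂ] H) * star (f n : H →L[ℂ] H) := by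
      intro n
      simp only [ha]
      rw [star_mul, star_star]
      calc (f n : H →L[ℂ] H) * star (f (n + 1) : H →L[ℂ] H) *
            ((f (n + 1) : H →L[ℂ] H) * star (f n : H →L[ℂ] H)) =
            (f n : H →L[ℂ] H) * (star (f (n + 1) : H →L[ℂ] H) * (f (n + 1) : H →L[ℂ] H)) *
              star (f n : H →L[ℂ] H) := by simp only [mul_assoc]
        _ = _ := by rw [hfr, hfr']
    have hA : OrthFam M (Set.range a) := by
      refine ⟨?_, ?_, ?_⟩
      · rintro _ ⟨n, rfl⟩
        exact mul_mem (hfM _) (star_mem (hfM _))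
      · rintro _ ⟨n, rfl⟩
        rw [mul_assoc, haa]
        simp only [ha]
        calc (f (n + 1) : H →L[ℂ] H) * star (f n : H →L[ℂ] H) *
            ((f n : H →L[ℂ] H) * star (f n : H →L[ℂ] H)) =
            (f (n + 1) : H →L[ℂ] H) * (star (f n : H →L[ℂ] H) * (f n : H →L[ℂ] H)) *
              star (f n : H →L[ℂ] H) := by simp only [mul_assoc]
          _ = _ := by rw [hfr, hfr']
      · rintro _ ⟨n, rfl⟩ _ ⟨m, rfl⟩ hnm
        have hnm' : n ≠ m := fun h => hnm (by rw [h])
        simp only [ha]
        refine ⟨?_, ?_⟩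
        · rw [star_mul, star_star]
          calc (f n : H →L[ℂ] H) * star (f (n + 1) : H →L[ℂ] H) *
              ((f (m + 1) : H →L[ℂ] H) * star (f m : H →L[ℂ] H)) =
              (f n : H →L[ℂ] H) * (star (f (n + 1) : H →L[ℂ] H) * (f (m + 1) : H →L[ℂ] H)) *
                star (f m : H →L[ℂ] H) := by simp only [mul_assoc]
            _ = 0 := by rw [hfo _ _ (by omega), mul_zero, zero_mul]
        · rw [star_mul, star_star]
          calc (f (n + 1) : H →L[ℂ] H) * star (f n : H →L[ℂ] H) *
              ((f m : H →L[ℂ] H) * star (f (m + 1) : H →L[ℂ] H)) =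
              (f (n + 1) : H →L[ℂ] H) * (star (f n : H →L[ℂ] H) * (f m : H →L[ℂ] H)) *
                star (f (m + 1) : H →L[ℂ] H) := by simp only [mul_assoc]
            _ = 0 := by rw [hfo _ _ hnm', mul_zero, zero_mul]
    set W := hA.sum with hW
    set E := star W * W with hE
    have hEP : ∀ n, E * ((f n : H →L[ℂ] H) * star (f n : H →L[ℂ] H)) =
        (f n : H →L[ℂ] H) * star (f n : H →L[ℂ] H) := by
      intro n
      have h1 := hA.sum_mul_init (Set.mem_range_self n)
      have h2 := hA.star_sum_mul (Set.mem_range_self n)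
      rw [haa] at h1 h2
      rw [hE, mul_assoc, h1, h2]
    have hEW : E * W = W := by
      have h1 : (E - 1) * W = 0 := by
        apply hA.mul_sum_eq_zero
        rintro _ ⟨n, rfl⟩
        have h2 : a n = (f (n + 1) : H →L[ℂ] H) * star (f (n + 1) : H →L[ℂ] H) * a n := by
          simp only [ha]
          rw [mul_assoc, ← mul_assoc (star _), hfr, hfr'']
        rw [sub_mul, one_mul, h2, ← mul_assoc E, hEP, sub_self]
      rw [sub_mul, one_mul, sub_eq_zero] at h1
      exact h1
    have hWE : W * E = W := by rw [hE, ← mul_assoc]; exact hA.sum_iso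
    have hEs : star E = E := by rw [hE, star_mul, star_star]
    have hWsE : star W * E = star W := by
      have := congrArg star hEW
      rwa [star_mul, hEs] at this
    have hEWs : E * star W = star W := by
      have := congrArg star hWE
      rwa [star_mul, hEs] at this
    have hEE : E * E = E := by
      conv_lhs => rw [hE]
      rw [mul_assoc, ← hE, hWE]
    have hWM : W ∈ M := hA.sum_mem
    have hEM : E ∈ M := mul_mem (star_mem hWM) hWM
    have hU := hfin (W + (1 - E)) (add_mem hWM (sub_mem (one_mem M) hEM)) (by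
      rw [star_add, star_sub, star_one, hEs]
      simp only [add_mul, mul_add, sub_mul, mul_sub, one_mul, mul_one, hWE, hEW, hWsE, hEE, ← hE]
      abel)
    have hWW : W * star W = E := by
      rw [star_add, star_sub, star_one, hEs] at hU
      simp only [add_mul, mul_add, sub_mul, mul_sub, one_mul, mul_one, hWE, hEWs, hEE] at hU
      have h1 : W * star W + (star W - star W) + (W + (1 - E) - (W + (E - E))) =
          W * star W + (1 - E) := by abel
      have h2 : W * star W + (1 - E) = 1 := by
        rw [← h1]; exact hU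
      have h3 : W * star W - E = 0 := by
        have : W * star W - E = W * star W + (1 - E) - 1 := by abel
        rw [this, h2, sub_self]
      exact sub_eq_zero.1 h3
    have hP0W : (f 0 : H →L[ℂ] H) * star (f 0 : H →L[ℂ] H) * W = 0 := by
      apply hA.mul_sum_eq_zero
      rintro _ ⟨n, rfl⟩
      simp only [ha]
      calc (f 0 : H →L[ℂ] H) * star (f 0 : H →L[ℂ] H) *
            ((f (n + 1) : H →L[ℂ] H) * star (f n : H →L[ℂ] H)) =
            (f 0 : H →L[ℂ] H) * (star (f 0 : H →L[ℂ] H) * (f (n + 1) : H →L[ℂ] H)) *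
              star (f n : H →L[ℂ] H) := by simp only [mul_assoc]
        _ = 0 := by rw [hfo _ _ (by omega), mul_zero, zero_mul]
    have hP0E : (f 0 : H →L[ℂ] H) * star (f 0 : H →L[ℂ] H) * E =
        (f 0 : H →L[ℂ] H) * star (f 0 : H →L[ℂ] H) := by
      have := congrArg star (hEP 0)
      rwa [star_mul, star_mul, star_star, hEs] at this
    rw [← hWW, ← mul_assoc, hP0W, zero_mul] at hP0E
    have h1 : (f 0 : H →L[ℂ] H) = 0 := by
      have h2 : (f 0 : H →L[ℂ] H) * star (f 0 : H →L[ℂ] H) * (f 0 : H →L[ℂ] H) =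
          (f 0 : H →L[ℂ] H) := by rw [mul_assoc, hfr, hfr']
      rw [← h2, ← hP0E, zero_mul]
    exact hne0 _ (hfr 0) h1
  set T : Finset (H →L[ℂ] H) := hfinS.toFinset with hT
  have hTS : ∀ v, v ∈ T ↔ v ∈ S := fun v => hfinS.mem_toFinset
  set e := ∑ v ∈ T, v * star v with he
  have heM : e ∈ M := sum_mem (fun v hv => mul_mem (hSX ((hTS v).1 hv)).1
    (star_mem (hSX ((hTS v).1 hv)).1))
  have hes : star e = e := by
    rw [he, star_sum]
    exact Finset.sum_congr rfl (fun v _ => by rw [star_mul, star_star])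
  have hwe : ∀ w ∈ S, star w * e = star w := by
    intro w hw
    rw [he, Finset.mul_sum, Finset.sum_eq_single w]
    · rw [← mul_assoc, (hSX hw).2]
      have := congrArg star (hvr w (hSX hw).2)
      rwa [star_mul, hr.isSelfAdjoint.star_eq] at this
    · intro v hv hvw
      rw [← mul_assoc, hSR hw ((hTS v).1 hv) hvw.symm, zero_mul]
    · intro h; exact absurd ((hTS w).2 hw) h
  have hee : e * e = e := by
    conv_lhs => rw [he, Finset.sum_mul]
    rw [he]
    refine Finset.sum_congr rfl (fun v hv => ?_)
    rw [mul_assoc, ← he, hwe v ((hTS v).1 hv)]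
  have hep : IsStarProjection e := ⟨hee, hes⟩
  -- no copy of r orthogonal to e
  have hno : ∀ v ∈ M, star v * v = r → (1 - e) * v = v → False := by
    intro v hvM hv hv2
    have hevz : ∀ w ∈ S, star w * v = 0 := by
      intro w hw
      rw [← hv2, ← mul_assoc, mul_sub, mul_one, hwe w hw, sub_self, zero_mul]
    have hvS : v ∈ S := by
      apply hSmax v ⟨hvM, hv⟩
      intro w hw
      refine ⟨?_, hevz w hw⟩
      have := congrArg star (hevz w hw)
      rwa [star_mul, star_star, star_zero] at this
    have h1 := hevz v hvS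
    rw [hv] at h1
    exact hr0 h1
  obtain ⟨v, hvM, hv | hv⟩ := comparison M hfac r (1 - e) hrM (sub_mem (one_mem M) heM) hr
    hep.one_sub
  · exact absurd (hno v hvM hv.1 hv.2) not_false
  · refine ⟨T, fun v hv => hSX ((hTS v).1 hv), star v, star_mem hvM, ?_, ?_, ?_⟩
    · rw [star_star]; exact hv.1
    · have := congrArg star hv.2
      rwa [star_mul, hr.isSelfAdjoint.star_eq] at this
    · intro w hwM hw hwe'
      apply hno w hwM hw
      rw [← he] at hwe'
      rw [← hwe', mul_assoc, hw, hvr w hw]

end Pool.Agent.H27C
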