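import Mathlib
import Pool.Agent.H27C.Core6
import Pool.Agent.H27C.Corner
import Pool.Agent.H27C.VN2

namespace Pool.Agent.H27C

open Filter Topology

universe u

variable {H : Type u} [NormedAddCommGroup H] [InnerProductSpace ℂ H] [CompleteSpace H]

instance isClosed_vN (M : VonNeumannAlgebra H) :
    IsClosed (M.toStarSubalgebra : Set (H →L[ℂ] H)) := by
  have h : (M.toStarSubalgebra : Set (H →L[ℂ] H)) =
      Set.centralizer (Set.centralizer (M : Set (H →L[ℂ] H))) := by
    rw [VonNeumannAlgebra.centralizer_centralizer]; rfl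
  rw [h]
  exact Set.isClosed_centralizer _

/-- The underlying C*-algebra of a von Neumann algebra. -/
def Alg (M : VonNeumannAlgebra H) : Type _ := M.toStarSubalgebra

noncomputable instance (M : VonNeumannAlgebra H) : CStarAlgebra (Alg M) :=
  inferInstanceAs (CStarAlgebra M.toStarSubalgebra)

noncomputable instance (M : VonNeumannAlgebra H) : PartialOrder (Alg M) :=
  CStarAlgebra.spectralOrder _

instance (M : VonNeumannAlgebra H) : StarOrderedRing (Alg M) :=
  CStarAlgebra.spectralOrderedRing _

/-- The inclusion. -/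
noncomputable def inc (M : VonNeumannAlgebra H) : Alg M →⋆ₐ[ℂ] (H →L[ℂ] H) :=
  M.toStarSubalgebra.subtype

variable {M : VonNeumannAlgebra H}

theorem inc_mem (x : Alg M) : inc M x ∈ M := x.2

theorem inc_inj {x y : Alg M} (h : inc M x = inc M y) : x = y := Subtype.ext h

/-- Elements of `M` as elements of the algebra. -/
def mkA (x : H →L[ℂ] H) (hx : x ∈ M) : Alg M := ⟨x, hx⟩

@[simp] theorem inc_mkA (x : H →L[ℂ] H) (hx : x ∈ M) : inc M (mkA x hx) = x := rfl

theorem specRadius_inc (x : Alg M) : spectralRadius ℂ (inc M x) = spectralRadius ℂ x := by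
  unfold spectralRadius
  have : spectrum ℂ x = spectrum ℂ (inc M x) :=
    StarSubalgebra.spectrum_eq M.toStarSubalgebra (a := (x : M.toStarSubalgebra))
  rw [this]

theorem proj_inc {x : Alg M} : IsStarProjection (inc M x) ↔ IsStarProjection x := by
  constructor
  · intro h
    refine ⟨inc_inj ?_, inc_inj ?_⟩
    · rw [map_mul]; exact h.isIdempotentElem
    · rw [map_star]; exact h.isSelfAdjoint
  · intro h
    refine ⟨?_, ?_⟩
    · change inc M x * inc M x = inc M x
      rw [← map_mul, h.isIdempotentElem.eq]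
    · rw [IsSelfAdjoint, ← map_star, h.isSelfAdjoint.star_eq]

theorem VL_sp (k : Alg M) (hk : IsSelfAdjoint k) : ∃ e : Alg M, IsStarProjection e ∧
    0 ≤ k * e ∧ k * (1 - e) ≤ 0 ∧ ∀ z, Commute z k → Commute z e := by
  obtain ⟨e0, he0M, he0, he1, he2⟩ := supp M (inc M k⁺) (inc_mem _)
  set e : Alg M := mkA e0 he0M with he
  have hep : IsStarProjection e := proj_inc.1 he0
  have h1 : k⁺ * e = k⁺ := inc_inj (by rw [map_mul]; exact he1)
  have h2 : ∀ a : Alg M, k⁺ * a = 0 → e * a = 0 := by
    intro a ha
    apply inc_inj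
    rw [map_mul, map_zero]
    exact he2 _ (by rw [← map_mul, ha, map_zero])
  have h3 : e * k⁻ = 0 := h2 _ (CFC.posPart_mul_negPart k)
  have hns : star (k⁻) = k⁻ := (IsSelfAdjoint.of_nonneg (CFC.negPart_nonneg k)).star_eq
  have h4 : k⁻ * e = 0 := by
    have := congrArg star h3
    rwa [star_mul, hns, hep.isSelfAdjoint.star_eq, star_zero] at this
  have hk' : k⁺ - k⁻ = k := CFC.posPart_sub_negPart k hk
  have h5 : k * e = k⁺ := by
    conv_lhs => rw [← hk']
    rw [sub_mul, h1, h4, sub_zero]
  have h6 : k * (1 - e) = -k⁻ := by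
    have h6' : k - k⁺ = -k⁻ := by
      rw [sub_eq_iff_eq_add, neg_add_eq_sub]; exact hk'.symm
    rw [mul_sub, mul_one, h5, h6']
  refine ⟨e, hep, ?_, ?_, ?_⟩
  · rw [h5]; exact CFC.posPart_nonneg k
  · rw [h6]; exact neg_nonpos.2 (CFC.negPart_nonneg k)
  · have key : ∀ z : Alg M, Commute z k → e * z * (1 - e) = 0 := by
      intro z hz
      have h7 : Commute (k⁺) z := by
        rw [CFC.posPart_def]
        exact (hz.symm).cfcₙ_real _
      have h8 : k⁺ * (z * (1 - e)) = 0 := by
        rw [← mul_assoc, h7.eq, mul_assoc, mul_sub, mul_one, h1, sub_self, mul_zero]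
      have := h2 _ h8
      rwa [← mul_assoc] at this
    intro z hz
    have h9 := key z hz
    have hzs : Commute (star z) k := by
      have := congrArg star hz.eq
      rw [star_mul, star_mul, hk.star_eq] at this
      exact this.symm
    have h10 := congrArg star (key (star z) hzs)
    rw [star_mul, star_mul, star_star, star_sub, star_one, hep.isSelfAdjoint.star_eq,
      star_zero] at h10
    rw [mul_sub, mul_one, sub_eq_zero] at h9
    rw [← mul_assoc, sub_mul, sub_mul, one_mul, sub_eq_zero] at h10
    rw [commute_iff_eq, h10, ← h9]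

section fac
variable (hfac : ∀ z ∈ M, (∀ x ∈ M, z * x = x * z) → ∃ c : ℂ, z = algebraMap ℂ (H →L[ℂ] H) c)

include hfac in
theorem VL_of_factor : VL (Alg M) := by
  refine ⟨VL_sp, ?_⟩
  intro p q hp hq
  obtain ⟨v, hv, h | h⟩ := comparison M hfac (inc M p) (inc M q) (inc_mem p) (inc_mem q)
    (proj_inc.2 hp) (proj_inc.2 hq)
  · refine ⟨mkA v hv, Or.inl ⟨inc_inj ?_, inc_inj ?_⟩⟩
    · rw [map_mul, map_star, inc_mkA]; exact h.1
    · rw [map_mul, inc_mkA]; exact h.2
  · refine ⟨mkA v hv, Or.inr ⟨inc_inj ?_, inc_inj ?_⟩⟩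
    · rw [map_mul, map_star, inc_mkA]; exact h.1
    · rw [map_mul, inc_mkA]; exact h.2

variable (hfin : ∀ u ∈ M, star u * u = 1 → u * star u = 1)

include hfac hfin in
theorem copiesA (r : Alg M) (hr : IsStarProjection r) (hr0 : r ≠ 0) :
    ∃ (κ : Type u) (_ : Fintype κ) (v : κ → Alg M), (∀ i, star (v i) * v i = r) ∧
      ∃ u : Alg M, star u * u = 1 - ∑ i, v i * star (v i) ∧ r * u = u ∧
        ∀ w : Alg M, star w * w = r → w * star w ≠ 1 - ∑ i, v i * star (v i) := by
  obtain ⟨S, hS, u, huM, hu1, hu2, hu3⟩ := copies M hfac hfin (inc M r) (inc_mem r)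
    (proj_inc.2 hr) (fun h => hr0 (inc_inj (by rw [h, map_zero])))
  have hsum : inc M (1 - ∑ i : {x // x ∈ S}, mkA i.1 (hS i.1 i.2).1 * star (mkA i.1 (hS i.1 i.2).1)) =
      1 - ∑ v ∈ S, v * star v := by
    rw [map_sub, map_one, map_sum]
    congr 1
    rw [← Finset.sum_attach S (fun v => v * star v)]
    rfl
  refine ⟨{x // x ∈ S}, inferInstance, fun i => mkA i.1 (hS i.1 i.2).1, ?_, mkA u huM, ?_, ?_, ?_⟩
  · intro i
    apply inc_inj
    rw [map_mul, map_star, inc_mkA]
    exact (hS i.1 i.2).2
  · apply inc_inj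
    rw [hsum, map_mul, map_star, inc_mkA]
    exact hu1
  · apply inc_inj
    rw [map_mul, inc_mkA]
    exact hu2
  · intro w hw h
    apply hu3 (inc M w) (inc_mem w)
    · rw [← map_star, ← map_mul, hw]
    · rw [← hsum, ← h, map_mul, map_star]

/-- partial isometry facts -/
theorem pi_right {A : Type*} [CStarAlgebra A] {u f : A} (hf : IsStarProjection f)
    (h : star u * u = f) : u * f = u := by
  have h3 : star (u - u * f) * (u - u * f) = 0 := by
    have a1 : star u * (u * f) = f := by rw [← mul_assoc, h, hf.isIdempotentElem.eq]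
    have a2 : f * star u * u = f := by rw [mul_assoc, h, hf.isIdempotentElem.eq]
    have a3 : f * star u * (u * f) = f := by rw [mul_assoc, a1, hf.isIdempotentElem.eq]
    rw [star_sub, star_mul, hf.isSelfAdjoint.star_eq, sub_mul, mul_sub, mul_sub, h, a1, a2, a3]
    abel
  exact (sub_eq_zero.1 ((CStarRing.star_mul_self_eq_zero_iff _).1 h3)).symm

theorem pi_final {A : Type*} [CStarAlgebra A] {u f : A} (hf : IsStarProjection f)
    (h : star u * u = f) : IsStarProjection (u * star u) := by
  refine ⟨?_, ?_⟩
  · change u * star u * (u * star u) = u * star u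
    rw [mul_assoc, ← mul_assoc (star u), h, ← mul_assoc, pi_right hf h]
  · rw [IsSelfAdjoint, star_mul, star_star]

theorem sub_proj {A : Type*} [CStarAlgebra A] {r g : A} (hr : IsStarProjection r)
    (hg : IsStarProjection g) (h : r * g = g) : IsStarProjection (r - g) := by
  have h' : g * r = g := by
    have := congrArg star h
    rwa [star_mul, hr.isSelfAdjoint.star_eq, hg.isSelfAdjoint.star_eq] at this
  refine ⟨?_, hr.isSelfAdjoint.sub hg.isSelfAdjoint⟩
  change (r - g) * (r - g) = r - g
  rw [sub_mul, mul_sub, mul_sub, hr.isIdempotentElem.eq, hg.isIdempotentElem.eq, h, h']; abel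

theorem Tr.proj_nonneg {A : Type*} [CStarAlgebra A] {τ : A →ₗ[ℂ] ℂ} (hτ : Tr τ) {p : A}
    (hp : IsStarProjection p) : 0 ≤ (τ p).re := by
  have h := (hτ.pos p).1
  rwa [hp.isSelfAdjoint.star_eq, hp.isIdempotentElem.eq] at h

/-- If `star u * u = f`, `r u = u` then the trace of `f` is at most that of `r`. -/
theorem Tr.proj_le {A : Type*} [CStarAlgebra A] {τ : A →ₗ[ℂ] ℂ} (hτ : Tr τ) {u f r : A}
    (hf : IsStarProjection f) (hr : IsStarProjection r) (h : star u * u = f) (hru : r * u = u) :
    (τ f).re ≤ (τ r).re := by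
  have h1 : r * (u * star u) = u * star u := by rw [← mul_assoc, hru]
  have h2 := hτ.proj_nonneg (sub_proj hr (pi_final hf h) h1)
  rw [map_sub, hτ.comm, h, Complex.sub_re] at h2
  linarith

include hfac hfin in
theorem trace_pos {τ : Alg M →ₗ[ℂ] ℂ} (hτ : Tr τ) (r : Alg M) (hr : IsStarProjection r)
    (hr0 : r ≠ 0) : 0 < (τ r).re := by
  obtain ⟨κ, hκ, v, hv, u, hu1, hu2, -⟩ := copiesA hfac hfin r hr hr0
  have h1 : (τ (u * star u)).re ≤ (τ r).re := by
    have hs : star u * r = star u := by
      have := congrArg star hu2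
      rwa [star_mul, hr.isSelfAdjoint.star_eq] at this
    have hle : u * star u ≤ ‖u‖ ^ 2 • r := by
      have h3 : u * star u ≤ algebraMap ℝ (Alg M) (‖u‖ ^ 2) :=
        CStarAlgebra.mul_star_le_algebraMap_norm_sq
      have h4 := star_left_conjugate_le_conjugate h3 r
      rw [hr.isSelfAdjoint.star_eq, ← mul_assoc, hu2, mul_assoc, hs,
        Algebra.algebraMap_eq_smul_one, mul_smul_comm, mul_one, smul_mul_assoc,
        hr.isIdempotentElem.eq] at h4
      exact h4
    by_cases hn : ‖u‖ ≤ 1
    · have h5 : (τ (u * star u)).re ≤ (τ (‖u‖ ^ 2 • r)).re := hτ.mono_re hle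
      have h6 : τ (‖u‖ ^ 2 • r) = ((‖u‖ ^ 2 : ℝ) : ℂ) * τ r := by
        rw [← Complex.coe_smul, map_smul, smul_eq_mul]
      rw [h6, Complex.re_ofReal_mul] at h5
      have h7 := hτ.proj_nonneg hr
      have h8 : ‖u‖ ^ 2 ≤ 1 := pow_le_one₀ (norm_nonneg _) hn
      nlinarith
    · exfalso
      apply hn
      have h5 : star u * u ≤ 1 := by
        rw [hu1]
        have : 0 ≤ ∑ i, v i * star (v i) := Finset.sum_nonneg (fun i _ => mul_star_self_nonneg _)
        exact sub_le_self 1 this
      have h6 : ‖star u * u‖ ≤ 1 := (CStarAlgebra.norm_le_one_iff_of_nonneg _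
        (star_mul_self_nonneg u)).2 h5
      rw [CStarRing.norm_star_mul_self] at h6
      nlinarith [norm_nonneg u]
  have h2 : τ (1 : Alg M) = ∑ i, τ (v i * star (v i)) + τ (star u * u) := by
    rw [hu1, map_sub, map_sum]; ring
  have h3 : ∀ i, τ (v i * star (v i)) = τ r := fun i => by rw [hτ.comm, hv i]
  rw [hτ.one] at h2
  simp only [h3, Finset.sum_const, nsmul_eq_mul] at h2
  rw [hτ.comm] at h1
  have h4 := congrArg Complex.re h2
  simp only [Complex.one_re, Complex.add_re, Complex.mul_re, Complex.natCast_re,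
    Complex.natCast_im, zero_mul, sub_zero] at h4
  have h5 := hτ.proj_nonneg hr
  rcases h5.lt_or_eq with h6 | h6
  · exact h6
  · exfalso
    rw [← h6] at h1 h4
    rw [mul_zero] at h4
    linarith

include hfac hfin in
theorem trace_faithful {τ : Alg M →ₗ[ℂ] ℂ} (hτ : Tr τ) (x : Alg M) (hx : τ (star x * x) = 0) :
    x = 0 := by
  by_contra hx0
  set a := star x * x with ha
  have ha0 : 0 ≤ a := star_mul_self_nonneg x
  have hasa : IsSelfAdjoint a := IsSelfAdjoint.of_nonneg ha0
  have hane : a ≠ 0 := fun h => hx0 ((CStarRing.star_mul_self_eq_zero_iff x).1 h)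
  have hna : 0 < ‖a‖ := norm_pos_iff.2 hane
  set d := ‖a‖ / 2 with hd
  have hd0 : 0 < d := by positivity
  have hksa : IsSelfAdjoint (a - algebraMap ℝ (Alg M) d) :=
    hasa.sub (IsSelfAdjoint.algebraMap _ (IsSelfAdjoint.all d))
  obtain ⟨e, he, he1, he2, he3⟩ := VL_sp _ hksa
  have hcomm : Commute e a := by
    have : Commute a e := he3 a ((Commute.refl a).sub_right (Algebra.commutes d a).symm)
    exact this.symm
  have hene : e ≠ 0 := by
    intro h0
    rw [h0, sub_zero, mul_one] at he2
    have h1 : a ≤ algebraMap ℝ (Alg M) d := sub_nonpos.1 he2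
    have h2 := (CStarAlgebra.norm_le_iff_le_algebraMap a hd0.le ha0).2 h1
    linarith
  have hpos := trace_pos hfac hfin hτ e he hene
  have h1 : d • e ≤ a * e := by
    rw [sub_mul, Algebra.algebraMap_eq_smul_one, smul_mul_assoc, one_mul] at he1
    exact sub_nonneg.1 he1
  have h2 : a * e ≤ a := by
    have h3 : 0 ≤ a * (1 - e) := by
      have h4 := star_left_conjugate_nonneg ha0 (1 - e)
      have hc : Commute (1 - e) a := (Commute.one_left a).sub_left hcomm
      rwa [he.one_sub.isSelfAdjoint.star_eq, hc.eq, mul_assoc, he.one_sub.isIdempotentElem.eq]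
        at h4
    rw [mul_sub, mul_one] at h3
    exact sub_nonneg.1 h3
  have h3 := hτ.mono_re (h1.trans h2)
  have h4 : τ (d • e) = (d : ℂ) * τ e := by
    rw [← Complex.coe_smul, map_smul, smul_eq_mul]
  rw [hx, h4, Complex.re_ofReal_mul, Complex.zero_re] at h3
  have : 0 < d * (τ e).re := mul_pos hd0 hpos
  linarith

variable (hinf : ¬ ∃ s : Finset (H →L[ℂ] H), ∀ x ∈ M, x ∈ Submodule.span ℂ (s : Set (H →L[ℂ] H)))

include hfac hfin hinf in
theorem nonminimal (r : Alg M) (hr : IsStarProjection r)
    (hr0 : r ≠ 0) : ∃ s : Alg M, IsStarProjection s ∧ s ≠ 0 ∧ s ≠ r ∧ r * s = s := by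
  by_contra hcon
  push Not at hcon
  have hmin : ∀ s : Alg M, IsStarProjection s → r * s = s → s = 0 ∨ s = r := by
    intro s hs hrs
    by_contra h
    push Not at h
    exact hcon s hs h.1 h.2 hrs
  have hrr : r * r = r := hr.isIdempotentElem.eq
  have hrs : star r = r := hr.isSelfAdjoint.star_eq
  have hreal : ∀ k : Alg M, IsSelfAdjoint k → r * k * r = k → k ∈ Submodule.span ℝ {r} := by
    intro k hk hrk
    have hcl : IsClosed ((Submodule.span ℝ {r} : Submodule ℝ (Alg M)) : Set (Alg M)) :=
      Submodule.closed_of_finiteDimensional _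
    have : k ∈ closure ((Submodule.span ℝ {r} : Submodule ℝ (Alg M)) : Set (Alg M)) := by
      refine contr (V := {k : Alg M | IsSelfAdjoint k ∧ r * k * r = k}) (c := 1 / 2) (by norm_num)
        (by norm_num) ?_ ?_ k ⟨hk, hrk⟩
      · rintro k ⟨hk1, hk2⟩ w hw
        obtain ⟨c, rfl⟩ := Submodule.mem_span_singleton.1 hw
        refine ⟨hk1.sub ?_, ?_⟩
        · rw [IsSelfAdjoint, star_smul, hrs, star_trivial]
        · rw [mul_sub, sub_mul, hk2, mul_smul_comm, smul_mul_assoc, hrr, hrr]
      · rintro k ⟨hk1, hk2⟩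
        have hrk1 : r * k = k := by rw [← hk2]; simp only [← mul_assoc, hrr]
        have hrk2 : k * r = k := by rw [← hk2]; simp only [mul_assoc, hrr]
        obtain ⟨e, he, he1, he2, he3⟩ := VL_sp k hk1
        have hce : Commute r e := he3 r (by rw [commute_iff_eq, hrk1, hrk2])
        have hproj : IsStarProjection (r * e) := by
          refine ⟨?_, ?_⟩
          · change r * e * (r * e) = r * e
            rw [mul_assoc, ← mul_assoc e, ← hce.eq, mul_assoc r e e, he.isIdempotentElem.eq,
              ← mul_assoc, hrr]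
          · rw [IsSelfAdjoint, star_mul, hrs, he.isSelfAdjoint.star_eq, hce.eq]
        have hke : k * (r * e) = k * e := by rw [← mul_assoc, hrk2]
        set N := ‖k‖ with hN
        have hN0 : 0 ≤ N := norm_nonneg k
        have hrc : Commute r k := by rw [commute_iff_eq, hrk1, hrk2]
        have b1 : k ≤ N • r := by
          have := mul_proj_le hr hrc hk1.le_algebraMap_norm_self
          rwa [hrk2] at this
        have b2 : -k ≤ N • r := by
          have := mul_proj_le hr hrc.neg_right (neg_le.1 hk1.neg_algebraMap_norm_le_self)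
          rwa [neg_mul, hrk2] at this
        have hr1 : r ≤ 1 := sub_nonneg.1 (proj_nonneg' hr.one_sub)
        have half : ∀ k' : Alg M, IsSelfAdjoint k' → 0 ≤ k' → k' ≤ N • r →
            ‖k' - (N / 2) • r‖ ≤ 1 / 2 * N := by
          intro k' hk' h0 h1
          have hsa : IsSelfAdjoint (k' - (N / 2) • r) := by
            apply hk'.sub
            rw [IsSelfAdjoint, star_smul, hrs, star_trivial]
          apply norm_le_of_le hsa (by positivity)
          · rw [Algebra.algebraMap_eq_smul_one]
            calc k' - (N / 2) • r ≤ N • r - (N / 2) • r := sub_le_sub_right h1 _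
              _ = (1 / 2 * N) • r := by rw [← sub_smul]; congr 1; ring
              _ ≤ (1 / 2 * N) • 1 := smul_le_smul_of_nonneg_left hr1 (by positivity)
          · rw [Algebra.algebraMap_eq_smul_one]
            calc -((1 / 2 * N) • (1 : Alg M)) ≤ -((1 / 2 * N) • r) :=
                  neg_le_neg (smul_le_smul_of_nonneg_left hr1 (by positivity))
              _ = 0 - (N / 2) • r := by rw [zero_sub]; congr 2; ring
              _ ≤ k' - (N / 2) • r := sub_le_sub_right h0 _
        rcases hmin (r * e) hproj (by rw [← mul_assoc, hrr]) with h | h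
        · have hk0 : k * e = 0 := by rw [← hke, h, mul_zero]
          rw [mul_sub, mul_one, hk0, sub_zero] at he2
          have h1 := half (-k) hk1.neg (neg_nonneg.2 he2) b2
          refine ⟨-((N / 2) • r), Submodule.neg_mem _ (Submodule.smul_mem _ _
            (Submodule.mem_span_singleton_self r)), ?_⟩
          have h2 : k - -((N / 2) • r) = -(-k - (N / 2) • r) := by abel
          rw [h2, norm_neg]
          exact h1
        · have hk0 : k * e = k := by rw [← hke, h, hrk2]
          rw [hk0] at he1
          exact ⟨(N / 2) • r, Submodule.smul_mem _ _ (Submodule.mem_span_singleton_self r),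
            half k hk1 he1 b1⟩
    rwa [hcl.closure_eq] at this
  have hcomplex : ∀ x : Alg M, r * x * r = x → ∃ c : ℂ, x = c • r := by
    intro x hx
    have hxs : r * star x * r = star x := by
      have := congrArg star hx
      rwa [star_mul, star_mul, hrs, ← mul_assoc] at this
    have h1 := realPart_add_I_smul_imaginaryPart x
    have hra : ((realPart x : selfAdjoint (Alg M)) : Alg M) = (1 / 2 : ℝ) • (x + star x) := by
      rw [realPart_apply_coe]; norm_num
    have pa : r * ((realPart x : selfAdjoint (Alg M)) : Alg M) * r =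
        ((realPart x : selfAdjoint (Alg M)) : Alg M) := by
      rw [hra, mul_smul_comm, smul_mul_assoc, mul_add, add_mul, hx, hxs]
    have hib : Complex.I • ((imaginaryPart x : selfAdjoint (Alg M)) : Alg M) =
        x - ((realPart x : selfAdjoint (Alg M)) : Alg M) := by
      rw [eq_sub_iff_add_eq, add_comm]; exact h1
    have hib' : ((imaginaryPart x : selfAdjoint (Alg M)) : Alg M) =
        (-Complex.I) • (x - ((realPart x : selfAdjoint (Alg M)) : Alg M)) := by
      rw [← hib, smul_smul, neg_mul, Complex.I_mul_I, neg_neg, one_smul]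
    have pb : r * ((imaginaryPart x : selfAdjoint (Alg M)) : Alg M) * r =
        ((imaginaryPart x : selfAdjoint (Alg M)) : Alg M) := by
      rw [hib', mul_smul_comm, smul_mul_assoc, mul_sub, sub_mul, hx, pa]
    obtain ⟨c1, hc1⟩ := Submodule.mem_span_singleton.1 (hreal _ (realPart x).2 pa)
    obtain ⟨c2, hc2⟩ := Submodule.mem_span_singleton.1 (hreal _ (imaginaryPart x).2 pb)
    refine ⟨(c1 : ℂ) + Complex.I * c2, ?_⟩
    rw [← h1, ← hc1, ← hc2, add_smul, mul_smul, Complex.coe_smul, Complex.coe_smul]
  obtain ⟨κ, hκ, v, hv, u, hu1, hu2, hu3⟩ := copiesA hfac hfin r hr hr0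
  have hvr : ∀ i, v i * r = v i := fun i => pi_right hr (hv i)
  have hrv : ∀ i, r * star (v i) = star (v i) := by
    intro i
    have := congrArg star (hvr i)
    rwa [star_mul, hrs] at this
  -- u u* is a projection below r
  have husr : star u * r = star u := by
    have := congrArg star hu2
    rwa [star_mul, hrs] at this
  obtain ⟨c, hc⟩ := hcomplex (u * star u) (by rw [← mul_assoc, hu2, mul_assoc, husr])
  have huz : u = 0 := by
    by_contra hune
    -- c ≠ 0 and u scaled is a copy
    have hcne : c ≠ 0 := by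
      intro h0
      rw [h0, zero_smul] at hc
      exact hune ((CStarRing.mul_star_self_eq_zero_iff u).1 hc)
    -- star u * u = 1 - e; need it to be a projection
    have hf : star u * u * (star u * u) = c • (star u * u) := by
      rw [mul_assoc, ← mul_assoc u, hc, smul_mul_assoc, mul_smul_comm, hu2]
    set f := 1 - ∑ i, v i * star (v i) with hfdef
    rw [hu1] at hf
    -- f v_i = v_i - v_i - ... ; use orthogonality through trace free argument
    -- v_i* f v_i = r - sum_j v_i* v_j v_j* v_i ≤ 0 and f ≥ 0
    have hf0 : 0 ≤ f := by rw [← hu1]; exact star_mul_self_nonneg u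
    have hfv : ∀ i, star (v i) * f * v i = 0 := by
      intro i
      have h1 : star (v i) * f * v i ≤ 0 := by
        have h2 : star (v i) * f * v i = r - ∑ j, star (v i) * (v j * star (v j)) * v i := by
          rw [hfdef, mul_sub, mul_one, sub_mul, hv i, Finset.mul_sum, Finset.sum_mul]
        rw [h2, sub_nonpos]
        have h3 : star (v i) * (v i * star (v i)) * v i = r := by
          rw [← mul_assoc, hv i, mul_assoc, hv i, hrr]
        calc r = star (v i) * (v i * star (v i)) * v i := h3.symm
          _ ≤ ∑ j, star (v i) * (v j * star (v j)) * v i :=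
            Finset.single_le_sum (f := fun j => star (v i) * (v j * star (v j)) * v i)
              (fun j _ => by
                have := star_mul_self_nonneg (star (v j) * v i)
                rw [star_mul, star_star] at this
                simpa only [mul_assoc] using this) (Finset.mem_univ i)
      have h2 : 0 ≤ star (v i) * f * v i := star_left_conjugate_nonneg hf0 (v i)
      exact le_antisymm h1 h2
    have huv : ∀ i, u * v i = 0 := by
      intro i
      have h1 : star (u * v i) * (u * v i) = 0 := by
        rw [star_mul, mul_assoc, ← mul_assoc (star u), hu1, ← mul_assoc]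
        exact hfv i
      exact (CStarRing.star_mul_self_eq_zero_iff _).1 h1
    have hff : f * f = f := by
      have h1 : f * (∑ i, v i * star (v i)) = 0 := by
        rw [Finset.mul_sum]
        apply Finset.sum_eq_zero
        intro i _
        rw [← hu1, mul_assoc, ← mul_assoc u, huv i, zero_mul, mul_zero]
      conv_lhs => rw [hfdef]
      rw [← hfdef, hfdef, mul_sub, mul_one, ← hfdef, h1, sub_zero]
    have hc1 : c = 1 := by
      have h1 : (c - 1) • f = 0 := by rw [sub_smul, ← hf, hff, one_smul, sub_self]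
      rcases smul_eq_zero.1 h1 with h2 | h2
      · exact sub_eq_zero.1 h2
      · exfalso
        apply hune
        apply (CStarRing.star_mul_self_eq_zero_iff u).1
        rw [hu1, h2]
    rw [hc1, one_smul] at hc
    apply hu3 (star u)
    · rw [star_star]; exact hc
    · rw [star_star]; exact hu1
  rw [huz, mul_zero] at hu1
  have hone : ∑ i, v i * star (v i) = 1 := (sub_eq_zero.1 hu1.symm).symm
  classical
  apply hinf
  refine ⟨Finset.univ.image (fun ij : κ × κ => inc M (v ij.1 * star (v ij.2))), ?_⟩
  intro x hx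
  set y : Alg M := mkA x hx with hy
  have hdec : y = ∑ i, ∑ j, v i * (star (v i) * y * v j) * star (v j) := by
    calc y = (∑ i, v i * star (v i)) * y * (∑ j, v j * star (v j)) := by
          rw [hone, one_mul, mul_one]
      _ = _ := by
        rw [Finset.sum_mul, Finset.sum_mul]
        refine Finset.sum_congr rfl (fun i _ => ?_)
        rw [Finset.mul_sum]
        refine Finset.sum_congr rfl (fun j _ => ?_)
        simp only [mul_assoc]
  have hx' : x = inc M y := rfl
  rw [hx', hdec, map_sum]
  apply Submodule.sum_mem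
  intro i _
  rw [map_sum]
  apply Submodule.sum_mem
  intro j _
  obtain ⟨c, hc⟩ := hcomplex (star (v i) * y * v j) (by
    calc r * (star (v i) * y * v j) * r = (r * star (v i)) * y * (v j * r) := by
          simp only [mul_assoc]
      _ = _ := by rw [hrv, hvr])
  rw [hc, mul_smul_comm, smul_mul_assoc, hvr, map_smul]
  apply Submodule.smul_mem
  apply Submodule.subset_span
  simp only [Finset.coe_image, Finset.coe_univ, Set.image_univ, Set.mem_range]
  exact ⟨(i, j), rfl⟩

end fac

end Pool.Agent.H27C
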