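import Mathlib
import Pool.Agent.H27C.Asm

namespace Pool.Agent.H27C

open Filter Topology

universe u

variable {H : Type u} [NormedAddCommGroup H] [InnerProductSpace ℂ H] [CompleteSpace H]
  {M : VonNeumannAlgebra H}

variable (hfac : ∀ z ∈ M, (∀ x ∈ M, z * x = x * z) → ∃ c : ℂ, z = algebraMap ℂ (H →L[ℂ] H) c)
  (hfin : ∀ u ∈ M, star u * u = 1 → u * star u = 1)
  (hinf : ¬ ∃ s : Finset (H →L[ℂ] H), ∀ x ∈ M, x ∈ Submodule.span ℂ (s : Set (H →L[ℂ] H)))

include hfac hfin hinf in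
theorem halve {τ : Alg M →ₗ[ℂ] ℂ} (r : Alg M) (hr : IsStarProjection r)
    (hr0 : r ≠ 0) (n : ℕ) : ∃ s : Alg M, IsStarProjection s ∧ s ≠ 0 ∧ r * s = s ∧
      (τ s).re ≤ (τ r).re / 2 ^ n := by
  induction n with
  | zero => exact ⟨r, hr, hr0, hr.isIdempotentElem.eq, by simp⟩
  | succ n ih =>
    obtain ⟨s, hs, hs0, hrs, hs1⟩ := ih
    obtain ⟨a, ha, ha0, has, hsa⟩ := nonminimal hfac hfin hinf s hs hs0
    have hb : IsStarProjection (s - a) := sub_proj hs ha hsa
    have hb0 : s - a ≠ 0 := fun h => has (sub_eq_zero.1 h).symm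
    have hrb : r * (s - a) = s - a := by
      have : r * a = a := by rw [← hsa, ← mul_assoc, hrs]
      rw [mul_sub, hrs, this]
    have hra : r * a = a := by rw [← hsa, ← mul_assoc, hrs]
    have hsum : (τ s).re = (τ a).re + (τ (s - a)).re := by
      rw [map_sub, Complex.sub_re]; ring
    have e : (τ r).re / 2 ^ (n + 1) = (τ r).re / 2 ^ n / 2 := by
      rw [pow_succ]; ring
    by_cases hle : (τ a).re ≤ (τ s).re / 2
    · refine ⟨a, ha, ha0, hra, ?_⟩
      rw [e]; linarith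
    · refine ⟨s - a, hb, hb0, hrb, ?_⟩
      rw [e]; push Not at hle; linarith

include hfac hfin hinf in
theorem small_of_factor {τ : Alg M →ₗ[ℂ] ℂ} (hτ : Tr τ) (p q : Alg M) (hp : IsStarProjection p)
    (hq : IsStarProjection q) (hpq : (τ p).re + (τ q).re < 1) (ε : ℝ) (hε : 0 < ε) :
    ∃ r, IsStarProjection r ∧ r ≠ 0 ∧ r * p = 0 ∧ r * q = 0 ∧ (τ r).re < ε := by
  rcases ker_lemma M (inc M p) (inc M q) (inc_mem p) (inc_mem q) (proj_inc.2 hp)
    (proj_inc.2 hq) with ⟨r, hrM, hr, hr0, hrp, hrq⟩ | ⟨v, hvM, hv1, hv2⟩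
  · have hr' : IsStarProjection (mkA r hrM) := proj_inc.1 hr
    have hr0' : mkA r hrM ≠ 0 := fun h => hr0 (by
      have := congrArg (inc M) h
      rwa [map_zero] at this)
    obtain ⟨n, hn⟩ := exists_pow_lt_of_lt_one (show 0 < ε / (1 + (τ (mkA r hrM)).re) by
      have := hτ.proj_nonneg hr'
      positivity) (show (1 / 2 : ℝ) < 1 by norm_num)
    obtain ⟨s, hs, hs0, hrs, hs1⟩ := halve (τ := τ) hfac hfin hinf (mkA r hrM) hr' hr0' n
    have hsr : s * mkA r hrM = s := by
      have := congrArg star hrs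
      rwa [star_mul, hs.isSelfAdjoint.star_eq, hr'.isSelfAdjoint.star_eq] at this
    have hp0 : mkA r hrM * p = 0 := inc_inj (by rw [map_mul, map_zero]; exact hrp)
    have hq0 : mkA r hrM * q = 0 := inc_inj (by rw [map_mul, map_zero]; exact hrq)
    refine ⟨s, hs, hs0, ?_, ?_, ?_⟩
    · rw [← hsr, mul_assoc, hp0, mul_zero]
    · rw [← hsr, mul_assoc, hq0, mul_zero]
    · have h0 := hτ.proj_nonneg hr'
      calc (τ s).re ≤ (τ (mkA r hrM)).re / 2 ^ n := hs1
        _ = (τ (mkA r hrM)).re * (1 / 2) ^ n := by rw [one_div, inv_pow]; rfl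
        _ ≤ (1 + (τ (mkA r hrM)).re) * (1 / 2) ^ n := by
            apply mul_le_mul_of_nonneg_right (by linarith) (by positivity)
        _ < (1 + (τ (mkA r hrM)).re) * (ε / (1 + (τ (mkA r hrM)).re)) := by
            apply mul_lt_mul_of_pos_left hn (by linarith)
        _ = ε := by field_simp
  · exfalso
    have h1 := Tr.proj_le hτ (u := mkA v hvM) (f := 1 - q) (r := p) hq.one_sub hp
      (inc_inj (by rw [map_mul, map_star, inc_mkA, map_sub, map_one]; exact hv1))
      (inc_inj (by rw [map_mul, inc_mkA]; exact hv2))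
    rw [map_sub, hτ.one, Complex.sub_re, Complex.one_re] at h1
    linarith

include hfac hfin hinf in
theorem fac_of_factor {τ : Alg M →ₗ[ℂ] ℂ} (hτ : Tr τ) : Fac τ :=
  { hτ with
    faith := trace_faithful hfac hfin hτ
    corner := fun p hp x hx h0 => corner_of_VL (VL_of_factor hfac) hτ
      (trace_faithful hfac hfin hτ) p hp x hx h0
    spec := fun h hh => spec_of_VL (VL_of_factor hfac) h hh
    small := fun p q hp hq hpq ε hε => small_of_factor hfac hfin hinf hτ p q hp hq hpq ε hε }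

end Pool.Agent.H27C
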